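import Mathlib

open MeasureTheory Set
open scoped ENNReal ContDiff

namespace Pool.Agent.Work.MP_33c50c_an

instance factTwoPi : Fact (0 < 2 * Real.pi) := ⟨Real.two_pi_pos⟩

/-- The flat cylinder `M = (ℝ/2πℤ) × ℝ`, with the product (area) measure `volume`. -/
abbrev Cyl : Type := AddCircle (2 * Real.pi) × ℝ

/-- The derivative in the direction of the circle. -/
noncomputable def dX {E : Type*} [NormedAddCommGroup E] [NormedSpace ℝ E] (u : Cyl → E) (p : Cyl) :
    E :=
  deriv (fun t : ℝ => u (p.1 + (t : AddCircle (2 * Real.pi)), p.2)) 0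

/-- The derivative in the direction of the axis. -/
noncomputable def dY {E : Type*} [NormedAddCommGroup E] [NormedSpace ℝ E] (u : Cyl → E) (p : Cyl) :
    E :=
  deriv (fun t : ℝ => u (p.1, p.2 + t)) 0

/-- `u ∈ C_c^∞(Ω)`: `u` is smooth on the cylinder (its lift to the plane is smooth) and has compact
support in `Ω`. -/
def IsTest (Ω : Set Cyl) (u : Cyl → ℝ) : Prop :=
  ContDiff ℝ ∞ (fun q : ℝ × ℝ => u ((q.1 : AddCircle (2 * Real.pi)), q.2)) ∧
    HasCompactSupport u ∧ tsupport u ⊆ Ω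

/-- The Dirichlet energy. -/
noncomputable def energy (u : Cyl → ℝ) : ℝ := ∫ p, (dX u p ^ 2 + dY u p ^ 2)

/-- The squared `L²` norm. -/
noncomputable def mass (u : Cyl → ℝ) : ℝ := ∫ p, u p ^ 2

/-- The `k`-th Dirichlet eigenvalue (`k ≥ 1`) of the open set `Ω`, by the min-max principle: the
infimum over the `k`-dimensional spaces `L ⊆ C_c^∞(Ω)` of the supremum of the Rayleigh quotient. -/
noncomputable def eigenvalue (Ω : Set Cyl) (k : ℕ) : ℝ≥0∞ :=
  ⨅ (L : Submodule ℝ (Cyl → ℝ)) (_ : (∀ u ∈ L, IsTest Ω u) ∧ Module.finrank ℝ L = k),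
    ⨆ (u : Cyl → ℝ) (_ : u ∈ L ∧ u ≠ 0), ENNReal.ofReal (energy u / mass u)

/-- Polya's inequality `λ_k(Ω) ≥ 4πk/|Ω|` for every `k ≥ 1`. -/
def SatisfiesPolya (Ω : Set Cyl) : Prop :=
  ∀ k : ℕ, 1 ≤ k → ENNReal.ofReal (4 * Real.pi * k) / volume Ω ≤ eigenvalue Ω k

/-- A motion (isometry) of the cylinder: a rotation or reflection of the circle, and a translation
or reflection of the axis. -/
structure Motion where
  /-- sign on the circle -/
  s : ℤˣ
  /-- rotation -/
  a : AddCircle (2 * Real.pi)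
  /-- sign on the axis -/
  s' : ℤˣ
  /-- translation -/
  c : ℝ

/-- The action of a motion. -/
noncomputable def Motion.map (g : Motion) (p : Cyl) : Cyl :=
  ((g.s : ℤ) • p.1 + g.a, ((g.s' : ℤ) : ℝ) * p.2 + g.c)

/-- The `j`-th power of the translation by `(β, H)`. -/
noncomputable def shift (β : AddCircle (2 * Real.pi)) (H : ℝ) (j : ℤ) (p : Cyl) : Cyl :=
  (p.1 + j • β, p.2 + j * H)

/-- `Ω` tiles the cylinder, up to a null set, by the sets `τ^j (g_i Ω)`, where `τ` is the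
translation by `(β, H)`, `j` runs over `ℤ` and `g_1, ..., g_N` are motions: these sets are pairwise
disjoint and their total area in one period is `2πH`. -/
def Tiles (β : AddCircle (2 * Real.pi)) (H : ℝ) (N : ℕ) (g : Fin N → Motion) (Ω : Set Cyl) : Prop :=
  (∀ i i' : Fin N, ∀ j j' : ℤ, (i, j) ≠ (i', j') →
    Disjoint (shift β H j '' ((g i).map '' Ω)) (shift β H j' '' ((g i').map '' Ω))) ∧
  (N : ℝ≥0∞) * volume Ω = ENNReal.ofReal (2 * Real.pi * H)

/-- The statement. -/
def Statement : Prop :=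
  ∃ H₀ : ℝ, 0 < H₀ ∧ ∀ H : ℝ, 0 < H → H ≤ H₀ →
    ∀ (β : AddCircle (2 * Real.pi)) (Ω : Set Cyl), IsOpen Ω →
      ∀ (N : ℕ) (g : Fin N → Motion), Tiles β H N g Ω → SatisfiesPolya Ω

end Pool.Agent.Work.MP_33c50c_an
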