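import Mathlib

namespace Pool.Agent.Work.MP_33c50c_an

open MeasureTheory intervalIntegral Set

/-- the character `exp(-i ξ y)`. -/
noncomputable def ph (ξ y : ℝ) : ℂ := Complex.exp (-(Complex.I * ((ξ * y : ℝ) : ℂ)))

lemma ph_norm (ξ y : ℝ) : ‖ph ξ y‖ = 1 := by
  unfold ph
  rw [show -(Complex.I * ((ξ * y : ℝ) : ℂ)) = ((-(ξ * y) : ℝ) : ℂ) * Complex.I by push_cast; ring]
  exact Complex.norm_exp_ofReal_mul_I _

@[fun_prop]
lemma ph_continuous (ξ : ℝ) : Continuous (ph ξ) := by unfold ph; fun_prop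

lemma ph_add_left (ξ η y : ℝ) : ph (ξ + η) y = ph ξ y * ph η y := by
  unfold ph; rw [← Complex.exp_add]; congr 1; push_cast; ring

lemma ph_add_right (ξ y z : ℝ) : ph ξ (y + z) = ph ξ y * ph ξ z := by
  unfold ph; rw [← Complex.exp_add]; congr 1; push_cast; ring

lemma ph_eq_one (ξ y : ℝ) (n : ℤ) (h : ξ * y = 2 * Real.pi * n) : ph ξ y = 1 := by
  unfold ph
  rw [h, Complex.exp_eq_one_iff]
  exact ⟨-n, by push_cast; ring⟩

/-- Parseval on an interval. -/
lemma parseval_interval (P : ℝ) (hP : 0 < P) (f : ℝ → ℂ) (hf : Continuous f) :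
    HasSum (fun m : ℤ => ‖∫ y in (0:ℝ)..P, ph (2 * Real.pi / P * m) y * f y‖ ^ 2)
      (P * ∫ y in (0:ℝ)..P, ‖f y‖ ^ 2) := by
  have hL2 : MemLp f 2 (volume.restrict (Ioc 0 P)) := by
    have : IsFiniteMeasure (volume.restrict (Ioc 0 P)) := by
      constructor; simp
    obtain ⟨C, hC⟩ := (isCompact_Icc (a := (0:ℝ)) (b := P)).exists_bound_of_continuousOn hf.continuousOn
    apply MemLp.of_bound hf.aestronglyMeasurable C
    rw [ae_restrict_iff' measurableSet_Ioc]
    filter_upwards with x hx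
    exact hC x ⟨hx.1.le, hx.2⟩
  have h := hasSum_sq_fourierCoeffOn hP hL2
  have h2 := h.mul_left (P ^ 2)
  have e1 : ∀ m : ℤ, P ^ 2 * ‖fourierCoeffOn hP f m‖ ^ 2 =
      ‖∫ y in (0:ℝ)..P, ph (2 * Real.pi / P * m) y * f y‖ ^ 2 := by
    intro m
    rw [fourierCoeffOn_eq_integral, sub_zero, norm_smul, mul_pow, Real.norm_eq_abs, sq_abs]
    have e2 : ∀ y : ℝ, fourier (-m) (y : AddCircle P) • f y = ph (2 * Real.pi / P * m) y * f y := by
      intro y
      rw [fourier_coe_apply, smul_eq_mul]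
      unfold ph
      congr 2
      push_cast; ring
    simp_rw [e2]
    field_simp
  have e3 : P ^ 2 * ((P - 0)⁻¹ • ∫ x in (0:ℝ)..P, ‖f x‖ ^ 2) = P * ∫ y in (0:ℝ)..P, ‖f y‖ ^ 2 := by
    rw [sub_zero, smul_eq_mul]; field_simp
  rw [e3] at h2
  have e4 : (fun m : ℤ => ‖∫ y in (0:ℝ)..P, ph (2 * Real.pi / P * m) y * f y‖ ^ 2) =
      fun m : ℤ => P ^ 2 * ‖fourierCoeffOn hP f m‖ ^ 2 := funext (fun m => (e1 m).symm)
  rw [e4]; exact h2

/-- a finite family with at most one nonzero entry. -/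
lemma norm_sq_sum_of_disjoint {ι : Type*} (s : Finset ι) (f : ι → ℂ)
    (h : ∀ i ∈ s, ∀ j ∈ s, i ≠ j → f i = 0 ∨ f j = 0) :
    ‖∑ i ∈ s, f i‖ ^ 2 = ∑ i ∈ s, ‖f i‖ ^ 2 := by
  by_cases hex : ∃ i ∈ s, f i ≠ 0
  · obtain ⟨i, hi, hne⟩ := hex
    have hz : ∀ j ∈ s, j ≠ i → f j = 0 := fun j hj hji =>
      (h i hi j hj (Ne.symm hji)).resolve_left hne
    rw [Finset.sum_eq_single_of_mem i hi hz, Finset.sum_eq_single_of_mem i hi]
    intro j hj hji
    rw [hz j hj hji]; simp
  · push Not at hex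
    rw [Finset.sum_congr rfl hex]
    symm
    simp only [Finset.sum_const_zero, norm_zero]
    rw [Finset.sum_congr rfl (fun i hi => by rw [hex i hi, norm_zero])]
    simp

/-- shift of the integral pieces. -/
lemma sum_integral_shift {E : Type*} [NormedAddCommGroup E] [NormedSpace ℝ E]
    (g : ℝ → E) (hg : Continuous g) (H : ℝ) (J : ℕ) :
    ∑ j ∈ Finset.range (2 * J), ∫ y in (0:ℝ)..H, g (y + ((j:ℝ) - J) * H) =
      ∫ y in (-(J * H))..(J * H), g y := by
  have h := intervalIntegral.sum_integral_adjacent_intervals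
    (a := fun k : ℕ => ((k:ℝ) - J) * H) (n := 2 * J)
    (f := g) (μ := volume) (fun k _ => hg.intervalIntegrable _ _)
  have e1 : ((((2 * J : ℕ) : ℝ)) - J) * H = J * H := by push_cast; ring
  have e0 : (((0 : ℕ) : ℝ) - J) * H = -(J * H) := by push_cast; ring
  rw [e1, e0] at h
  rw [← h]
  apply Finset.sum_congr rfl
  intro j _
  rw [intervalIntegral.integral_comp_add_right]
  congr 1
  · ring
  · push_cast; ring

/-- Parseval for the periodisation with a quasi momentum. -/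
lemma parseval_periodised (H : ℝ) (hH : 0 < H) (J : ℕ) (G : ℝ → ℂ) (hG : Continuous G)
    (hdis : ∀ y : ℝ, ∀ j : ℤ, j ≠ 0 → G y = 0 ∨ G (y + j * H) = 0) (κ : ℝ) :
    HasSum (fun m : ℤ => ‖∫ y in (-(J * H))..(J * H), ph (2 * Real.pi / H * (m + κ)) y * G y‖ ^ 2)
      (H * ∫ y in (-(J * H))..(J * H), ‖G y‖ ^ 2) := by
  set Gp : ℝ → ℂ := fun y => ∑ j ∈ Finset.range (2 * J),
    ph (2 * Real.pi / H * κ) (y + ((j:ℝ) - J) * H) * G (y + ((j:ℝ) - J) * H) with hGp
  have hGpc : Continuous Gp := by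
    simp only [hGp]
    apply continuous_finsetSum
    intro j _
    exact ((ph_continuous _).comp (by fun_prop)).mul (hG.comp (by fun_prop))
  have h := parseval_interval H hH Gp hGpc
  have e1 : ∀ m : ℤ, ∫ y in (0:ℝ)..H, ph (2 * Real.pi / H * m) y * Gp y =
      ∫ y in (-(J * H))..(J * H), ph (2 * Real.pi / H * (m + κ)) y * G y := by
    intro m
    rw [← sum_integral_shift (fun y => ph (2 * Real.pi / H * (m + κ)) y * G y)
      ((ph_continuous _).mul hG) H J, ← intervalIntegral.integral_finsetSum]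
    · congr 1
      ext y
      simp only [hGp]
      rw [Finset.mul_sum]
      apply Finset.sum_congr rfl
      intro j _
      rw [show 2 * Real.pi / H * (m + κ) = 2 * Real.pi / H * m + 2 * Real.pi / H * κ by ring,
        ph_add_left, ph_add_right (2 * Real.pi / H * m) y,
        ph_eq_one (2 * Real.pi / H * m) (((j:ℝ) - J) * H) (m * ((j:ℤ) - J))]
      · ring
      · push_cast; field_simp
    · intro j _
      have : Continuous fun y : ℝ => ph (2 * Real.pi / H * (m + κ)) (y + ((j:ℝ) - J) * H) *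
          G (y + ((j:ℝ) - J) * H) :=
        ((ph_continuous _).comp (by fun_prop)).mul (hG.comp (by fun_prop))
      exact this.intervalIntegrable _ _
  have e2 : ∫ y in (0:ℝ)..H, ‖Gp y‖ ^ 2 = ∫ y in (-(J * H))..(J * H), ‖G y‖ ^ 2 := by
    rw [← sum_integral_shift (fun y => ‖G y‖ ^ 2) (by fun_prop) H J,
      ← intervalIntegral.integral_finsetSum]
    · congr 1
      ext y
      simp only [hGp]
      rw [norm_sq_sum_of_disjoint]
      · apply Finset.sum_congr rfl
        intro j _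
        rw [norm_mul, ph_norm, one_mul]
      · intro i _ j _ hij
        have hne : (j:ℤ) - i ≠ 0 := by
          intro h0; apply hij; omega
        rcases hdis (y + ((i:ℝ) - J) * H) ((j:ℤ) - i) hne with h0 | h0
        · left; rw [h0, mul_zero]
        · right
          have : y + ((i:ℝ) - J) * H + (((j:ℤ) - i : ℤ) : ℝ) * H = y + ((j:ℝ) - J) * H := by
            push_cast; ring
          rw [this] at h0
          rw [h0, mul_zero]
    · intro j _
      exact Continuous.intervalIntegrable (by fun_prop) _ _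
  rw [e2] at h
  have e3 : (fun m : ℤ => ‖∫ y in (-(J * H))..(J * H), ph (2 * Real.pi / H * (m + κ)) y * G y‖ ^ 2) =
      fun m : ℤ => ‖∫ y in (0:ℝ)..H, ph (2 * Real.pi / H * m) y * Gp y‖ ^ 2 :=
    funext (fun m => by rw [e1])
  rw [e3]; exact h

end Pool.Agent.Work.MP_33c50c_an
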