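import Mathlib
import Pool.Agent.Work.MP_33c50c_an.Var1

namespace Pool.Agent.Work.MP_33c50c_an

open MeasureTheory intervalIntegral Set

lemma integral_shift_period {E : Type*} [NormedAddCommGroup E] [NormedSpace ℝ E] (g : ℝ → E)
    (hg : ∀ x, g (x + 2 * Real.pi) = g x) (c : ℝ) :
    ∫ x in (0:ℝ)..(2 * Real.pi), g (x + c) = ∫ x in (0:ℝ)..(2 * Real.pi), g x := by
  rw [intervalIntegral.integral_comp_add_right]
  have hp : Function.Periodic g (2 * Real.pi) := hg
  have := hp.intervalIntegral_add_eq (0 + c) 0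
  rw [show 2 * Real.pi + c = 0 + c + 2 * Real.pi by ring, this]; simp

lemma swap_cont {E : Type*} [NormedAddCommGroup E] [NormedSpace ℝ E] (F : ℝ → ℝ → E)
    (hF : Continuous fun q : ℝ × ℝ => F q.1 q.2) (a b c d : ℝ) :
    ∫ x in a..b, ∫ y in c..d, F x y = ∫ y in c..d, ∫ x in a..b, F x y := by
  apply intervalIntegral_intervalIntegral_swap
  have h : IntegrableOn (fun q : ℝ × ℝ => F q.1 q.2) (uIcc a b ×ˢ uIcc c d) :=
    hF.continuousOn.integrableOn_compact (isCompact_uIcc.prod isCompact_uIcc)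
  exact h.mono_set (prod_mono uIoc_subset_uIcc uIoc_subset_uIcc)

/-- Fourier coefficient on the cylinder, in the fundamental rectangle. -/
noncomputable def coef (R : ℝ) (F : ℝ → ℝ → ℂ) (n : ℤ) (ξ : ℝ) : ℂ :=
  ∫ y in (-R)..R, ∫ x in (0:ℝ)..(2 * Real.pi), ph n x * ph ξ y * F x y

lemma hasSum_integral_interval (g : ℤ → ℝ → ℝ) (S : ℝ → ℝ) (a b : ℝ) (hab : a ≤ b)
    (hg : ∀ m, Continuous (g m)) (hg0 : ∀ m x, 0 ≤ g m x) (hS : Continuous S)
    (h : ∀ x, HasSum (fun m => g m x) (S x)) :
    HasSum (fun m => ∫ x in a..b, g m x) (∫ x in a..b, S x) := by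
  have hi : ∀ m, Integrable (g m) (volume.restrict (Ioc a b)) := fun m =>
    (intervalIntegrable_iff_integrableOn_Ioc_of_le hab).mp ((hg m).intervalIntegrable a b)
  have hle : ∀ s : Finset ℤ, ∑ m ∈ s, ∫ x in a..b, g m x ≤ ∫ x in a..b, S x := by
    intro s
    rw [← intervalIntegral.integral_finsetSum (fun m _ => (hg m).intervalIntegrable a b)]
    apply intervalIntegral.integral_mono_on hab _ (hS.intervalIntegrable a b)
    · intro x _
      exact sum_le_hasSum s (fun m _ => hg0 m x) (h x)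
    · exact Continuous.intervalIntegrable (continuous_finsetSum _ (fun m _ => hg m)) _ _
  have hsum : Summable fun m => ∫ x in a..b, g m x :=
    summable_of_sum_le (fun m => intervalIntegral.integral_nonneg hab (fun x _ => hg0 m x)) hle
  have hsum' : Summable fun m => ∫ x, ‖g m x‖ ∂(volume.restrict (Ioc a b)) := by
    convert hsum using 1
    ext m
    rw [intervalIntegral.integral_of_le hab]
    congr 1; ext x; rw [Real.norm_eq_abs, abs_of_nonneg (hg0 m x)]
  have := hasSum_integral_of_summable_integral_norm hi hsum'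
  have e1 : (fun m => ∫ x in a..b, g m x) = fun m => ∫ x, g m x ∂(volume.restrict (Ioc a b)) := by
    ext m; rw [intervalIntegral.integral_of_le hab]
  rw [e1, intervalIntegral.integral_of_le hab]
  have e2 : ∀ x, ∑' m, g m x = S x := fun x => (h x).tsum_eq
  simp_rw [e2] at this
  exact this

/-- Parseval for functions on the cylinder whose translates by a skew vector are disjoint. -/
theorem parseval_cyl (H : ℝ) (hH : 0 < H) (J : ℕ) (F : ℝ → ℝ → ℂ)
    (hF : Continuous fun q : ℝ × ℝ => F q.1 q.2)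
    (hper : ∀ x y, F (x + 2 * Real.pi) y = F x y) (β₀ : ℝ)
    (hdis : ∀ x y : ℝ, ∀ j : ℤ, j ≠ 0 → F x y = 0 ∨ F (x + j * β₀) (y + j * H) = 0) (κ : ℝ) :
    HasSum (fun p : ℤ × ℤ => ‖coef (J * H) F p.1
      (2 * Real.pi / H * (p.2 + κ - p.1 * (β₀ / (2 * Real.pi))))‖ ^ 2)
      (2 * Real.pi * H * ∫ y in (-(J * H))..(J * H), ∫ x in (0:ℝ)..(2 * Real.pi), ‖F x y‖ ^ 2) := by
  have hpi := Real.pi_pos
  set R := J * H with hR
  set c := β₀ / H with hc
  have hF' : Continuous fun q : ℝ × ℝ => F (q.1 + c * q.2) q.2 :=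
    hF.comp (g := fun q : ℝ × ℝ => F q.1 q.2) (f := fun q : ℝ × ℝ => (q.1 + c * q.2, q.2)) (by fun_prop)
  set a : ℤ → ℝ → ℂ := fun m x => ∫ y in (-R)..R, ph (2 * Real.pi / H * (m + κ)) y * F (x + c * y) y
    with ha
  have hac : ∀ m, Continuous (a m) := by
    intro m
    apply intervalIntegral.continuous_parametric_intervalIntegral_of_continuous'
    exact ((ph_continuous _).comp continuous_snd).mul hF'
  -- fibre Parseval in `y`
  have h1 : ∀ x, HasSum (fun m : ℤ => ‖a m x‖ ^ 2) (H * ∫ y in (-R)..R, ‖F (x + c * y) y‖ ^ 2) := by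
    intro x
    apply parseval_periodised H hH J (fun y => F (x + c * y) y)
    · exact hF'.comp (by fun_prop : Continuous fun y : ℝ => (x, y))
    · intro y j hj
      have := hdis (x + c * y) y j hj
      have e : x + c * (y + j * H) = x + c * y + j * β₀ := by
        rw [hc]; field_simp; ring
      rw [e]; exact this
  -- Parseval in `x`
  have h2 : ∀ m, HasSum (fun n : ℤ => ‖∫ x in (0:ℝ)..(2 * Real.pi), ph n x * a m x‖ ^ 2)
      (2 * Real.pi * ∫ x in (0:ℝ)..(2 * Real.pi), ‖a m x‖ ^ 2) := by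
    intro m
    have := parseval_interval (2 * Real.pi) (by positivity) (a m) (hac m)
    have e : ∀ n : ℤ, 2 * Real.pi / (2 * Real.pi) * (n:ℝ) = n := by intro n; field_simp
    simp_rw [e] at this
    exact this
  have hNc : Continuous fun x => H * ∫ y in (-R)..R, ‖F (x + c * y) y‖ ^ 2 := by
    apply continuous_const.mul
    apply intervalIntegral.continuous_parametric_intervalIntegral_of_continuous'
    exact (hF'.norm).pow 2
  have h3 := hasSum_integral_interval (fun m x => ‖a m x‖ ^ 2)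
    (fun x => H * ∫ y in (-R)..R, ‖F (x + c * y) y‖ ^ 2) 0 (2 * Real.pi) (by positivity)
    (fun m => ((hac m).norm).pow 2) (fun m x => by positivity) hNc h1
  -- identification of the coefficients
  have h4 : ∀ n m : ℤ, ∫ x in (0:ℝ)..(2 * Real.pi), ph n x * a m x =
      coef R F n (2 * Real.pi / H * (m + κ - n * (β₀ / (2 * Real.pi)))) := by
    intro n m
    set ξ := 2 * Real.pi / H * (m + κ) with hξ
    have e1 : ∀ x, ph n x * a m x = ∫ y in (-R)..R, ph n x * (ph ξ y * F (x + c * y) y) := by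
      intro x; rw [intervalIntegral.integral_const_mul]
    simp_rw [e1]
    rw [swap_cont (fun x y => ph n x * (ph ξ y * F (x + c * y) y))]
    · unfold coef
      congr 1
      ext y
      have e2 : ∀ x, ph n x * (ph ξ y * F (x + c * y) y) =
          (fun z => ph n (z - c * y) * (ph ξ y * F z y)) (x + c * y) := by
        intro x; simp
      simp_rw [e2]
      rw [integral_shift_period (fun z => ph n (z - c * y) * (ph ξ y * F z y))]
      · congr 1
        ext x
        have e3 : ph n (x - c * y) = ph n x * ph (-(n * c)) y := by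
          unfold ph; rw [← Complex.exp_add]; congr 1; push_cast; ring
        have e4 : 2 * Real.pi / H * (m + κ - n * (β₀ / (2 * Real.pi))) = ξ + -(n * c) := by
          rw [hξ, hc]; field_simp; ring
        rw [e3, e4, ph_add_left ξ]; ring
      · intro x
        rw [hper, show x + 2 * Real.pi - c * y = (x - c * y) + 2 * Real.pi by ring, ph_add_right,
          ph_eq_one n (2 * Real.pi) n (by ring), mul_one]
    · exact ((ph_continuous _).comp continuous_fst).mul (((ph_continuous _).comp continuous_snd).mul hF')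
  -- the mass
  have h5 : ∫ x in (0:ℝ)..(2 * Real.pi), H * ∫ y in (-R)..R, ‖F (x + c * y) y‖ ^ 2 =
      H * ∫ y in (-R)..R, ∫ x in (0:ℝ)..(2 * Real.pi), ‖F x y‖ ^ 2 := by
    rw [intervalIntegral.integral_const_mul, swap_cont (fun x y => ‖F (x + c * y) y‖ ^ 2)
      ((hF'.norm).pow 2)]
    congr 2
    ext y
    rw [integral_shift_period (fun z => ‖F z y‖ ^ 2)]
    intro x; rw [hper]
  -- assemble
  set g : ℤ × ℤ → ℝ := fun q => ‖coef R F q.2
    (2 * Real.pi / H * (q.1 + κ - q.2 * (β₀ / (2 * Real.pi))))‖ ^ 2 with hg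
  have hrow : ∀ m : ℤ, HasSum (fun n : ℤ => g (m, n))
      (2 * Real.pi * ∫ x in (0:ℝ)..(2 * Real.pi), ‖a m x‖ ^ 2) := by
    intro m
    have := h2 m
    simp_rw [h4] at this
    exact this
  have hcol : HasSum (fun m : ℤ => 2 * Real.pi * ∫ x in (0:ℝ)..(2 * Real.pi), ‖a m x‖ ^ 2)
      (2 * Real.pi * (H * ∫ y in (-R)..R, ∫ x in (0:ℝ)..(2 * Real.pi), ‖F x y‖ ^ 2)) := by
    rw [← h5]; exact h3.mul_left _
  have hgs : Summable g := by
    rw [summable_prod_of_nonneg (fun q => by positivity)]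
    refine ⟨fun m => (hrow m).summable, ?_⟩
    have : (fun m => ∑' n, g (m, n)) =
        fun m : ℤ => 2 * Real.pi * ∫ x in (0:ℝ)..(2 * Real.pi), ‖a m x‖ ^ 2 :=
      funext (fun m => (hrow m).tsum_eq)
    rw [this]; exact hcol.summable
  have hgt : HasSum g (2 * Real.pi * (H * ∫ y in (-R)..R, ∫ x in (0:ℝ)..(2 * Real.pi), ‖F x y‖ ^ 2)) := by
    have h6 := hgs.hasSum.prod_fiberwise hrow
    rw [← h6.unique hcol]; exact hgs.hasSum
  have h7 := (Equiv.prodComm ℤ ℤ).hasSum_iff.mpr hgt
  rw [mul_assoc (2 * Real.pi) H]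
  exact h7

end Pool.Agent.Work.MP_33c50c_an
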