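import Mathlib
import Pool.Agent.Work.MP_33c50c_an.Var2

namespace Pool.Agent.Work.MP_33c50c_an

open MeasureTheory intervalIntegral Set

lemma ph_hasDerivAt (ξ y : ℝ) : HasDerivAt (ph ξ) (-(Complex.I * ξ) * ph ξ y) y := by
  have h1 : HasDerivAt (fun y : ℝ => ((ξ * y : ℝ) : ℂ)) (ξ : ℂ) y := by
    have := ((hasDerivAt_id y).const_mul ξ).ofReal_comp
    simpa using this
  have h2 := ((h1.const_mul Complex.I).neg).cexp
  refine h2.congr_deriv ?_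
  show Complex.exp (-(Complex.I * ((ξ * y : ℝ) : ℂ))) * -(Complex.I * (ξ : ℂ)) = _
  unfold ph; ring

lemma coef_x (R : ℝ) (F Fx : ℝ → ℝ → ℂ) (n : ℤ) (ξ : ℝ)
    (hFx : Continuous fun q : ℝ × ℝ => Fx q.1 q.2)
    (hd : ∀ x y, HasDerivAt (fun t => F t y) (Fx x y) x)
    (hF : Continuous fun q : ℝ × ℝ => F q.1 q.2)
    (hper : ∀ x y, F (x + 2 * Real.pi) y = F x y) :
    coef R Fx n ξ = Complex.I * n * coef R F n ξ := by
  unfold coef
  rw [← intervalIntegral.integral_const_mul]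
  congr 1
  ext y
  have hFy : Continuous fun x => F x y := hF.comp (by fun_prop : Continuous fun x : ℝ => (x, y))
  have hFxy : Continuous fun x => Fx x y := hFx.comp (by fun_prop : Continuous fun x : ℝ => (x, y))
  have h := intervalIntegral.integral_mul_deriv_eq_deriv_mul (a := 0) (b := 2 * Real.pi)
    (u := fun x => ph n x * ph ξ y) (u' := fun x => (-(Complex.I * n) * ph n x) * ph ξ y)
    (v := fun x => F x y) (v' := fun x => Fx x y)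
    (fun x _ => by simpa using (ph_hasDerivAt n x).mul_const (ph ξ y)) (fun x _ => hd x y)
    (Continuous.intervalIntegrable (by fun_prop) _ _) (hFxy.intervalIntegrable _ _)
  rw [h]
  have e0 : F (2 * Real.pi) y = F 0 y := by rw [← hper 0 y, zero_add]
  have e1 : ph n (2 * Real.pi) = ph n 0 := by
    rw [ph_eq_one n (2 * Real.pi) n (by ring), ph_eq_one n 0 0 (by simp)]
  rw [e0, e1, sub_self, zero_sub, ← intervalIntegral.integral_const_mul,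
    ← intervalIntegral.integral_neg]
  congr 1; ext x; ring

lemma coef_y (R : ℝ) (F Fy : ℝ → ℝ → ℂ) (n : ℤ) (ξ : ℝ)
    (hFy : Continuous fun q : ℝ × ℝ => Fy q.1 q.2)
    (hd : ∀ x y, HasDerivAt (fun t => F x t) (Fy x y) y)
    (hF : Continuous fun q : ℝ × ℝ => F q.1 q.2)
    (hv1 : ∀ x, F x R = 0) (hv2 : ∀ x, F x (-R) = 0) :
    coef R Fy n ξ = Complex.I * ξ * coef R F n ξ := by
  unfold coef
  have c1 : Continuous fun q : ℝ × ℝ => ph n q.2 * ph ξ q.1 * Fy q.2 q.1 :=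
    (((ph_continuous _).comp continuous_snd).mul ((ph_continuous _).comp continuous_fst)).mul
      (hFy.comp (by fun_prop : Continuous fun q : ℝ × ℝ => (q.2, q.1)))
  have c2 : Continuous fun q : ℝ × ℝ => ph n q.2 * ph ξ q.1 * F q.2 q.1 :=
    (((ph_continuous _).comp continuous_snd).mul ((ph_continuous _).comp continuous_fst)).mul
      (hF.comp (by fun_prop : Continuous fun q : ℝ × ℝ => (q.2, q.1)))
  rw [swap_cont (fun y x => ph n x * ph ξ y * Fy x y) c1,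
    swap_cont (fun y x => ph n x * ph ξ y * F x y) c2, ← intervalIntegral.integral_const_mul]
  congr 1
  ext x
  have hFx1 : Continuous fun y => F x y := hF.comp (by fun_prop : Continuous fun y : ℝ => (x, y))
  have hFy1 : Continuous fun y => Fy x y := hFy.comp (by fun_prop : Continuous fun y : ℝ => (x, y))
  have h := intervalIntegral.integral_mul_deriv_eq_deriv_mul (a := -R) (b := R)
    (u := fun y => ph n x * ph ξ y) (u' := fun y => ph n x * (-(Complex.I * ξ) * ph ξ y))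
    (v := fun y => F x y) (v' := fun y => Fy x y)
    (fun y _ => by simpa using (ph_hasDerivAt ξ y).const_mul (ph n x)) (fun y _ => hd x y)
    (Continuous.intervalIntegrable (by fun_prop) _ _) (hFy1.intervalIntegrable _ _)
  rw [h, hv1, hv2, mul_zero, mul_zero, sub_zero, zero_sub, ← intervalIntegral.integral_const_mul,
    ← intervalIntegral.integral_neg]
  congr 1; ext y; ring

/-- the spectral inequality: vanishing low Fourier coefficients force large energy. -/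
theorem energy_gt (H : ℝ) (hH : 0 < H) (J : ℕ) (F Fx Fy : ℝ → ℝ → ℂ)
    (hF : Continuous fun q : ℝ × ℝ => F q.1 q.2)
    (hFx : Continuous fun q : ℝ × ℝ => Fx q.1 q.2)
    (hFy : Continuous fun q : ℝ × ℝ => Fy q.1 q.2)
    (hdx : ∀ x y, HasDerivAt (fun t => F t y) (Fx x y) x)
    (hdy : ∀ x y, HasDerivAt (fun t => F x t) (Fy x y) y)
    (hper : ∀ x y, F (x + 2 * Real.pi) y = F x y)
    (hperx : ∀ x y, Fx (x + 2 * Real.pi) y = Fx x y)
    (hpery : ∀ x y, Fy (x + 2 * Real.pi) y = Fy x y)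
    (hv1 : ∀ x, F x (J * H) = 0) (hv2 : ∀ x, F x (-(J * H)) = 0) (β₀ : ℝ)
    (hdis : ∀ x y : ℝ, ∀ j : ℤ, j ≠ 0 → F x y = 0 ∨ F (x + j * β₀) (y + j * H) = 0)
    (hdisx : ∀ x y : ℝ, ∀ j : ℤ, j ≠ 0 → Fx x y = 0 ∨ Fx (x + j * β₀) (y + j * H) = 0)
    (hdisy : ∀ x y : ℝ, ∀ j : ℤ, j ≠ 0 → Fy x y = 0 ∨ Fy (x + j * β₀) (y + j * H) = 0)
    (κ lam : ℝ)
    (hlow : ∀ n m : ℤ, (n:ℝ) ^ 2 + (2 * Real.pi / H * (m + κ - n * (β₀ / (2 * Real.pi)))) ^ 2 ≤ lam →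
      coef (J * H) F n (2 * Real.pi / H * (m + κ - n * (β₀ / (2 * Real.pi)))) = 0)
    (hmass : 0 < ∫ y in (-(J * H))..(J * H), ∫ x in (0:ℝ)..(2 * Real.pi), ‖F x y‖ ^ 2) :
    lam * (∫ y in (-(J * H))..(J * H), ∫ x in (0:ℝ)..(2 * Real.pi), ‖F x y‖ ^ 2) <
      (∫ y in (-(J * H))..(J * H), ∫ x in (0:ℝ)..(2 * Real.pi), ‖Fx x y‖ ^ 2) +
      ∫ y in (-(J * H))..(J * H), ∫ x in (0:ℝ)..(2 * Real.pi), ‖Fy x y‖ ^ 2 := by
  have hpi := Real.pi_pos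
  have s0 := parseval_cyl H hH J F hF hper β₀ hdis κ
  have sx := parseval_cyl H hH J Fx hFx hperx β₀ hdisx κ
  have sy := parseval_cyl H hH J Fy hFy hpery β₀ hdisy κ
  set m0 := ∫ y in (-(J * H))..(J * H), ∫ x in (0:ℝ)..(2 * Real.pi), ‖F x y‖ ^ 2 with hm0
  set mx := ∫ y in (-(J * H))..(J * H), ∫ x in (0:ℝ)..(2 * Real.pi), ‖Fx x y‖ ^ 2 with hmx
  set my := ∫ y in (-(J * H))..(J * H), ∫ x in (0:ℝ)..(2 * Real.pi), ‖Fy x y‖ ^ 2 with hmy
  set ζ : ℤ × ℤ → ℝ := fun p => 2 * Real.pi / H * (p.2 + κ - p.1 * (β₀ / (2 * Real.pi))) with hζ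
  have ex : ∀ p : ℤ × ℤ, ‖coef (J * H) Fx p.1 (ζ p)‖ ^ 2 =
      (p.1:ℝ) ^ 2 * ‖coef (J * H) F p.1 (ζ p)‖ ^ 2 := by
    intro p
    rw [coef_x (J * H) F Fx p.1 (ζ p) hFx hdx hF hper, norm_mul, norm_mul, Complex.norm_I, one_mul,
      mul_pow, Complex.norm_intCast, sq_abs]
  have ey : ∀ p : ℤ × ℤ, ‖coef (J * H) Fy p.1 (ζ p)‖ ^ 2 =
      (ζ p) ^ 2 * ‖coef (J * H) F p.1 (ζ p)‖ ^ 2 := by
    intro p
    rw [coef_y (J * H) F Fy p.1 (ζ p) hFy hdy hF hv1 hv2, norm_mul, norm_mul, Complex.norm_I, one_mul,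
      mul_pow, Complex.norm_real, Real.norm_eq_abs, sq_abs]
  have sx' : HasSum (fun p : ℤ × ℤ => (p.1:ℝ) ^ 2 * ‖coef (J * H) F p.1 (ζ p)‖ ^ 2)
      (2 * Real.pi * H * mx) := by
    have := sx
    rw [show (fun p : ℤ × ℤ => (p.1:ℝ) ^ 2 * ‖coef (J * H) F p.1 (ζ p)‖ ^ 2) =
      fun p : ℤ × ℤ => ‖coef (J * H) Fx p.1 (ζ p)‖ ^ 2 from funext (fun p => (ex p).symm)]
    exact this
  have sy' : HasSum (fun p : ℤ × ℤ => (ζ p) ^ 2 * ‖coef (J * H) F p.1 (ζ p)‖ ^ 2)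
      (2 * Real.pi * H * my) := by
    rw [show (fun p : ℤ × ℤ => (ζ p) ^ 2 * ‖coef (J * H) F p.1 (ζ p)‖ ^ 2) =
      fun p : ℤ × ℤ => ‖coef (J * H) Fy p.1 (ζ p)‖ ^ 2 from funext (fun p => (ey p).symm)]
    exact sy
  have s0' : HasSum (fun p : ℤ × ℤ => ‖coef (J * H) F p.1 (ζ p)‖ ^ 2) (2 * Real.pi * H * m0) := s0
  have hdiff := (sx'.add sy').sub (s0'.mul_left lam)
  have hterm : ∀ p : ℤ × ℤ, 0 ≤ (p.1:ℝ) ^ 2 * ‖coef (J * H) F p.1 (ζ p)‖ ^ 2 +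
      (ζ p) ^ 2 * ‖coef (J * H) F p.1 (ζ p)‖ ^ 2 - lam * ‖coef (J * H) F p.1 (ζ p)‖ ^ 2 := by
    intro p
    by_cases h : (p.1:ℝ) ^ 2 + (ζ p) ^ 2 ≤ lam
    · have := hlow p.1 p.2 h
      have h2 : coef (J * H) F p.1 (ζ p) = 0 := this
      rw [h2]; simp
    · have h' : 0 < (p.1:ℝ) ^ 2 + (ζ p) ^ 2 - lam := by linarith [not_le.mp h]
      have : (p.1:ℝ) ^ 2 * ‖coef (J * H) F p.1 (ζ p)‖ ^ 2 +
        (ζ p) ^ 2 * ‖coef (J * H) F p.1 (ζ p)‖ ^ 2 - lam * ‖coef (J * H) F p.1 (ζ p)‖ ^ 2 =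
        ((p.1:ℝ) ^ 2 + (ζ p) ^ 2 - lam) * ‖coef (J * H) F p.1 (ζ p)‖ ^ 2 := by ring
      rw [this]; positivity
  -- some coefficient is nonzero
  have hex : ∃ p : ℤ × ℤ, coef (J * H) F p.1 (ζ p) ≠ 0 := by
    by_contra hcon
    push Not at hcon
    have hz : HasSum (fun p : ℤ × ℤ => ‖coef (J * H) F p.1 (ζ p)‖ ^ 2) 0 := by
      have : (fun p : ℤ × ℤ => ‖coef (J * H) F p.1 (ζ p)‖ ^ 2) = fun _ => 0 := by
        funext p; rw [hcon p]; simp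
      rw [this]; exact hasSum_zero
    have h := s0'.unique hz
    have : 0 < 2 * Real.pi * H * m0 := by positivity
    linarith
  obtain ⟨p, hp⟩ := hex
  have hpl : lam < (p.1:ℝ) ^ 2 + (ζ p) ^ 2 := by
    by_contra hcon
    exact hp (hlow p.1 p.2 (not_lt.mp hcon))
  have hpos : 0 < (p.1:ℝ) ^ 2 * ‖coef (J * H) F p.1 (ζ p)‖ ^ 2 +
      (ζ p) ^ 2 * ‖coef (J * H) F p.1 (ζ p)‖ ^ 2 - lam * ‖coef (J * H) F p.1 (ζ p)‖ ^ 2 := by
    have : (p.1:ℝ) ^ 2 * ‖coef (J * H) F p.1 (ζ p)‖ ^ 2 +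
        (ζ p) ^ 2 * ‖coef (J * H) F p.1 (ζ p)‖ ^ 2 - lam * ‖coef (J * H) F p.1 (ζ p)‖ ^ 2 =
        ((p.1:ℝ) ^ 2 + (ζ p) ^ 2 - lam) * ‖coef (J * H) F p.1 (ζ p)‖ ^ 2 := by ring
    rw [this]
    have h1 : 0 < (p.1:ℝ) ^ 2 + (ζ p) ^ 2 - lam := by linarith
    have h2 : 0 < ‖coef (J * H) F p.1 (ζ p)‖ := norm_pos_iff.mpr hp
    positivity
  have hle := sum_le_hasSum {p} (fun q _ => hterm q) hdiff
  rw [Finset.sum_singleton] at hle
  have hfin : 0 < 2 * Real.pi * H * mx + 2 * Real.pi * H * my - lam * (2 * Real.pi * H * m0) :=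
    lt_of_lt_of_le hpos hle
  have e : 2 * Real.pi * H * mx + 2 * Real.pi * H * my - lam * (2 * Real.pi * H * m0) =
      (2 * Real.pi * H) * (mx + my - lam * m0) := by ring
  rw [e] at hfin
  have := (mul_pos_iff_of_pos_left (by positivity : 0 < 2 * Real.pi * H)).mp hfin
  linarith

end Pool.Agent.Work.MP_33c50c_an
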