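import Mathlib
import Pool.Agent.Work.MP_33c50c_an.Var3
import Pool.Agent.Work.MP_33c50c_an.Defs

namespace Pool.Agent.Work.MP_33c50c_an

open MeasureTheory Set
open scoped ENNReal ContDiff

/-- the point of the cylinder with coordinates `x, y`. -/
noncomputable def pt (x y : ℝ) : Cyl := ((x : AddCircle (2 * Real.pi)), y)

lemma pt_surj (p : Cyl) : ∃ x, pt x p.2 = p := by
  obtain ⟨x, hx⟩ := QuotientAddGroup.mk_surjective p.1
  exact ⟨x, Prod.ext hx rfl⟩

lemma pt_per (x y : ℝ) : pt (x + 2 * Real.pi) y = pt x y := by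
  unfold pt; rw [AddCircle.coe_add_period]

/-- the lift to the plane. -/
noncomputable def lft {E : Type*} (f : Cyl → E) : ℝ × ℝ → E := fun q => f (pt q.1 q.2)

lemma isQuot : Topology.IsQuotientMap (fun q : ℝ × ℝ => pt q.1 q.2) := by
  have h1 : IsOpenQuotientMap ((↑) : ℝ → AddCircle (2 * Real.pi)) :=
    QuotientAddGroup.isOpenQuotientMap_mk
  have h2 : IsOpenQuotientMap (id : ℝ → ℝ) := IsOpenQuotientMap.id
  exact (h1.prodMap h2).isQuotientMap

lemma continuous_of_lft {E : Type*} [TopologicalSpace E] (f : Cyl → E) (h : Continuous (lft f)) :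
    Continuous f := isQuot.continuous_iff.mpr h

lemma pt_continuous : Continuous fun q : ℝ × ℝ => pt q.1 q.2 := isQuot.continuous

section
variable {E : Type*} [NormedAddCommGroup E] [NormedSpace ℝ E]

lemma dX_pt (f : Cyl → E) (x y : ℝ) : dX f (pt x y) = deriv (fun t => f (pt t y)) x := by
  unfold dX
  have : (fun t : ℝ => f ((pt x y).1 + (t : AddCircle (2 * Real.pi)), (pt x y).2)) =
      fun t => (fun t => f (pt t y)) (x + t) := by
    ext t; simp [pt]
  rw [this]
  refine (deriv_comp_const_add (fun t => f (pt t y)) x 0).trans ?_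
  rw [add_zero]

lemma dY_pt (f : Cyl → E) (x y : ℝ) : dY f (pt x y) = deriv (fun t => f (pt x t)) y := by
  unfold dY
  have : (fun t : ℝ => f ((pt x y).1, (pt x y).2 + t)) =
      fun t => (fun t => f (pt x t)) (y + t) := by
    ext t; simp [pt]
  rw [this]
  refine (deriv_comp_const_add (fun t => f (pt x t)) y 0).trans ?_
  rw [add_zero]

variable (f : Cyl → E) (hf : ContDiff ℝ 1 (lft f))
include hf

lemma hasDeriv_x' (x y : ℝ) : HasDerivAt (fun t => f (pt t y)) (fderiv ℝ (lft f) (x, y) (1, 0)) x := by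
  have h1 : HasFDerivAt (lft f) (fderiv ℝ (lft f) (x, y)) (x, y) :=
    (hf.differentiable one_ne_zero (x, y)).hasFDerivAt
  have h2 : HasDerivAt (fun t : ℝ => (t, y)) ((1:ℝ), (0:ℝ)) x :=
    (hasDerivAt_id x).prodMk (hasDerivAt_const x y)
  exact h1.comp_hasDerivAt x h2

lemma hasDeriv_y' (x y : ℝ) : HasDerivAt (fun t => f (pt x t)) (fderiv ℝ (lft f) (x, y) (0, 1)) y := by
  have h1 : HasFDerivAt (lft f) (fderiv ℝ (lft f) (x, y)) (x, y) :=
    (hf.differentiable one_ne_zero (x, y)).hasFDerivAt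
  have h2 : HasDerivAt (fun t : ℝ => (x, t)) ((0:ℝ), (1:ℝ)) y :=
    (hasDerivAt_const y x).prodMk (hasDerivAt_id y)
  exact h1.comp_hasDerivAt y h2

lemma hasDeriv_x (x y : ℝ) : HasDerivAt (fun t => f (pt t y)) (dX f (pt x y)) x := by
  rw [dX_pt]; exact (hasDeriv_x' f hf x y).differentiableAt.hasDerivAt

lemma hasDeriv_y (x y : ℝ) : HasDerivAt (fun t => f (pt x t)) (dY f (pt x y)) y := by
  rw [dY_pt]; exact (hasDeriv_y' f hf x y).differentiableAt.hasDerivAt

lemma cont_f : Continuous f := continuous_of_lft f hf.continuous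

lemma cont_dX : Continuous (dX f) := by
  apply continuous_of_lft
  have h : lft (dX f) = fun q : ℝ × ℝ => fderiv ℝ (lft f) q (1, 0) := by
    ext q
    show dX f (pt q.1 q.2) = _
    rw [dX_pt, (hasDeriv_x' f hf q.1 q.2).deriv]
  rw [h]
  exact (hf.continuous_fderiv one_ne_zero).clm_apply continuous_const

lemma cont_dY : Continuous (dY f) := by
  apply continuous_of_lft
  have h : lft (dY f) = fun q : ℝ × ℝ => fderiv ℝ (lft f) q (0, 1) := by
    ext q
    show dY f (pt q.1 q.2) = _
    rw [dY_pt, (hasDeriv_y' f hf q.1 q.2).deriv]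
  rw [h]
  exact (hf.continuous_fderiv one_ne_zero).clm_apply continuous_const

end

section
variable {E : Type*} [NormedAddCommGroup E] [NormedSpace ℝ E]

lemma dX_ne (f : Cyl → E) (p : Cyl) (h : dX f p ≠ 0) : p ∈ tsupport f := by
  by_contra hp
  apply h
  have hz : f =ᶠ[nhds p] 0 := notMem_tsupport_iff_eventuallyEq.mp hp
  have hc : ContinuousAt (fun t : ℝ => ((p.1 + (t : AddCircle (2 * Real.pi)), p.2) : Cyl)) 0 := by
    apply Continuous.continuousAt
    exact (continuous_const.add (AddCircle.continuous_mk' _)).prodMk continuous_const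
  have h0 : ((p.1 + ((0:ℝ) : AddCircle (2 * Real.pi)), p.2) : Cyl) = p := by simp
  have h1 : (fun t : ℝ => f (p.1 + (t : AddCircle (2 * Real.pi)), p.2)) =ᶠ[nhds 0] fun _ => 0 := by
    have hz' : ∀ᶠ q in nhds ((p.1 + ((0:ℝ) : AddCircle (2 * Real.pi)), p.2) : Cyl), f q = 0 := by
      rw [h0]; exact hz
    exact hc.eventually hz'
  unfold dX
  rw [h1.deriv_eq]; simp

lemma dY_ne (f : Cyl → E) (p : Cyl) (h : dY f p ≠ 0) : p ∈ tsupport f := by
  by_contra hp
  apply h
  have hz : f =ᶠ[nhds p] 0 := notMem_tsupport_iff_eventuallyEq.mp hp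
  have hc : ContinuousAt (fun t : ℝ => ((p.1, p.2 + t) : Cyl)) 0 := by
    apply Continuous.continuousAt; fun_prop
  have h0 : ((p.1, p.2 + (0:ℝ)) : Cyl) = p := by simp
  have h1 : (fun t : ℝ => f (p.1, p.2 + t)) =ᶠ[nhds 0] fun _ => 0 := by
    have hz' : ∀ᶠ q in nhds ((p.1, p.2 + (0:ℝ)) : Cyl), f q = 0 := by
      rw [h0]; exact hz
    exact hc.eventually hz'
  unfold dY
  rw [h1.deriv_eq]; simp

end

/-- integration over the cylinder of a continuous compactly supported function. -/
lemma integral_cyl {E : Type*} [NormedAddCommGroup E] [NormedSpace ℝ E] (f : Cyl → E)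
    (hf : Continuous f) (hs : HasCompactSupport f) (R : ℝ) (hR0 : 0 ≤ R)
    (hR : ∀ p : Cyl, R ≤ |p.2| → f p = 0) :
    ∫ p, f p = ∫ y in (-R)..R, ∫ x in (0:ℝ)..(2 * Real.pi), f (pt x y) := by
  have hi : Integrable f (volume : Measure Cyl) := hf.integrable_of_hasCompactSupport hs
  rw [Measure.volume_eq_prod] at hi ⊢
  rw [integral_prod_symm f hi]
  have h1 : ∀ y : ℝ, ∫ θ : AddCircle (2 * Real.pi), f (θ, y) =
      ∫ x in (0:ℝ)..(2 * Real.pi), f (pt x y) := by
    intro y
    have := AddCircle.intervalIntegral_preimage (2 * Real.pi) 0 (fun θ => f (θ, y))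
    rw [zero_add] at this
    exact this.symm
  simp_rw [h1]
  rw [intervalIntegral.integral_of_le (by linarith)]
  symm
  apply setIntegral_eq_integral_of_forall_compl_eq_zero
  intro y hy
  have hy' : R ≤ |y| := by
    by_contra h
    apply hy
    rw [not_le, abs_lt] at h
    exact ⟨h.1, h.2.le⟩
  have : ∀ x : ℝ, f (pt x y) = 0 := fun x => hR _ hy'
  simp [this]

/-- the inverse of a motion. -/
noncomputable def Motion.imap (g : Motion) (p : Cyl) : Cyl :=
  ((g.s : ℤ) • (p.1 - g.a), ((g.s' : ℤ) : ℝ) * (p.2 - g.c))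

lemma Motion.map_imap (g : Motion) (p : Cyl) : g.map (g.imap p) = p := by
  obtain ⟨s, a, s', c⟩ := g
  rcases Int.units_eq_one_or s with rfl | rfl <;> rcases Int.units_eq_one_or s' with rfl | rfl <;>
    simp [Motion.map, Motion.imap]

lemma Motion.imap_map (g : Motion) (p : Cyl) : g.imap (g.map p) = p := by
  obtain ⟨s, a, s', c⟩ := g
  rcases Int.units_eq_one_or s with rfl | rfl <;> rcases Int.units_eq_one_or s' with rfl | rfl <;>
    simp [Motion.map, Motion.imap]

lemma Motion.imap_injective (g : Motion) : Function.Injective g.imap := fun p q h => by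
  rw [← g.map_imap p, h, g.map_imap]

lemma Motion.imap_continuous (g : Motion) : Continuous g.imap := by
  unfold Motion.imap; fun_prop

lemma Motion.map_continuous (g : Motion) : Continuous g.map := by
  unfold Motion.map; fun_prop

lemma Motion.imap_mp (g : Motion) : MeasurePreserving g.imap (volume : Measure Cyl) volume := by
  obtain ⟨s, a, s', c⟩ := g
  have h1 : MeasurePreserving (fun θ : AddCircle (2 * Real.pi) => (s : ℤ) • (θ - a)) volume volume := by
    rcases Int.units_eq_one_or s with rfl | rfl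
    · simpa using measurePreserving_sub_right volume a
    · have := (Measure.measurePreserving_neg (volume : Measure (AddCircle (2 * Real.pi)))).comp
        (measurePreserving_sub_right volume a)
      simpa [Function.comp_def] using this
  have h2 : MeasurePreserving (fun y : ℝ => ((s' : ℤ) : ℝ) * (y - c)) volume volume := by
    rcases Int.units_eq_one_or s' with rfl | rfl
    · simpa using measurePreserving_sub_right volume c
    · have := (Measure.measurePreserving_neg (volume : Measure ℝ)).comp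
        (measurePreserving_sub_right volume c)
      simpa [Function.comp_def] using this
  exact h1.prod h2

lemma Motion.integral_imap {E : Type*} [NormedAddCommGroup E] [NormedSpace ℝ E] (g : Motion)
    (f : Cyl → E) : ∫ p, f (g.imap p) = ∫ p, f p :=
  g.imap_mp.integral_comp (g.imap_continuous.measurableEmbedding g.imap_injective) f

section
variable {E : Type*} [NormedAddCommGroup E] [NormedSpace ℝ E]

lemma Motion.dX_imap (g : Motion) (f : Cyl → E) (p : Cyl) :
    dX (fun q => f (g.imap q)) p = ((g.s : ℤ) : ℝ) • dX f (g.imap p) := by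
  unfold dX
  have h : (fun t : ℝ => f (g.imap (p.1 + (t : AddCircle (2 * Real.pi)), p.2))) =
      fun t => (fun t : ℝ => f ((g.imap p).1 + (t : AddCircle (2 * Real.pi)), (g.imap p).2))
        (((g.s : ℤ) : ℝ) * t) := by
    ext t
    congr 1
    apply Prod.ext
    · show (g.s : ℤ) • (p.1 + (t : AddCircle (2 * Real.pi)) - g.a) =
        (g.s : ℤ) • (p.1 - g.a) + ((((g.s : ℤ) : ℝ) * t : ℝ) : AddCircle (2 * Real.pi))
      rw [← zsmul_eq_mul, AddCircle.coe_zsmul, ← smul_add]
      congr 1; abel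
    · rfl
  rw [h]
  refine (deriv_comp_mul_left (((g.s : ℤ) : ℝ))
    (fun t : ℝ => f ((g.imap p).1 + (t : AddCircle (2 * Real.pi)), (g.imap p).2)) 0).trans ?_
  rw [mul_zero]

lemma Motion.dY_imap (g : Motion) (f : Cyl → E) (p : Cyl) :
    dY (fun q => f (g.imap q)) p = ((g.s' : ℤ) : ℝ) • dY f (g.imap p) := by
  unfold dY
  have h : (fun t : ℝ => f (g.imap (p.1, p.2 + t))) =
      fun t => (fun t : ℝ => f ((g.imap p).1, (g.imap p).2 + t)) (((g.s' : ℤ) : ℝ) * t) := by
    ext t
    congr 1
    apply Prod.ext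
    · rfl
    · show ((g.s' : ℤ) : ℝ) * (p.2 + t - g.c) = ((g.s' : ℤ) : ℝ) * (p.2 - g.c) + ((g.s' : ℤ) : ℝ) * t
      ring
  rw [h]
  refine (deriv_comp_mul_left (((g.s' : ℤ) : ℝ))
    (fun t : ℝ => f ((g.imap p).1, (g.imap p).2 + t)) 0).trans ?_
  rw [mul_zero]

end

lemma unit_sq (s : ℤˣ) : (((s : ℤ) : ℝ)) ^ 2 = 1 := by
  rcases Int.units_eq_one_or s with rfl | rfl <;> simp

/-- the lift of the composition with a motion is smooth. -/
lemma Motion.lft_imap {E : Type*} [NormedAddCommGroup E] [NormedSpace ℝ E] (g : Motion)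
    (f : Cyl → E) (hf : ContDiff ℝ 1 (lft f)) : ContDiff ℝ 1 (lft fun q => f (g.imap q)) := by
  obtain ⟨a₀, ha⟩ := QuotientAddGroup.mk_surjective g.a
  have h : (lft fun q => f (g.imap q)) =
      fun q : ℝ × ℝ => lft f (((g.s : ℤ) : ℝ) * (q.1 - a₀), ((g.s' : ℤ) : ℝ) * (q.2 - g.c)) := by
    ext q
    show f (g.imap (pt q.1 q.2)) = f (pt _ _)
    congr 1
    apply Prod.ext
    · show (g.s : ℤ) • ((q.1 : AddCircle (2 * Real.pi)) - g.a) =
        ((((g.s : ℤ) : ℝ) * (q.1 - a₀) : ℝ) : AddCircle (2 * Real.pi))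
      rw [← zsmul_eq_mul, AddCircle.coe_zsmul, AddCircle.coe_sub, ← ha]
    · rfl
  rw [h]
  exact hf.comp (by fun_prop)

lemma Motion.compact_imap {E : Type*} [NormedAddCommGroup E] (g : Motion)
    (f : Cyl → E) (hf : HasCompactSupport f) : HasCompactSupport fun q => f (g.imap q) := by
  apply HasCompactSupport.of_support_subset_isCompact (hf.image g.map_continuous)
  intro p hp
  exact ⟨g.imap p, subset_tsupport _ hp, g.map_imap p⟩

lemma mass_imap (g : Motion) (u : Cyl → ℝ) : mass (fun q => u (g.imap q)) = mass u :=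
  g.integral_imap (fun p => u p ^ 2)

lemma energy_imap (g : Motion) (u : Cyl → ℝ) : energy (fun q => u (g.imap q)) = energy u := by
  unfold energy
  have : ∀ p, dX (fun q => u (g.imap q)) p ^ 2 + dY (fun q => u (g.imap q)) p ^ 2 =
      (fun p => dX u p ^ 2 + dY u p ^ 2) (g.imap p) := by
    intro p
    rw [g.dX_imap, g.dY_imap, smul_eq_mul, smul_eq_mul, mul_pow, mul_pow, unit_sq, unit_sq]
    simp
  simp_rw [this]
  exact g.integral_imap (fun p => dX u p ^ 2 + dY u p ^ 2)

end Pool.Agent.Work.MP_33c50c_an
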