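import Mathlib
import Pool.Agent.Work.MP_33c50c_an.Cyl1

namespace Pool.Agent.Work.MP_33c50c_an

open MeasureTheory Set
open scoped ENNReal ContDiff

/-- complex combination of two real functions. -/
noncomputable def cplx (u v : Cyl → ℝ) : Cyl → ℂ := fun p => (u p : ℂ) + (v p : ℂ) * Complex.I

lemma normSq_cplx (a b : ℝ) : ‖(a : ℂ) + (b : ℂ) * Complex.I‖ ^ 2 = a ^ 2 + b ^ 2 := by
  rw [← Complex.normSq_eq_norm_sq, Complex.normSq_add_mul_I]

lemma test_lft {Ω : Set Cyl} {u : Cyl → ℝ} (h : IsTest Ω u) : ContDiff ℝ 1 (lft u) :=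
  h.1.of_le (by exact_mod_cast le_top)

lemma cplx_lft (u v : Cyl → ℝ) (hu : ContDiff ℝ 1 (lft u)) (hv : ContDiff ℝ 1 (lft v)) :
    ContDiff ℝ 1 (lft (cplx u v)) := by
  have h1 : ContDiff ℝ 1 fun q => ((lft u q : ℝ) : ℂ) := Complex.ofRealCLM.contDiff.comp hu
  have h2 : ContDiff ℝ 1 fun q => ((lft v q : ℝ) : ℂ) := Complex.ofRealCLM.contDiff.comp hv
  exact h1.add (h2.mul contDiff_const)

section
variable {E : Type*} [NormedAddCommGroup E] [NormedSpace ℝ E]

lemma diffX (f : Cyl → E) (hf : ContDiff ℝ 1 (lft f)) (p : Cyl) :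
    DifferentiableAt ℝ (fun t : ℝ => f (p.1 + (t : AddCircle (2 * Real.pi)), p.2)) 0 := by
  obtain ⟨x, hx⟩ := pt_surj p
  rw [← hx]
  have : (fun t : ℝ => f ((pt x p.2).1 + (t : AddCircle (2 * Real.pi)), (pt x p.2).2)) =
      fun t => (fun t => f (pt t p.2)) (x + t) := by
    ext t; simp [pt]
  rw [this]
  have h := (hasDeriv_x f hf (x + 0) p.2).differentiableAt
  exact h.comp (0:ℝ) (by fun_prop)

lemma diffY (f : Cyl → E) (hf : ContDiff ℝ 1 (lft f)) (p : Cyl) :
    DifferentiableAt ℝ (fun t : ℝ => f (p.1, p.2 + t)) 0 := by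
  obtain ⟨x, hx⟩ := pt_surj p
  rw [← hx]
  have : (fun t : ℝ => f ((pt x p.2).1, (pt x p.2).2 + t)) =
      fun t => (fun t => f (pt x t)) (p.2 + t) := by
    ext t; simp [pt]
  rw [this]
  have h := (hasDeriv_y f hf x (p.2 + 0)).differentiableAt
  exact h.comp (0:ℝ) (by fun_prop)

lemma dX_sum {ι : Type*} (s : Finset ι) (f : ι → Cyl → E) (hf : ∀ i, ContDiff ℝ 1 (lft (f i)))
    (p : Cyl) : dX (fun q => ∑ i ∈ s, f i q) p = ∑ i ∈ s, dX (f i) p := by
  unfold dX
  exact deriv_fun_sum (fun i _ => diffX (f i) (hf i) p)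

lemma dY_sum {ι : Type*} (s : Finset ι) (f : ι → Cyl → E) (hf : ∀ i, ContDiff ℝ 1 (lft (f i)))
    (p : Cyl) : dY (fun q => ∑ i ∈ s, f i q) p = ∑ i ∈ s, dY (f i) p := by
  unfold dY
  exact deriv_fun_sum (fun i _ => diffY (f i) (hf i) p)

lemma compact_dX (f : Cyl → E) (hs : HasCompactSupport f) : HasCompactSupport (dX f) :=
  HasCompactSupport.of_support_subset_isCompact hs (fun p hp => dX_ne f p hp)

lemma compact_dY (f : Cyl → E) (hs : HasCompactSupport f) : HasCompactSupport (dY f) :=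
  HasCompactSupport.of_support_subset_isCompact hs (fun p hp => dY_ne f p hp)

lemma integrable_sq_norm (f : Cyl → E) (hf : Continuous f) (hs : HasCompactSupport f) :
    Integrable (fun p => ‖f p‖ ^ 2) (volume : Measure Cyl) := by
  apply (hf.norm.pow 2).integrable_of_hasCompactSupport
  apply HasCompactSupport.of_support_subset_isCompact hs
  intro p hp
  apply subset_tsupport
  intro h
  apply hp
  show ‖f p‖ ^ 2 = 0
  rw [h, norm_zero]; simp

end

lemma integrable_sq (f : Cyl → ℝ) (hf : Continuous f) (hs : HasCompactSupport f) :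
    Integrable (fun p => f p ^ 2) (volume : Measure Cyl) := by
  have := integrable_sq_norm f hf hs
  simpa using this

lemma dX_cplx (u v : Cyl → ℝ) (hu : ContDiff ℝ 1 (lft u)) (hv : ContDiff ℝ 1 (lft v)) (p : Cyl) :
    dX (cplx u v) p = ((dX u p : ℝ) : ℂ) + ((dX v p : ℝ) : ℂ) * Complex.I := by
  have h1 := (diffX u hu p).hasDerivAt.ofReal_comp
  have h2 := ((diffX v hv p).hasDerivAt.ofReal_comp).mul_const Complex.I
  exact (h1.add h2).deriv

lemma dY_cplx (u v : Cyl → ℝ) (hu : ContDiff ℝ 1 (lft u)) (hv : ContDiff ℝ 1 (lft v)) (p : Cyl) :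
    dY (cplx u v) p = ((dY u p : ℝ) : ℂ) + ((dY v p : ℝ) : ℂ) * Complex.I := by
  have h1 := (diffY u hu p).hasDerivAt.ofReal_comp
  have h2 := ((diffY v hv p).hasDerivAt.ofReal_comp).mul_const Complex.I
  exact (h1.add h2).deriv

lemma compact_cplx (u v : Cyl → ℝ) (hu : HasCompactSupport u) (hv : HasCompactSupport v) :
    HasCompactSupport (cplx u v) := by
  apply HasCompactSupport.of_support_subset_isCompact (hu.isCompact.union hv.isCompact)
  intro p hp
  by_contra h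
  rw [mem_union, not_or] at h
  apply hp
  simp only [cplx]
  rw [image_eq_zero_of_notMem_tsupport h.1, image_eq_zero_of_notMem_tsupport h.2]
  simp

lemma tsupport_cplx (u v : Cyl → ℝ) (Ω : Set Cyl) (hu : tsupport u ⊆ Ω) (hv : tsupport v ⊆ Ω) :
    tsupport (cplx u v) ⊆ Ω := by
  have : tsupport (cplx u v) ⊆ tsupport u ∪ tsupport v := by
    apply closure_minimal _ ((isClosed_tsupport u).union (isClosed_tsupport v))
    intro p hp
    by_contra h
    rw [mem_union, not_or] at h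
    apply hp
    simp only [cplx]
    rw [image_eq_zero_of_notMem_tsupport h.1, image_eq_zero_of_notMem_tsupport h.2]
    simp
  exact this.trans (union_subset hu hv)

/-- the pieces. -/
noncomputable def piece (g : Motion) (u v : Cyl → ℝ) : Cyl → ℂ := fun p => cplx u v (g.imap p)

lemma mass_piece (g : Motion) (u v : Cyl → ℝ) {Ω : Set Cyl} (hu : IsTest Ω u) (hv : IsTest Ω v) :
    ∫ p, ‖piece g u v p‖ ^ 2 = mass u + mass v := by
  have h : ∀ p, ‖piece g u v p‖ ^ 2 = (fun p => u p ^ 2 + v p ^ 2) (g.imap p) := by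
    intro p; exact normSq_cplx _ _
  simp_rw [h]
  rw [g.integral_imap (fun p => u p ^ 2 + v p ^ 2)]
  exact integral_add (integrable_sq u (cont_f u (test_lft hu)) hu.2.1)
    (integrable_sq v (cont_f v (test_lft hv)) hv.2.1)

lemma energy_piece (g : Motion) (u v : Cyl → ℝ) {Ω : Set Cyl} (hu : IsTest Ω u)
    (hv : IsTest Ω v) :
    ∫ p, (‖dX (piece g u v) p‖ ^ 2 + ‖dY (piece g u v) p‖ ^ 2) = energy u + energy v := by
  have hcu := test_lft hu
  have hcv := test_lft hv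
  have h : ∀ p, ‖dX (piece g u v) p‖ ^ 2 + ‖dY (piece g u v) p‖ ^ 2 =
      (fun p => (dX u p ^ 2 + dY u p ^ 2) + (dX v p ^ 2 + dY v p ^ 2)) (g.imap p) := by
    intro p
    unfold piece
    rw [g.dX_imap (cplx u v), g.dY_imap (cplx u v), norm_smul, norm_smul, mul_pow, mul_pow,
      Real.norm_eq_abs, Real.norm_eq_abs, sq_abs, sq_abs, unit_sq, unit_sq,
      dX_cplx u v hcu hcv, dY_cplx u v hcu hcv, normSq_cplx, normSq_cplx]
    ring
  simp_rw [h]
  rw [g.integral_imap (fun p => (dX u p ^ 2 + dY u p ^ 2) + (dX v p ^ 2 + dY v p ^ 2))]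
  exact integral_add
    ((integrable_sq _ (cont_dX u hcu) (compact_dX u hu.2.1)).add
      (integrable_sq _ (cont_dY u hcu) (compact_dY u hu.2.1)))
    ((integrable_sq _ (cont_dX v hcv) (compact_dX v hv.2.1)).add
      (integrable_sq _ (cont_dY v hcv) (compact_dY v hv.2.1)))

lemma piece_lft (g : Motion) (u v : Cyl → ℝ) {Ω : Set Cyl} (hu : IsTest Ω u) (hv : IsTest Ω v) :
    ContDiff ℝ 1 (lft (piece g u v)) :=
  g.lft_imap _ (cplx_lft u v (test_lft hu) (test_lft hv))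

lemma piece_compact (g : Motion) (u v : Cyl → ℝ) {Ω : Set Cyl} (hu : IsTest Ω u)
    (hv : IsTest Ω v) : HasCompactSupport (piece g u v) :=
  g.compact_imap _ (compact_cplx u v hu.2.1 hv.2.1)

lemma piece_ne (g : Motion) (u v : Cyl → ℝ) {Ω : Set Cyl} (hu : IsTest Ω u) (hv : IsTest Ω v)
    (p : Cyl) (h : piece g u v p ≠ 0) : p ∈ g.map '' Ω :=
  ⟨g.imap p, tsupport_cplx u v Ω hu.2.2 hv.2.2 (subset_tsupport _ h), g.map_imap p⟩

lemma piece_dX_ne (g : Motion) (u v : Cyl → ℝ) {Ω : Set Cyl} (hu : IsTest Ω u) (hv : IsTest Ω v)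
    (p : Cyl) (h : dX (piece g u v) p ≠ 0) : p ∈ g.map '' Ω := by
  refine ⟨g.imap p, tsupport_cplx u v Ω hu.2.2 hv.2.2 (dX_ne _ _ ?_), g.map_imap p⟩
  intro h0
  apply h
  unfold piece
  rw [g.dX_imap (cplx u v), h0, smul_zero]

lemma piece_dY_ne (g : Motion) (u v : Cyl → ℝ) {Ω : Set Cyl} (hu : IsTest Ω u) (hv : IsTest Ω v)
    (p : Cyl) (h : dY (piece g u v) p ≠ 0) : p ∈ g.map '' Ω := by
  refine ⟨g.imap p, tsupport_cplx u v Ω hu.2.2 hv.2.2 (dY_ne _ _ ?_), g.map_imap p⟩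
  intro h0
  apply h
  unfold piece
  rw [g.dY_imap (cplx u v), h0, smul_zero]

/-- the character on the cylinder. -/
noncomputable def chr (n : ℤ) (ξ : ℝ) (p : Cyl) : ℂ := fourier (-n) p.1 * ph ξ p.2

lemma chr_continuous (n : ℤ) (ξ : ℝ) : Continuous (chr n ξ) := by
  unfold chr
  exact ((fourier (-n)).continuous.comp continuous_fst).mul ((ph_continuous ξ).comp continuous_snd)

lemma chr_pt (n : ℤ) (ξ x y : ℝ) : chr n ξ (pt x y) = ph n x * ph ξ y := by
  unfold chr pt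
  congr 1
  rw [fourier_coe_apply]
  unfold ph
  congr 1
  have : (Real.pi : ℂ) ≠ 0 := by exact_mod_cast Real.pi_ne_zero
  push_cast; field_simp

section counting
variable {N : ℕ} (g : Fin N → Motion) (L : Submodule ℝ (Cyl → ℝ))

/-- the superposition of the transplanted functions. -/
noncomputable def Uf (w : Fin N → L × L) (p : Cyl) : ℂ :=
  ∑ i, piece (g i) ((w i).1 : Cyl → ℝ) ((w i).2 : Cyl → ℝ) p

variable {Ω : Set Cyl} (hL : ∀ u ∈ L, IsTest Ω u)
include hL

lemma Uf_lft (w : Fin N → L × L) : ContDiff ℝ 1 (lft (Uf g L w)) := by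
  have : lft (Uf g L w) = fun q => ∑ i, lft (piece (g i) ((w i).1 : Cyl → ℝ) ((w i).2 : Cyl → ℝ)) q := rfl
  rw [this]
  apply ContDiff.sum
  intro i _
  exact piece_lft (g i) _ _ (hL _ (w i).1.2) (hL _ (w i).2.2)

lemma Uf_supp (w : Fin N → L × L) : ∃ K : Set Cyl, IsCompact K ∧
    ∀ i, tsupport (piece (g i) ((w i).1 : Cyl → ℝ) ((w i).2 : Cyl → ℝ)) ⊆ K := by
  refine ⟨⋃ i, tsupport (piece (g i) ((w i).1 : Cyl → ℝ) ((w i).2 : Cyl → ℝ)), ?_, ?_⟩
  · apply isCompact_iUnion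
    intro i
    exact piece_compact (g i) _ _ (hL _ (w i).1.2) (hL _ (w i).2.2)
  · intro i; exact subset_iUnion (fun i => tsupport (piece (g i) ((w i).1 : Cyl → ℝ)
      ((w i).2 : Cyl → ℝ))) i

lemma Uf_compact (w : Fin N → L × L) : HasCompactSupport (Uf g L w) := by
  obtain ⟨K, hK, hsub⟩ := Uf_supp g L hL w
  apply HasCompactSupport.of_support_subset_isCompact hK
  intro p hp
  by_contra h
  apply hp
  unfold Uf
  apply Finset.sum_eq_zero
  intro i _
  exact image_eq_zero_of_notMem_tsupport (fun h' => h (hsub i h'))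

lemma Uf_dX (w : Fin N → L × L) (p : Cyl) :
    dX (Uf g L w) p = ∑ i, dX (piece (g i) ((w i).1 : Cyl → ℝ) ((w i).2 : Cyl → ℝ)) p :=
  dX_sum Finset.univ (fun i => piece (g i) ((w i).1 : Cyl → ℝ) ((w i).2 : Cyl → ℝ))
    (fun i => piece_lft (g i) _ _ (hL _ (w i).1.2) (hL _ (w i).2.2)) p

lemma Uf_dY (w : Fin N → L × L) (p : Cyl) :
    dY (Uf g L w) p = ∑ i, dY (piece (g i) ((w i).1 : Cyl → ℝ) ((w i).2 : Cyl → ℝ)) p :=
  dY_sum Finset.univ (fun i => piece (g i) ((w i).1 : Cyl → ℝ) ((w i).2 : Cyl → ℝ))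
    (fun i => piece_lft (g i) _ _ (hL _ (w i).1.2) (hL _ (w i).2.2)) p

lemma Uf_mass (hdis : ∀ i i' : Fin N, i ≠ i' → Disjoint ((g i).map '' Ω) ((g i').map '' Ω))
    (w : Fin N → L × L) : ∫ p, ‖Uf g L w p‖ ^ 2 =
      ∑ i, (mass ((w i).1 : Cyl → ℝ) + mass ((w i).2 : Cyl → ℝ)) := by
  have h : ∀ p, ‖Uf g L w p‖ ^ 2 =
      ∑ i, ‖piece (g i) ((w i).1 : Cyl → ℝ) ((w i).2 : Cyl → ℝ) p‖ ^ 2 := by
    intro p
    apply norm_sq_sum_of_disjoint
    intro i _ j _ hij
    by_contra hcon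
    rw [not_or] at hcon
    exact disjoint_left.mp (hdis i j hij)
      (piece_ne (g i) _ _ (hL _ (w i).1.2) (hL _ (w i).2.2) p hcon.1)
      (piece_ne (g j) _ _ (hL _ (w j).1.2) (hL _ (w j).2.2) p hcon.2)
  simp_rw [h]
  rw [integral_finsetSum]
  · apply Finset.sum_congr rfl
    intro i _
    exact mass_piece (g i) _ _ (hL _ (w i).1.2) (hL _ (w i).2.2)
  · intro i _
    exact integrable_sq_norm _ (cont_f _ (piece_lft (g i) _ _ (hL _ (w i).1.2) (hL _ (w i).2.2)))
      (piece_compact (g i) _ _ (hL _ (w i).1.2) (hL _ (w i).2.2))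

lemma Uf_energy (hdis : ∀ i i' : Fin N, i ≠ i' → Disjoint ((g i).map '' Ω) ((g i').map '' Ω))
    (w : Fin N → L × L) : ∫ p, (‖dX (Uf g L w) p‖ ^ 2 + ‖dY (Uf g L w) p‖ ^ 2) =
      ∑ i, (energy ((w i).1 : Cyl → ℝ) + energy ((w i).2 : Cyl → ℝ)) := by
  have h : ∀ p, ‖dX (Uf g L w) p‖ ^ 2 + ‖dY (Uf g L w) p‖ ^ 2 =
      ∑ i, (‖dX (piece (g i) ((w i).1 : Cyl → ℝ) ((w i).2 : Cyl → ℝ)) p‖ ^ 2 +
        ‖dY (piece (g i) ((w i).1 : Cyl → ℝ) ((w i).2 : Cyl → ℝ)) p‖ ^ 2) := by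
    intro p
    rw [Uf_dX g L hL, Uf_dY g L hL, Finset.sum_add_distrib]
    congr 1
    · apply norm_sq_sum_of_disjoint
      intro i _ j _ hij
      by_contra hcon
      rw [not_or] at hcon
      exact disjoint_left.mp (hdis i j hij)
        (piece_dX_ne (g i) _ _ (hL _ (w i).1.2) (hL _ (w i).2.2) p hcon.1)
        (piece_dX_ne (g j) _ _ (hL _ (w j).1.2) (hL _ (w j).2.2) p hcon.2)
    · apply norm_sq_sum_of_disjoint
      intro i _ j _ hij
      by_contra hcon
      rw [not_or] at hcon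
      exact disjoint_left.mp (hdis i j hij)
        (piece_dY_ne (g i) _ _ (hL _ (w i).1.2) (hL _ (w i).2.2) p hcon.1)
        (piece_dY_ne (g j) _ _ (hL _ (w j).1.2) (hL _ (w j).2.2) p hcon.2)
  simp_rw [h]
  rw [integral_finsetSum]
  · apply Finset.sum_congr rfl
    intro i _
    exact energy_piece (g i) _ _ (hL _ (w i).1.2) (hL _ (w i).2.2)
  · intro i _
    have hl := piece_lft (g i) _ _ (hL _ (w i).1.2) (hL _ (w i).2.2)
    have hc := piece_compact (g i) _ _ (hL _ (w i).1.2) (hL _ (w i).2.2)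
    exact (integrable_sq_norm _ (cont_dX _ hl) (compact_dX _ hc)).add
      (integrable_sq_norm _ (cont_dY _ hl) (compact_dY _ hc))

/-- the Fourier coefficients as a linear map. -/
noncomputable def Lam (S : Finset (ℤ × ℤ)) (ζ : ℤ × ℤ → ℝ) :
    (Fin N → L × L) →ₗ[ℝ] (S → ℂ) where
  toFun w := fun s => ∫ p, chr s.1.1 (ζ s.1) p * Uf g L w p
  map_add' := by
    intro w w'
    ext s
    have h : ∀ p, chr s.1.1 (ζ s.1) p * Uf g L (w + w') p =
        chr s.1.1 (ζ s.1) p * Uf g L w p + chr s.1.1 (ζ s.1) p * Uf g L w' p := by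
      intro p
      rw [← mul_add]
      congr 1
      unfold Uf
      rw [← Finset.sum_add_distrib]
      apply Finset.sum_congr rfl
      intro i _
      simp only [piece, cplx, Pi.add_apply, Prod.fst_add, Prod.snd_add, Submodule.coe_add]
      push_cast; ring
    have hi : ∀ w, Integrable (fun p => chr s.1.1 (ζ s.1) p * Uf g L w p) (volume : Measure Cyl) := by
      intro w
      apply Continuous.integrable_of_hasCompactSupport
      · exact (chr_continuous _ _).mul (cont_f _ (Uf_lft g L hL w))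
      · exact (Uf_compact g L hL w).mul_left
    simp_rw [h]
    exact integral_add (hi w) (hi w')
  map_smul' := by
    intro c w
    ext s
    have h : ∀ p, chr s.1.1 (ζ s.1) p * Uf g L (c • w) p =
        (c : ℂ) * (chr s.1.1 (ζ s.1) p * Uf g L w p) := by
      intro p
      rw [mul_left_comm]
      congr 1
      unfold Uf
      rw [Finset.mul_sum]
      apply Finset.sum_congr rfl
      intro i _
      simp only [piece, cplx, Pi.smul_apply, Prod.smul_fst, Prod.smul_snd, Submodule.coe_smul,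
        smul_eq_mul]
      push_cast; ring
    simp_rw [h]
    rw [integral_const_mul]
    simp

end counting

end Pool.Agent.Work.MP_33c50c_an
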