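import Mathlib

namespace Pool.Agent.Work.MP_33c50c_an

open MeasureTheory intervalIntegral

/-- `Φ(t) = {t}(1-{t})`. -/
noncomputable def Phi (t : ℝ) : ℝ := Int.fract t * (1 - Int.fract t)

/-- the piecewise linear interpolation of `n ↦ n ^ 2`. -/
noncomputable def Psi (t : ℝ) : ℝ := t ^ 2 + Phi t

/-- the chord of `t ^ 2` over `[n, n+1]`. -/
noncomputable def lin (n : ℤ) (t : ℝ) : ℝ := (n : ℝ) ^ 2 + (2 * n + 1) * (t - n)

lemma Psi_eq_floor (t : ℝ) : Psi t = lin ⌊t⌋ t := by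
  have h := Int.floor_add_fract t
  have h2 : Int.fract t = t - ⌊t⌋ := rfl
  simp only [Psi, Phi, lin, h2]
  ring

lemma lin_le_Psi (n : ℤ) (t : ℝ) : lin n t ≤ Psi t := by
  rw [Psi_eq_floor]
  obtain ⟨k, hk⟩ : ∃ k : ℤ, ⌊t⌋ = n + k := ⟨⌊t⌋ - n, by ring⟩
  have h0 : (0:ℝ) ≤ t - ⌊t⌋ := by linarith [Int.floor_le t]
  have h1 : t - ⌊t⌋ ≤ 1 := by linarith [Int.lt_floor_add_one t]
  have hk' : ((⌊t⌋ : ℤ) : ℝ) = n + k := by rw [hk]; push_cast; ring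
  simp only [lin]
  set u := t - ⌊t⌋ with hu
  have ht : t = u + (n + k) := by rw [hu, hk']; ring
  have key : (((⌊t⌋ : ℤ) : ℝ)) ^ 2 + (2 * ((⌊t⌋ : ℤ) : ℝ) + 1) * (t - ((⌊t⌋ : ℤ) : ℝ)) -
      ((n:ℝ) ^ 2 + (2 * n + 1) * (t - n)) = (k:ℝ) * (k - 1 + 2 * u) := by
    rw [hk', ht]; ring
  have : 0 ≤ (k:ℝ) * (k - 1 + 2 * u) := by
    rcases lt_trichotomy k 0 with hk0 | hk0 | hk0
    · have : (k:ℝ) ≤ -1 := by exact_mod_cast Int.le_sub_one_of_lt hk0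
      nlinarith
    · subst hk0; simp
    · have : (1:ℝ) ≤ k := by exact_mod_cast hk0
      nlinarith
  rw [← hu] at key
  linarith

lemma Psi_le_lin (n : ℤ) (t : ℝ) (h1 : (n:ℝ) ≤ t) (h2 : t ≤ n + 1) : Psi t ≤ lin n t := by
  rw [Psi_eq_floor]
  rcases eq_or_lt_of_le h2 with h2 | h2
  · have : ⌊t⌋ = n + 1 := by rw [Int.floor_eq_iff]; push_cast; constructor <;> linarith
    rw [this]; simp only [lin]; push_cast; rw [h2]; linarith
  · have : ⌊t⌋ = n := by rw [Int.floor_eq_iff]; constructor <;> linarith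
    rw [this]

lemma Psi_eq_lin (n : ℤ) (t : ℝ) (h1 : (n:ℝ) ≤ t) (h2 : t ≤ n + 1) : Psi t = lin n t :=
  le_antisymm (Psi_le_lin n t h1 h2) (lin_le_Psi n t)

lemma Phi_continuous : Continuous Phi := by
  have h := ContinuousOn.comp_fract'' (f := fun x : ℝ => x * (1 - x)) (by fun_prop) (by norm_num)
  exact h

lemma Psi_continuous : Continuous Psi := by
  unfold Psi; exact (continuous_pow 2).add Phi_continuous

lemma Phi_add_one (t : ℝ) : Phi (t + 1) = Phi t := by simp [Phi]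

lemma Phi_add_int (t : ℝ) (n : ℤ) : Phi (t + n) = Phi t := by simp [Phi]

lemma Phi_nonneg (t : ℝ) : 0 ≤ Phi t :=
  mul_nonneg (Int.fract_nonneg t) (by linarith [(Int.fract_lt_one t).le])

lemma Phi_le (t : ℝ) : Phi t ≤ 1 / 4 := by
  unfold Phi; nlinarith [sq_nonneg (Int.fract t - 1 / 2)]

/-- The basic sawtooth inequality. -/
lemma sawtooth_le (x δ : ℝ) (hδ : 0 < δ) :
    2 * (⌈x⌉ : ℝ) - 1 ≤ 2 * x + δ + (Phi (x + δ) - Phi x) / δ := by
  have h1 := lin_le_Psi (⌈x⌉ - 1) (x + δ)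
  have hx1 : (((⌈x⌉ - 1 : ℤ)) : ℝ) ≤ x := by
    push_cast; linarith [Int.ceil_lt_add_one x]
  have hx2 : x ≤ (((⌈x⌉ - 1 : ℤ)) : ℝ) + 1 := by
    push_cast; linarith [Int.le_ceil x]
  have h2 := Psi_le_lin (⌈x⌉ - 1) x hx1 hx2
  have h3 : lin (⌈x⌉ - 1) (x + δ) - lin (⌈x⌉ - 1) x = (2 * (⌈x⌉ : ℝ) - 1) * δ := by
    simp only [lin]; push_cast; ring
  have h4 : (2 * (⌈x⌉ : ℝ) - 1) * δ ≤ Psi (x + δ) - Psi x := by linarith
  have h5 : Psi (x + δ) - Psi x = (2 * x + δ) * δ + (Phi (x + δ) - Phi x) := by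
    simp only [Psi]; ring
  have h6 : (2 * (⌈x⌉ : ℝ) - 1) ≤ ((2 * x + δ) * δ + (Phi (x + δ) - Phi x)) / δ := by
    rw [le_div_iff₀ hδ]; linarith
  have h7 : ((2 * x + δ) * δ + (Phi (x + δ) - Phi x)) / δ =
      2 * x + δ + (Phi (x + δ) - Phi x) / δ := by field_simp
  linarith

/-- The periodic tent of width `ρ`. -/
noncomputable def tent (ρ x : ℝ) : ℝ :=
  1 + (Phi (x + ρ) + Phi (x - ρ) - 2 * Phi x) / (2 * ρ ^ 2)

lemma tent_continuous (ρ : ℝ) : Continuous (tent ρ) := by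
  unfold tent
  have := Phi_continuous
  have h1 : Continuous fun x : ℝ => Phi (x + ρ) := this.comp (by fun_prop)
  have h2 : Continuous fun x : ℝ => Phi (x - ρ) := this.comp (by fun_prop)
  fun_prop

lemma tent_nonneg (ρ x : ℝ) (hρ : 0 < ρ) : 0 ≤ tent ρ x := by
  have h1 := lin_le_Psi ⌊x⌋ (x + ρ)
  have h2 := lin_le_Psi ⌊x⌋ (x - ρ)
  have h3 := Psi_eq_floor x
  have h4 : lin ⌊x⌋ (x + ρ) + lin ⌊x⌋ (x - ρ) = 2 * lin ⌊x⌋ x := by simp only [lin]; ring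
  have h5 : Psi (x + ρ) + Psi (x - ρ) - 2 * Psi x =
      2 * ρ ^ 2 + (Phi (x + ρ) + Phi (x - ρ) - 2 * Phi x) := by simp only [Psi]; ring
  have h6 : 0 ≤ 2 * ρ ^ 2 + (Phi (x + ρ) + Phi (x - ρ) - 2 * Phi x) := by linarith
  have h7 : tent ρ x = (2 * ρ ^ 2 + (Phi (x + ρ) + Phi (x - ρ) - 2 * Phi x)) / (2 * ρ ^ 2) := by
    unfold tent; field_simp
  rw [h7]; positivity

lemma tent_eq_zero (ρ x : ℝ) (hρ : 0 < ρ) (h1 : (⌊x⌋ : ℝ) + ρ ≤ x) (h2 : x + ρ ≤ ⌊x⌋ + 1) :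
    tent ρ x = 0 := by
  have e1 := Psi_eq_lin ⌊x⌋ (x + ρ) (by linarith) h2
  have e2 := Psi_eq_lin ⌊x⌋ (x - ρ) (by linarith) (by linarith)
  have e3 := Psi_eq_floor x
  have h4 : lin ⌊x⌋ (x + ρ) + lin ⌊x⌋ (x - ρ) = 2 * lin ⌊x⌋ x := by simp only [lin]; ring
  have h5 : Psi (x + ρ) + Psi (x - ρ) - 2 * Psi x =
      2 * ρ ^ 2 + (Phi (x + ρ) + Phi (x - ρ) - 2 * Phi x) := by simp only [Psi]; ring
  have h6 : 2 * ρ ^ 2 + (Phi (x + ρ) + Phi (x - ρ) - 2 * Phi x) = 0 := by linarith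
  have h7 : tent ρ x = (2 * ρ ^ 2 + (Phi (x + ρ) + Phi (x - ρ) - 2 * Phi x)) / (2 * ρ ^ 2) := by
    unfold tent; field_simp
  rw [h7, h6]; simp

lemma tent_le (ρ x : ℝ) (hρ : 0 < ρ) : tent ρ x ≤ 1 + 1 / (4 * ρ ^ 2) := by
  unfold tent
  have h1 := Phi_le (x + ρ)
  have h2 := Phi_le (x - ρ)
  have h3 := Phi_nonneg x
  have : (Phi (x + ρ) + Phi (x - ρ) - 2 * Phi x) / (2 * ρ ^ 2) ≤ (1 / 2) / (2 * ρ ^ 2) :=
    div_le_div_of_nonneg_right (by linarith) (by positivity)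
  have e : (1 / 2 : ℝ) / (2 * ρ ^ 2) = 1 / (4 * ρ ^ 2) := by ring
  linarith

lemma tent_add_one (ρ x : ℝ) : tent ρ (x + 1) = tent ρ x := by
  unfold tent
  have h1 : x + 1 + ρ = (x + ρ) + 1 := by ring
  have h2 : x + 1 - ρ = (x - ρ) + 1 := by ring
  rw [h1, h2, Phi_add_one, Phi_add_one, Phi_add_one]

lemma integral_Phi_shift (c : ℝ) : ∫ x in (0:ℝ)..1, Phi (x + c) = ∫ x in (0:ℝ)..1, Phi x := by
  rw [intervalIntegral.integral_comp_add_right]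
  have hp : Function.Periodic Phi 1 := Phi_add_one
  have := hp.intervalIntegral_add_eq (0 + c) 0
  rw [show (1:ℝ) + c = 0 + c + 1 by ring, this]; simp

lemma integral_tent_shift (ρ c : ℝ) (hρ : 0 < ρ) : ∫ x in (0:ℝ)..1, tent ρ (x - c) = 1 := by
  have hc := Phi_continuous
  have i1 : IntervalIntegrable (fun x : ℝ => Phi (x + (-c + ρ))) volume 0 1 :=
    (hc.comp (by fun_prop)).intervalIntegrable _ _
  have i2 : IntervalIntegrable (fun x : ℝ => Phi (x + (-c - ρ))) volume 0 1 :=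
    (hc.comp (by fun_prop)).intervalIntegrable _ _
  have i3 : IntervalIntegrable (fun x : ℝ => Phi (x + (-c))) volume 0 1 :=
    (hc.comp (by fun_prop)).intervalIntegrable _ _
  have e : ∀ x : ℝ, tent ρ (x - c) = 1 + (Phi (x + (-c + ρ)) + Phi (x + (-c - ρ)) -
      2 * Phi (x + (-c))) / (2 * ρ ^ 2) := by
    intro x; unfold tent
    rw [show x - c + ρ = x + (-c + ρ) by ring, show x - c - ρ = x + (-c - ρ) by ring,
      show x - c = x + (-c) by ring]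
  simp_rw [e]
  rw [intervalIntegral.integral_add (by simp)
    (((i1.add i2).sub (i3.const_mul 2)).div_const _),
    intervalIntegral.integral_div, intervalIntegral.integral_sub (i1.add i2) (i3.const_mul 2),
    intervalIntegral.integral_add i1 i2, intervalIntegral.integral_const_mul,
    integral_Phi_shift, integral_Phi_shift, integral_Phi_shift]
  simp; ring_nf; simp

end Pool.Agent.Work.MP_33c50c_an
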