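import Mathlib

namespace Pool.Agent.Work.MP_33c50c_an

open MeasureTheory intervalIntegral Set

/-- Second derivative test of van der Corput. -/
lemma vdc (f f1 f2 : ℝ → ℝ) (a b lam : ℝ) (hab : a ≤ b) (hlam : 0 < lam)
    (h1 : ∀ x ∈ Icc a b, HasDerivAt f (f1 x) x)
    (h2 : ∀ x ∈ Icc a b, HasDerivAt f1 (f2 x) x)
    (hc : ContinuousOn f2 (Icc a b))
    (hl : ∀ x ∈ Icc a b, lam ≤ f2 x) :
    ‖∫ x in a..b, Complex.exp (Complex.I * (f x : ℂ))‖ ≤ (2 * Real.pi + 1) / Real.sqrt lam := by
  set c := Real.sqrt lam with hcdef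
  have hcpos : 0 < c := Real.sqrt_pos.mpr hlam
  have hcsq : c ^ 2 = lam := Real.sq_sqrt hlam.le
  have hcf : ContinuousOn f (Icc a b) := fun x hx => (h1 x hx).continuousAt.continuousWithinAt
  have hcf1 : ContinuousOn f1 (Icc a b) := fun x hx => (h2 x hx).continuousAt.continuousWithinAt
  have hden : ∀ x, 0 < c ^ 2 + f1 x ^ 2 := fun x => by positivity
  set r : ℝ → ℝ := fun x => f1 x / (c ^ 2 + f1 x ^ 2) with hr
  set r1 : ℝ → ℝ := fun x => f2 x * (c ^ 2 - f1 x ^ 2) / (c ^ 2 + f1 x ^ 2) ^ 2 with hr1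
  have hrd : ∀ x ∈ Icc a b, HasDerivAt r (r1 x) x := by
    intro x hx
    have hd : HasDerivAt (fun y => c ^ 2 + f1 y ^ 2) (2 * f1 x * f2 x) x := by
      have := ((h2 x hx).pow 2).const_add (c ^ 2)
      refine this.congr_deriv ?_
      simp
    have := (h2 x hx).div hd (hden x).ne'
    refine this.congr_deriv ?_
    show _ = f2 x * (c ^ 2 - f1 x ^ 2) / (c ^ 2 + f1 x ^ 2) ^ 2
    congr 1; ring
  set E : ℝ → ℂ := fun x => Complex.exp (Complex.I * (f x : ℂ)) with hE
  have hEn : ∀ x, ‖E x‖ = 1 := by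
    intro x; simp only [hE]; rw [mul_comm]; exact Complex.norm_exp_ofReal_mul_I _
  have hEd : ∀ x ∈ Icc a b, HasDerivAt E (E x * (Complex.I * (f1 x : ℂ))) x := by
    intro x hx
    have := ((h1 x hx).ofReal_comp.const_mul Complex.I).cexp
    exact this
  set A : ℝ → ℂ := fun x => -Complex.I * (r x : ℂ) * E x with hA
  set B : ℝ → ℂ := fun x => E x * ((((c ^ 2 / (c ^ 2 + f1 x ^ 2) : ℝ)) : ℂ) + Complex.I * (r1 x : ℂ))
    with hB
  have hAd : ∀ x ∈ Icc a b, HasDerivAt A (E x - B x) x := by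
    intro x hx
    have h := (((hrd x hx).ofReal_comp.const_mul (-Complex.I)).mul (hEd x hx))
    refine h.congr_deriv ?_
    have e : ((c ^ 2 / (c ^ 2 + f1 x ^ 2) : ℝ)) = 1 - r x * f1 x := by
      show _ = 1 - f1 x / (c ^ 2 + f1 x ^ 2) * f1 x
      have := (hden x).ne'; field_simp; ring
    show _ = E x - E x * ((((c ^ 2 / (c ^ 2 + f1 x ^ 2) : ℝ)) : ℂ) + Complex.I * (r1 x : ℂ))
    rw [e]; push_cast
    linear_combination (E x) * (r x : ℂ) * (f1 x : ℂ) * (-(Complex.I_sq) )
  have hcE : ContinuousOn E (Icc a b) := fun x hx => (hEd x hx).continuousAt.continuousWithinAt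
  have hcr1 : ContinuousOn r1 (Icc a b) := by
    apply ContinuousOn.div
    · exact hc.mul (continuousOn_const.sub (hcf1.pow 2))
    · exact (continuousOn_const.add (hcf1.pow 2)).pow 2
    · intro x _; exact (pow_pos (hden x) 2).ne'
  have hcg : ContinuousOn (fun x => c ^ 2 / (c ^ 2 + f1 x ^ 2)) (Icc a b) := by
    apply ContinuousOn.div continuousOn_const (continuousOn_const.add (hcf1.pow 2))
    intro x _; exact (hden x).ne'
  have hcB : ContinuousOn B (Icc a b) := by
    apply hcE.mul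
    apply ContinuousOn.add
    · exact Complex.continuous_ofReal.comp_continuousOn hcg
    · exact continuousOn_const.mul (Complex.continuous_ofReal.comp_continuousOn hcr1)
  have hu : uIcc a b = Icc a b := uIcc_of_le hab
  have iE : IntervalIntegrable E volume a b := by
    apply ContinuousOn.intervalIntegrable; rwa [hu]
  have iB : IntervalIntegrable B volume a b := by
    apply ContinuousOn.intervalIntegrable; rwa [hu]
  have hftc : ∫ x in a..b, (E x - B x) = A b - A a := by
    apply intervalIntegral.integral_eq_sub_of_hasDerivAt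
    · intro x hx; rw [hu] at hx; exact hAd x hx
    · exact iE.sub iB
  have hmain : ∫ x in a..b, E x = (A b - A a) + ∫ x in a..b, B x := by
    rw [← hftc, intervalIntegral.integral_sub iE iB]; ring
  have hAn : ∀ x, ‖A x‖ ≤ 1 / (2 * c) := by
    intro x
    simp only [hA, norm_mul, norm_neg, Complex.norm_I, one_mul, hEn, mul_one, Complex.norm_real,
      Real.norm_eq_abs]
    simp only [hr]
    rw [abs_div, abs_of_pos (hden x), div_le_div_iff₀ (hden x) (by positivity)]
    nlinarith [sq_nonneg (c - |f1 x|), sq_abs (f1 x)]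
  have hBn : ∀ x ∈ Icc a b, ‖B x‖ ≤ 2 / c * (c * f2 x / (c ^ 2 + f1 x ^ 2)) := by
    intro x hx
    have hf2 : 0 ≤ f2 x := hlam.le.trans (hl x hx)
    simp only [hB, norm_mul, hEn, one_mul]
    refine (norm_add_le _ _).trans ?_
    simp only [norm_mul, Complex.norm_I, one_mul, Complex.norm_real, Real.norm_eq_abs]
    have e1 : |c ^ 2 / (c ^ 2 + f1 x ^ 2)| ≤ f2 x / (c ^ 2 + f1 x ^ 2) := by
      rw [abs_of_nonneg (by have := hden x; positivity)]
      exact div_le_div_of_nonneg_right (by rw [hcsq]; exact hl x hx) (hden x).le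
    have e2 : |r1 x| ≤ f2 x / (c ^ 2 + f1 x ^ 2) := by
      simp only [hr1]
      rw [abs_div, abs_mul, abs_of_nonneg hf2, abs_of_pos (pow_pos (hden x) 2),
        div_le_div_iff₀ (pow_pos (hden x) 2) (hden x)]
      have : |c ^ 2 - f1 x ^ 2| ≤ c ^ 2 + f1 x ^ 2 := by
        rw [abs_le]; constructor <;> nlinarith [sq_nonneg c, sq_nonneg (f1 x)]
      have h3 := mul_le_mul_of_nonneg_left this hf2
      have h4 := mul_le_mul_of_nonneg_right h3 (hden x).le
      calc f2 x * |c ^ 2 - f1 x ^ 2| * (c ^ 2 + f1 x ^ 2) ≤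
          f2 x * (c ^ 2 + f1 x ^ 2) * (c ^ 2 + f1 x ^ 2) := h4
        _ = f2 x * (c ^ 2 + f1 x ^ 2) ^ 2 := by ring
    have e3 : 2 / c * (c * f2 x / (c ^ 2 + f1 x ^ 2)) = 2 * (f2 x / (c ^ 2 + f1 x ^ 2)) := by
      field_simp
    rw [e3]; linarith
  have hat : ∀ x ∈ Icc a b, HasDerivAt (fun y => 2 / c * Real.arctan (f1 y / c))
      (2 / c * (c * f2 x / (c ^ 2 + f1 x ^ 2))) x := by
    intro x hx
    have := (((h2 x hx).div_const c).arctan).const_mul (2 / c)
    refine this.congr_deriv ?_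
    have h9 := (hden x).ne'
    have h10 : (1 + (f1 x / c) ^ 2) ≠ 0 := by positivity
    have h11 : 1 / (1 + (f1 x / c) ^ 2) = c ^ 2 / (c ^ 2 + f1 x ^ 2) := by
      field_simp
    rw [h11]; field_simp
  have hcgi : ContinuousOn (fun x => 2 / c * (c * f2 x / (c ^ 2 + f1 x ^ 2))) (Icc a b) := by
    apply continuousOn_const.mul
    apply ContinuousOn.div (continuousOn_const.mul hc) (continuousOn_const.add (hcf1.pow 2))
    intro x _; exact (hden x).ne'
  have ig : IntervalIntegrable (fun x => 2 / c * (c * f2 x / (c ^ 2 + f1 x ^ 2))) volume a b := by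
    apply ContinuousOn.intervalIntegrable; rwa [hu]
  have hBi : ‖∫ x in a..b, B x‖ ≤ 2 / c * Real.pi := by
    have h1 : ‖∫ x in a..b, B x‖ ≤ ∫ x in a..b, 2 / c * (c * f2 x / (c ^ 2 + f1 x ^ 2)) := by
      apply intervalIntegral.norm_integral_le_of_norm_le hab _ ig
      filter_upwards with x hx
      exact hBn x ⟨hx.1.le, hx.2⟩
    have h2 : ∫ x in a..b, 2 / c * (c * f2 x / (c ^ 2 + f1 x ^ 2)) =
        2 / c * Real.arctan (f1 b / c) - 2 / c * Real.arctan (f1 a / c) := by
      apply intervalIntegral.integral_eq_sub_of_hasDerivAt _ ig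
      intro x hx; rw [hu] at hx; exact hat x hx
    rw [h2] at h1
    have h3 := Real.arctan_lt_pi_div_two (f1 b / c)
    have h4 := Real.neg_pi_div_two_lt_arctan (f1 a / c)
    have h5 : 2 / c * Real.arctan (f1 b / c) - 2 / c * Real.arctan (f1 a / c) ≤ 2 / c * Real.pi := by
      rw [← mul_sub]; exact mul_le_mul_of_nonneg_left (by linarith) (by positivity)
    linarith
  rw [hmain]
  refine (norm_add_le _ _).trans ?_
  have h6 := norm_sub_le (A b) (A a)
  have h7 := hAn a
  have h8 := hAn b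
  have e : (2 * Real.pi + 1) / c = 1 / (2 * c) + 1 / (2 * c) + 2 / c * Real.pi := by
    field_simp; ring
  rw [e]; linarith

/-- half chord length of the disc of radius `M` at distance `t` from the top. -/
noncomputable def qf (M t : ℝ) : ℝ := Real.sqrt (t * (2 * M - t))

lemma qf_continuous (M : ℝ) : Continuous (qf M) := by unfold qf; fun_prop

lemma qf_nonneg (M t : ℝ) : 0 ≤ qf M t := Real.sqrt_nonneg _

lemma qf_le (M t : ℝ) (hM : 0 ≤ M) : qf M t ≤ M := by
  unfold qf
  rw [Real.sqrt_le_left hM]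
  nlinarith [sq_nonneg (M - t)]

lemma qf_pos (M t : ℝ) (h1 : 0 < t) (h2 : t < 2 * M) : 0 < qf M t := by
  unfold qf; exact Real.sqrt_pos.mpr (mul_pos h1 (by linarith))

lemma qf_sq (M t : ℝ) (h1 : 0 ≤ t) (h2 : t ≤ 2 * M) : qf M t ^ 2 = t * (2 * M - t) := by
  unfold qf; exact Real.sq_sqrt (mul_nonneg h1 (by linarith))

lemma qf_hasDeriv (M t : ℝ) (h1 : 0 < t) (h2 : t < 2 * M) :
    HasDerivAt (qf M) ((M - t) / qf M t) t := by
  have hd : HasDerivAt (fun x : ℝ => x * (2 * M - x)) (2 * (M - t)) t := by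
    have := (hasDerivAt_id t).mul ((hasDerivAt_id t).const_sub (2 * M))
    refine this.congr_deriv ?_
    simp only [id]; ring
  have hp : t * (2 * M - t) ≠ 0 := (mul_pos h1 (by linarith)).ne'
  have := hd.sqrt hp
  have hq := (qf_pos M t h1 h2).ne'
  refine this.congr_deriv ?_
  show 2 * (M - t) / (2 * qf M t) = (M - t) / qf M t
  field_simp

lemma qf_hasDeriv2 (M t : ℝ) (h1 : 0 < t) (h2 : t < 2 * M) :
    HasDerivAt (fun x => (M - x) / qf M x) (-(M ^ 2 / qf M t ^ 3)) t := by
  have hq := (qf_pos M t h1 h2).ne'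
  have := ((hasDerivAt_id t).const_sub M).div (qf_hasDeriv M t h1 h2) hq
  refine this.congr_deriv ?_
  have h3 := qf_sq M t h1.le h2.le
  simp only [id]
  have h4 : -(M ^ 2 / qf M t ^ 3) = -(M ^ 2) / (qf M t ^ 2 * qf M t) := by
    rw [neg_div]; congr 2
  rw [h4]
  have h5 : (-1 * qf M t - (M - t) * ((M - t) / qf M t)) / qf M t ^ 2 =
      (-1 * qf M t ^ 2 - (M - t) ^ 2) / (qf M t ^ 2 * qf M t) := by
    field_simp
  rw [h5, h3]; congr 1; ring

/-- oscillatory integral over the whole disc, uniformly in the linear phase. -/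
lemma osc_exp (M a b : ℝ) (hM : 0 < M) (hb : 0 < b) :
    ‖∫ t in (0:ℝ)..(2 * M), Complex.exp (Complex.I * ((a * t - b * qf M t : ℝ) : ℂ))‖ ≤
      (2 * Real.pi + 1) / Real.sqrt (b / M) := by
  apply le_of_forall_pos_le_add
  intro η hη
  set ε := min (η / 2) (M / 2) with hε
  have hε0 : 0 < ε := by positivity
  have hε1 : ε ≤ η / 2 := min_le_left _ _
  have hε2 : ε ≤ M / 2 := min_le_right _ _
  set F : ℝ → ℂ := fun t => Complex.exp (Complex.I * ((a * t - b * qf M t : ℝ) : ℂ)) with hF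
  have hFc : Continuous F := by
    have := qf_continuous M
    simp only [hF]; fun_prop
  have hFn : ∀ x, ‖F x‖ = 1 := by
    intro x; simp only [hF]; rw [mul_comm]; exact Complex.norm_exp_ofReal_mul_I _
  have hi : ∀ x y : ℝ, IntervalIntegrable F volume x y := fun x y => hFc.intervalIntegrable x y
  have hsplit : ∫ t in (0:ℝ)..(2 * M), F t = (∫ t in (0:ℝ)..ε, F t) +
      (∫ t in ε..(2 * M - ε), F t) + ∫ t in (2 * M - ε)..(2 * M), F t := by
    rw [intervalIntegral.integral_add_adjacent_intervals (hi _ _) (hi _ _),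
      intervalIntegral.integral_add_adjacent_intervals (hi _ _) (hi _ _)]
  have hend1 : ‖∫ t in (0:ℝ)..ε, F t‖ ≤ ε := by
    have := intervalIntegral.norm_integral_le_of_norm_le_const (a := 0) (b := ε) (f := F) (C := 1)
      (fun x _ => (hFn x).le)
    simpa [abs_of_pos hε0] using this
  have hend2 : ‖∫ t in (2 * M - ε)..(2 * M), F t‖ ≤ ε := by
    have := intervalIntegral.norm_integral_le_of_norm_le_const (a := 2 * M - ε) (b := 2 * M)
      (f := F) (C := 1) (fun x _ => (hFn x).le)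
    simpa [abs_of_pos hε0] using this
  have hmid : ‖∫ t in ε..(2 * M - ε), F t‖ ≤ (2 * Real.pi + 1) / Real.sqrt (b / M) := by
    apply vdc (fun t => a * t - b * qf M t) (fun t => a - b * ((M - t) / qf M t))
      (fun t => b * (M ^ 2 / qf M t ^ 3)) ε (2 * M - ε) (b / M) (by linarith) (by positivity)
    · intro x hx
      have := ((hasDerivAt_id x).const_mul a).sub ((qf_hasDeriv M x (by linarith [hx.1])
        (by linarith [hx.2])).const_mul b)
      refine this.congr_deriv ?_
      simp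
    · intro x hx
      have := ((qf_hasDeriv2 M x (by linarith [hx.1]) (by linarith [hx.2])).const_mul b).const_sub a
      refine this.congr_deriv ?_
      ring
    · apply continuousOn_const.mul
      apply ContinuousOn.div continuousOn_const ((qf_continuous M).continuousOn.pow 3)
      intro x hx
      exact (pow_pos (qf_pos M x (by linarith [hx.1]) (by linarith [hx.2])) 3).ne'
    · intro x hx
      have hq := qf_pos M x (by linarith [hx.1]) (by linarith [hx.2])
      have hq2 := qf_le M x hM.le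
      rw [div_eq_mul_inv]
      apply mul_le_mul_of_nonneg_left _ hb.le
      rw [inv_eq_one_div, div_le_div_iff₀ hM (by positivity)]
      have : qf M x ^ 3 ≤ M ^ 3 := pow_le_pow_left₀ hq.le hq2 3
      nlinarith
  rw [hsplit]
  calc ‖(∫ t in (0:ℝ)..ε, F t) + (∫ t in ε..(2 * M - ε), F t) + ∫ t in (2 * M - ε)..(2 * M), F t‖
      ≤ ‖(∫ t in (0:ℝ)..ε, F t) + (∫ t in ε..(2 * M - ε), F t)‖ +
        ‖∫ t in (2 * M - ε)..(2 * M), F t‖ := norm_add_le _ _
    _ ≤ ‖∫ t in (0:ℝ)..ε, F t‖ + ‖∫ t in ε..(2 * M - ε), F t‖ +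
        ‖∫ t in (2 * M - ε)..(2 * M), F t‖ := by
          gcongr; exact norm_add_le _ _
    _ ≤ (2 * Real.pi + 1) / Real.sqrt (b / M) + η := by linarith

/-- real form. -/
lemma osc_sin (M a b c : ℝ) (hM : 0 < M) (hb : 0 < b) :
    |∫ t in (0:ℝ)..(2 * M), Real.sin (a * t + b * qf M t + c)| ≤
      (2 * Real.pi + 1) / Real.sqrt (b / M) := by
  have h := osc_exp M (-a) b hM hb
  set F : ℝ → ℂ := fun t => Complex.exp (Complex.I * ((-a * t - b * qf M t : ℝ) : ℂ)) with hF
  have hFc : Continuous F := by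
    have := qf_continuous M
    simp only [hF]; fun_prop
  have e : ∀ t, Real.sin (a * t + b * qf M t + c) =
      Complex.imCLM (-(Complex.exp (Complex.I * ((-c : ℝ) : ℂ))) * F t) := by
    intro t
    simp only [hF, Complex.imCLM_apply]
    rw [neg_mul, ← Complex.exp_add, ← mul_add, ← Complex.ofReal_add, mul_comm Complex.I,
      Complex.neg_im, Complex.exp_ofReal_mul_I_im, ← Real.sin_neg]
    congr 1; ring
  simp_rw [e]
  have hG : IntervalIntegrable (fun t => -(Complex.exp (Complex.I * ((-c : ℝ) : ℂ))) * F t)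
      volume 0 (2 * M) := (continuous_const.mul hFc).intervalIntegrable _ _
  rw [ContinuousLinearMap.intervalIntegral_comp_comm _ hG]
  rw [intervalIntegral.integral_const_mul, Complex.imCLM_apply]
  refine (Complex.abs_im_le_norm _).trans ?_
  rw [norm_mul, norm_neg, mul_comm Complex.I, Complex.norm_exp_ofReal_mul_I, one_mul]
  exact h

end Pool.Agent.Work.MP_33c50c_an
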