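import Mathlib
import Pool.Agent.Work.MP_33c50c_an.Lat1
import Pool.Agent.Work.MP_33c50c_an.Lat2

namespace Pool.Agent.Work.MP_33c50c_an

open MeasureTheory intervalIntegral Set

lemma bern2 (x : ℝ) :
    (Polynomial.map (algebraMap ℚ ℝ) (Polynomial.bernoulli 2)).eval x = x ^ 2 - x + 1 / 6 := by
  have h : Polynomial.bernoulli 2 =
      Polynomial.X ^ 2 - Polynomial.X + Polynomial.C (1 / 6) := by
    rw [Polynomial.bernoulli_def]
    simp only [Finset.sum_range_succ, Finset.sum_range_zero]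
    simp [bernoulli_zero, bernoulli_one, ← Polynomial.C_mul_X_pow_eq_monomial]
    ring
  rw [h]; simp

lemma hasSum_of_eq {f g : ℕ → ℝ} {a b : ℝ} (h : HasSum f a) (hf : ∀ n, g n = f n) (ha : b = a) :
    HasSum g b := by
  have : g = f := funext hf
  rw [this, ha]; exact h

/-- Fourier series of `Φ`. -/
lemma Phi_hasSum (x : ℝ) :
    HasSum (fun n : ℕ => 1 / (n : ℝ) ^ 2 * Real.cos (2 * Real.pi * n * x))
      (Real.pi ^ 2 * (1 / 6 - Phi x)) := by
  have hx : Int.fract x ∈ Icc (0:ℝ) 1 := ⟨Int.fract_nonneg x, (Int.fract_lt_one x).le⟩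
  have h := hasSum_one_div_nat_pow_mul_cos (k := 1) one_ne_zero hx
  have e : ∀ n : ℕ, Real.cos (2 * Real.pi * n * Int.fract x) = Real.cos (2 * Real.pi * n * x) := by
    intro n
    have : 2 * Real.pi * n * Int.fract x = 2 * Real.pi * n * x - ((n * ⌊x⌋ : ℤ) : ℝ) * (2 * Real.pi) := by
      rw [← Int.self_sub_floor]; push_cast; ring
    rw [this, Real.cos_sub_int_mul_two_pi]
  simp only [e, mul_one] at h
  rw [bern2] at h
  refine hasSum_of_eq h (fun n => rfl) ?_
  simp only [Phi, Nat.factorial]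
  push_cast; ring

/-- interchange of a uniformly summable series and the integral. -/
lemma hasSum_interval (F : ℕ → ℝ → ℝ) (S : ℝ → ℝ) (u : ℕ → ℝ) (a b : ℝ)
    (hF : ∀ n, Continuous (F n)) (hu : Summable u) (hb : ∀ n t, |F n t| ≤ u n)
    (hS : ∀ t, HasSum (fun n => F n t) (S t)) :
    HasSum (fun n => ∫ t in a..b, F n t) (∫ t in a..b, S t) := by
  apply intervalIntegral.hasSum_integral_of_dominated_convergence (fun n _ => u n)
    (fun n => (hF n).aestronglyMeasurable)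
  · intro n; filter_upwards with t _; exact hb n t
  · filter_upwards with t _; exact hu
  · exact intervalIntegrable_const
  · filter_upwards with t _; exact hS t

lemma cos_sub_cos_shift (A η : ℝ) :
    Real.cos A - Real.cos (A + η) = 2 * Real.sin (η / 2) * Real.sin (A + η / 2) := by
  have h1 : Real.cos A = Real.cos (A + η / 2) * Real.cos (η / 2) +
      Real.sin (A + η / 2) * Real.sin (η / 2) := by
    rw [← Real.cos_sub]; congr 1; ring
  have h2 : Real.cos (A + η) = Real.cos (A + η / 2) * Real.cos (η / 2) -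
      Real.sin (A + η / 2) * Real.sin (η / 2) := by
    rw [← Real.cos_add]; congr 1; ring
  rw [h1, h2]; ring

/-- the increment of `Φ`. -/
noncomputable def Edel (δ x : ℝ) : ℝ := Phi (x + δ) - Phi x

lemma Edel_continuous (δ : ℝ) : Continuous (Edel δ) := by
  unfold Edel
  exact (Phi_continuous.comp (by fun_prop)).sub Phi_continuous

lemma Edel_abs_le (δ x : ℝ) : |Edel δ x| ≤ 1 := by
  unfold Edel
  have h1 := Phi_le (x + δ)
  have h2 := Phi_nonneg (x + δ)
  have h3 := Phi_le x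
  have h4 := Phi_nonneg x
  rw [abs_le]; constructor <;> linarith

lemma Edel_hasSum (δ x : ℝ) :
    HasSum (fun n : ℕ => 1 / Real.pi ^ 2 * (1 / (n : ℝ) ^ 2) * (2 * Real.sin (Real.pi * n * δ)) *
      Real.sin (2 * Real.pi * n * x + Real.pi * n * δ)) (Edel δ x) := by
  have h := ((Phi_hasSum x).sub (Phi_hasSum (x + δ))).mul_left (1 / Real.pi ^ 2)
  have hpi : Real.pi ^ 2 ≠ 0 := by positivity
  refine hasSum_of_eq h (fun n => ?_) ?_
  · have := cos_sub_cos_shift (2 * Real.pi * n * x) (2 * Real.pi * n * δ)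
    rw [show 2 * Real.pi * n * x + 2 * Real.pi * n * δ = 2 * Real.pi * n * (x + δ) by ring,
      show 2 * Real.pi * n * δ / 2 = Real.pi * n * δ by ring] at this
    have e : 1 / (n : ℝ) ^ 2 * Real.cos (2 * Real.pi * n * x) -
        1 / (n : ℝ) ^ 2 * Real.cos (2 * Real.pi * n * (x + δ)) =
        1 / (n : ℝ) ^ 2 * (Real.cos (2 * Real.pi * n * x) -
          Real.cos (2 * Real.pi * n * (x + δ))) := by ring
    rw [e, this]; ring
  · unfold Edel; field_simp; ring

/-- product to sum, then the second derivative test. -/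
lemma osc_cos_sin (M D a c g1 g0 : ℝ) (n : ℕ) (hn : 0 < n) (hM : 0 < M) (hD : 0 < D) (c' : ℝ) :
    |∫ t in (0:ℝ)..(2 * M), Real.cos (a * t + c) *
      Real.sin (2 * Real.pi * n * (D * qf M t + g1 * t + g0) + c')| ≤
      (2 * Real.pi + 1) / Real.sqrt (2 * Real.pi * n * D / M) := by
  have hn' : (0:ℝ) < n := by exact_mod_cast hn
  have hb : 0 < 2 * Real.pi * n * D := by have := Real.pi_pos; positivity
  have hq := qf_continuous M
  have e : ∀ t : ℝ, Real.cos (a * t + c) *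
      Real.sin (2 * Real.pi * n * (D * qf M t + g1 * t + g0) + c') =
      (1 / 2) * Real.sin ((2 * Real.pi * n * g1 + a) * t + (2 * Real.pi * n * D) * qf M t +
        (2 * Real.pi * n * g0 + c' + c)) +
      (1 / 2) * Real.sin ((2 * Real.pi * n * g1 - a) * t + (2 * Real.pi * n * D) * qf M t +
        (2 * Real.pi * n * g0 + c' - c)) := by
    intro t
    have h1 : (2 * Real.pi * n * g1 + a) * t + (2 * Real.pi * n * D) * qf M t +
        (2 * Real.pi * n * g0 + c' + c) =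
        (2 * Real.pi * n * (D * qf M t + g1 * t + g0) + c') + (a * t + c) := by ring
    have h2 : (2 * Real.pi * n * g1 - a) * t + (2 * Real.pi * n * D) * qf M t +
        (2 * Real.pi * n * g0 + c' - c) =
        (2 * Real.pi * n * (D * qf M t + g1 * t + g0) + c') - (a * t + c) := by ring
    have h3 : ∀ P Q : ℝ, Real.cos Q * Real.sin P = 1 / 2 * Real.sin (P + Q) + 1 / 2 * Real.sin (P - Q) := by
      intro P Q; rw [Real.sin_add, Real.sin_sub]; ring
    rw [h1, h2, h3]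
  simp_rw [e]
  rw [intervalIntegral.integral_add
    (Continuous.intervalIntegrable (by fun_prop) _ _)
    (Continuous.intervalIntegrable (by fun_prop) _ _),
    intervalIntegral.integral_const_mul, intervalIntegral.integral_const_mul]
  have b1 := osc_sin M (2 * Real.pi * n * g1 + a) (2 * Real.pi * n * D)
    (2 * Real.pi * n * g0 + c' + c) hM hb
  have b2 := osc_sin M (2 * Real.pi * n * g1 - a) (2 * Real.pi * n * D)
    (2 * Real.pi * n * g0 + c' - c) hM hb
  rw [abs_le] at b1 b2 ⊢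
  constructor <;> linarith [b1.1, b1.2, b2.1, b2.2]

/-- the constant in the estimate for one Fourier mode of the kernel. -/
noncomputable def Kc : ℝ := (2 / Real.pi) * ((2 * Real.pi + 1) / Real.sqrt (2 * Real.pi)) *
  ∑' n : ℕ, 1 / (n : ℝ) ^ (3 / 2 : ℝ)

lemma Kc_nonneg : 0 ≤ Kc := by
  unfold Kc
  have := Real.pi_pos
  have h : 0 ≤ ∑' n : ℕ, 1 / (n : ℝ) ^ (3 / 2 : ℝ) := tsum_nonneg (fun n => by positivity)
  positivity

lemma osc_cos_Edel (M D a c g1 g0 δ : ℝ) (hM : 0 < M) (hD : 0 < D) (hδ : 0 < δ) :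
    |∫ t in (0:ℝ)..(2 * M), Real.cos (a * t + c) * Edel δ (D * qf M t + g1 * t + g0)| ≤
      Kc * δ * Real.sqrt (M / D) := by
  have hpi := Real.pi_pos
  have hq := qf_continuous M
  set X : ℝ → ℝ := fun t => D * qf M t + g1 * t + g0 with hX
  have hXc : Continuous X := by simp only [hX]; fun_prop
  set F : ℕ → ℝ → ℝ := fun n t => 1 / Real.pi ^ 2 * (1 / (n : ℝ) ^ 2) *
    (2 * Real.sin (Real.pi * n * δ)) *
      (Real.cos (a * t + c) * Real.sin (2 * Real.pi * n * X t + Real.pi * n * δ)) with hF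
  have hs2 : Summable fun n : ℕ => 1 / (n : ℝ) ^ 2 := Real.summable_one_div_nat_pow.mpr one_lt_two
  have hS : ∀ t, HasSum (fun n => F n t) (Real.cos (a * t + c) * Edel δ (X t)) := by
    intro t
    have h := (Edel_hasSum δ (X t)).mul_left (Real.cos (a * t + c))
    refine hasSum_of_eq h (fun n => ?_) rfl
    simp only [hF]; ring
  have hb : ∀ n t, |F n t| ≤ 1 / Real.pi ^ 2 * 2 * (1 / (n : ℝ) ^ 2) := by
    intro n t
    simp only [hF, abs_mul]
    have e1 : |1 / Real.pi ^ 2| = 1 / Real.pi ^ 2 := abs_of_nonneg (by positivity)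
    have e2 : |1 / (n:ℝ) ^ 2| = 1 / (n:ℝ) ^ 2 := abs_of_nonneg (by positivity)
    have e3 : |(2:ℝ)| = 2 := abs_of_pos two_pos
    rw [e1, e2, e3]
    have h1 := Real.abs_sin_le_one (Real.pi * n * δ)
    have h2 := Real.abs_cos_le_one (a * t + c)
    have h3 := Real.abs_sin_le_one (2 * Real.pi * n * X t + Real.pi * n * δ)
    calc 1 / Real.pi ^ 2 * (1 / (n:ℝ) ^ 2) * (2 * |Real.sin (Real.pi * n * δ)|) *
          (|Real.cos (a * t + c)| * |Real.sin (2 * Real.pi * n * X t + Real.pi * n * δ)|)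
        ≤ 1 / Real.pi ^ 2 * (1 / (n:ℝ) ^ 2) * (2 * 1) * (1 * 1) := by gcongr
      _ = 1 / Real.pi ^ 2 * 2 * (1 / (n : ℝ) ^ 2) := by ring
  have hsum := hasSum_interval F (fun t => Real.cos (a * t + c) * Edel δ (X t))
    (fun n : ℕ => 1 / Real.pi ^ 2 * 2 * (1 / (n : ℝ) ^ 2)) 0 (2 * M)
    (fun n => by show Continuous (fun t => _ * _); fun_prop) (hs2.mul_left _) hb hS
  have hs32 : Summable fun n : ℕ => 1 / (n : ℝ) ^ (3 / 2 : ℝ) :=
    Real.summable_one_div_nat_rpow.mpr (by norm_num)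
  set K := (2 / Real.pi) * ((2 * Real.pi + 1) / Real.sqrt (2 * Real.pi)) * δ *
    Real.sqrt (M / D) with hK
  have hK0 : 0 ≤ K := by positivity
  have hbd : ∀ n : ℕ, ‖∫ t in (0:ℝ)..(2 * M), F n t‖ ≤ K * (1 / (n : ℝ) ^ (3 / 2 : ℝ)) := by
    intro n
    rcases Nat.eq_zero_or_pos n with rfl | hn
    · have : ∀ t, F 0 t = 0 := by intro t; simp [hF]
      simp only [this]
      simp
    have hn' : (0:ℝ) < n := by exact_mod_cast hn
    simp only [hF]
    rw [intervalIntegral.integral_const_mul, norm_mul]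
    have h1 := osc_cos_sin M D a c g1 g0 n hn hM hD (Real.pi * n * δ)
    have h2 : ‖1 / Real.pi ^ 2 * (1 / (n : ℝ) ^ 2) * (2 * Real.sin (Real.pi * n * δ))‖ ≤
        1 / Real.pi ^ 2 * (1 / (n : ℝ) ^ 2) * (2 * (Real.pi * n * δ)) := by
      rw [Real.norm_eq_abs, abs_mul, abs_mul, abs_mul]
      have e1 : |1 / Real.pi ^ 2| = 1 / Real.pi ^ 2 := abs_of_nonneg (by positivity)
      have e2 : |1 / (n:ℝ) ^ 2| = 1 / (n:ℝ) ^ 2 := abs_of_nonneg (by positivity)
      have e3 : |(2:ℝ)| = 2 := abs_of_pos two_pos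
      rw [e1, e2, e3]
      have h3 : |Real.sin (Real.pi * n * δ)| ≤ Real.pi * n * δ := by
        have := Real.abs_sin_le_abs (x := Real.pi * n * δ)
        rwa [abs_of_nonneg (by positivity : 0 ≤ Real.pi * n * δ)] at this
      gcongr
    have h4 : ‖∫ t in (0:ℝ)..(2 * M), Real.cos (a * t + c) *
        Real.sin (2 * Real.pi * n * X t + Real.pi * n * δ)‖ ≤
        (2 * Real.pi + 1) / Real.sqrt (2 * Real.pi * n * D / M) := by
      rw [Real.norm_eq_abs]; exact h1
    have hsq : Real.sqrt (2 * Real.pi * n * D / M) =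
        Real.sqrt (2 * Real.pi) * Real.sqrt n / Real.sqrt (M / D) := by
      rw [← Real.sqrt_mul (by positivity), ← Real.sqrt_div (by positivity)]
      congr 1; field_simp
    have hMD : 0 < Real.sqrt (M / D) := Real.sqrt_pos.mpr (by positivity)
    have hsn : 0 < Real.sqrt n := Real.sqrt_pos.mpr hn'
    have hs2p : 0 < Real.sqrt (2 * Real.pi) := Real.sqrt_pos.mpr (by positivity)
    have hrp : (n : ℝ) ^ (3 / 2 : ℝ) = n * Real.sqrt n := by
      rw [Real.sqrt_eq_rpow, show (3 / 2 : ℝ) = 1 + 1 / 2 by norm_num, Real.rpow_add hn',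
        Real.rpow_one]
    calc ‖1 / Real.pi ^ 2 * (1 / (n : ℝ) ^ 2) * (2 * Real.sin (Real.pi * n * δ))‖ *
        ‖∫ t in (0:ℝ)..(2 * M), Real.cos (a * t + c) *
        Real.sin (2 * Real.pi * n * X t + Real.pi * n * δ)‖
        ≤ (1 / Real.pi ^ 2 * (1 / (n : ℝ) ^ 2) * (2 * (Real.pi * n * δ))) *
          ((2 * Real.pi + 1) / Real.sqrt (2 * Real.pi * n * D / M)) :=
            mul_le_mul h2 h4 (norm_nonneg _) (by positivity)
      _ = K * (1 / (n : ℝ) ^ (3 / 2 : ℝ)) := by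
          rw [hsq, hrp, hK]; field_simp
  have hres := tsum_of_norm_bounded (hs32.hasSum.mul_left K) hbd
  rw [hsum.tsum_eq, Real.norm_eq_abs] at hres
  refine hres.trans (le_of_eq ?_)
  rw [hK]; unfold Kc; ring

/-- Fourier expansion of the tent. -/
lemma tent_hasSum (ρ x : ℝ) (hρ : 0 < ρ) :
    HasSum (fun n : ℕ => 1 / (Real.pi ^ 2 * ρ ^ 2) * (1 / (n:ℝ) ^ 2) *
      (1 - Real.cos (2 * Real.pi * n * ρ)) * Real.cos (2 * Real.pi * n * x)) (tent ρ x - 1) := by
  have hpi : Real.pi ^ 2 ≠ 0 := by positivity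
  have h := (((Phi_hasSum x).mul_left 2).sub ((Phi_hasSum (x + ρ)).add (Phi_hasSum (x - ρ)))).mul_left
    (1 / (2 * Real.pi ^ 2 * ρ ^ 2))
  refine hasSum_of_eq h (fun n => ?_) ?_
  · have h1 : Real.cos (2 * Real.pi * n * (x + ρ)) =
        Real.cos (2 * Real.pi * n * x) * Real.cos (2 * Real.pi * n * ρ) -
        Real.sin (2 * Real.pi * n * x) * Real.sin (2 * Real.pi * n * ρ) := by
      rw [← Real.cos_add]; congr 1; ring
    have h2 : Real.cos (2 * Real.pi * n * (x - ρ)) =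
        Real.cos (2 * Real.pi * n * x) * Real.cos (2 * Real.pi * n * ρ) +
        Real.sin (2 * Real.pi * n * x) * Real.sin (2 * Real.pi * n * ρ) := by
      rw [← Real.cos_sub]; congr 1; ring
    rw [h1, h2]; field_simp; ring
  · unfold tent; field_simp; ring

/-- the constant of the kernel. -/
noncomputable def Cker (ρ : ℝ) : ℝ :=
  (1 + (2 / (Real.pi ^ 2 * ρ ^ 2)) * ∑' n : ℕ, 1 / (n : ℝ) ^ 2) * Kc

lemma Cker_nonneg (ρ : ℝ) : 0 ≤ Cker ρ := by
  unfold Cker
  have h1 := Kc_nonneg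
  have h : 0 ≤ ∑' n : ℕ, 1 / (n : ℝ) ^ 2 := tsum_nonneg (fun n => by positivity)
  positivity

/-- the oscillatory estimate against the tent kernel. -/
lemma osc_tent (ρ M D g1 g0 δ : ℝ) (hρ : 0 < ρ) (hM : 0 < M) (hD : 0 < D) (hδ : 0 < δ) :
    |∫ t in (0:ℝ)..(2 * M), tent ρ (t - ρ) * Edel δ (D * qf M t + g1 * t + g0)| ≤
      Cker ρ * δ * Real.sqrt (M / D) := by
  have hpi := Real.pi_pos
  have hq := qf_continuous M
  set X : ℝ → ℝ := fun t => D * qf M t + g1 * t + g0 with hX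
  have hXc : Continuous X := by simp only [hX]; fun_prop
  have hEc : Continuous fun t => Edel δ (X t) := (Edel_continuous δ).comp hXc
  have htc : Continuous fun t => tent ρ (t - ρ) := (tent_continuous ρ).comp (by fun_prop)
  set B := Kc * δ * Real.sqrt (M / D) with hB
  have hB0 : 0 ≤ B := by have := Kc_nonneg; positivity
  set al : ℕ → ℝ := fun n => 1 / (Real.pi ^ 2 * ρ ^ 2) * (1 / (n:ℝ) ^ 2) *
      (1 - Real.cos (2 * Real.pi * n * ρ)) with hal
  have hal_le : ∀ n, |al n| ≤ (2 / (Real.pi ^ 2 * ρ ^ 2)) * (1 / (n : ℝ) ^ 2) := by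
    intro n
    simp only [hal]
    have h1 := Real.cos_le_one (2 * Real.pi * n * ρ)
    have h2 := Real.neg_one_le_cos (2 * Real.pi * n * ρ)
    rw [abs_mul, abs_of_nonneg (by positivity : (0:ℝ) ≤ 1 / (Real.pi ^ 2 * ρ ^ 2) * (1 / (n:ℝ) ^ 2)),
      abs_of_nonneg (by linarith)]
    calc 1 / (Real.pi ^ 2 * ρ ^ 2) * (1 / (n:ℝ) ^ 2) * (1 - Real.cos (2 * Real.pi * n * ρ))
        ≤ 1 / (Real.pi ^ 2 * ρ ^ 2) * (1 / (n:ℝ) ^ 2) * 2 := by
          apply mul_le_mul_of_nonneg_left _ (by positivity); linarith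
      _ = (2 / (Real.pi ^ 2 * ρ ^ 2)) * (1 / (n : ℝ) ^ 2) := by ring
  have hs2 : Summable fun n : ℕ => 1 / (n : ℝ) ^ 2 := Real.summable_one_div_nat_pow.mpr one_lt_two
  set F : ℕ → ℝ → ℝ := fun n t => al n * (Real.cos (2 * Real.pi * n * t + (-(2 * Real.pi * n * ρ))) *
    Edel δ (X t)) with hF
  have hS : ∀ t, HasSum (fun n => F n t) ((tent ρ (t - ρ) - 1) * Edel δ (X t)) := by
    intro t
    have h := (tent_hasSum ρ (t - ρ) hρ).mul_right (Edel δ (X t))
    refine hasSum_of_eq h (fun n => ?_) rfl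
    simp only [hF, hal]
    rw [show 2 * Real.pi * n * t + (-(2 * Real.pi * n * ρ)) = 2 * Real.pi * n * (t - ρ) by ring]
    ring
  have hb : ∀ n t, |F n t| ≤ (2 / (Real.pi ^ 2 * ρ ^ 2)) * (1 / (n : ℝ) ^ 2) := by
    intro n t
    simp only [hF, abs_mul]
    have h1 := Real.abs_cos_le_one (2 * Real.pi * n * t + (-(2 * Real.pi * n * ρ)))
    have h2 := Edel_abs_le δ (X t)
    calc |al n| * (|Real.cos (2 * Real.pi * n * t + (-(2 * Real.pi * n * ρ)))| * |Edel δ (X t)|)
        ≤ ((2 / (Real.pi ^ 2 * ρ ^ 2)) * (1 / (n : ℝ) ^ 2)) * (1 * 1) := by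
          have := hal_le n
          gcongr
      _ = _ := by ring
  have hsum := hasSum_interval F (fun t => (tent ρ (t - ρ) - 1) * Edel δ (X t))
    (fun n : ℕ => (2 / (Real.pi ^ 2 * ρ ^ 2)) * (1 / (n : ℝ) ^ 2)) 0 (2 * M)
    (fun n => by show Continuous (fun t => _ * _); fun_prop) (hs2.mul_left _) hb hS
  have hbd : ∀ n : ℕ, ‖∫ t in (0:ℝ)..(2 * M), F n t‖ ≤
      ((2 / (Real.pi ^ 2 * ρ ^ 2)) * B) * (1 / (n : ℝ) ^ 2) := by
    intro n
    simp only [hF]
    rw [intervalIntegral.integral_const_mul, norm_mul, Real.norm_eq_abs, Real.norm_eq_abs]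
    have h1 := osc_cos_Edel M D (2 * Real.pi * n) (-(2 * Real.pi * n * ρ)) g1 g0 δ hM hD hδ
    calc |al n| * |∫ t in (0:ℝ)..(2 * M), Real.cos (2 * Real.pi * n * t + (-(2 * Real.pi * n * ρ))) *
        Edel δ (X t)| ≤ ((2 / (Real.pi ^ 2 * ρ ^ 2)) * (1 / (n : ℝ) ^ 2)) * B :=
          mul_le_mul (hal_le n) h1 (abs_nonneg _) (by positivity)
      _ = ((2 / (Real.pi ^ 2 * ρ ^ 2)) * B) * (1 / (n : ℝ) ^ 2) := by ring
  have hres := tsum_of_norm_bounded (hs2.hasSum.mul_left ((2 / (Real.pi ^ 2 * ρ ^ 2)) * B)) hbd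
  rw [hsum.tsum_eq, Real.norm_eq_abs] at hres
  have h0 := osc_cos_Edel M D 0 0 g1 g0 δ hM hD hδ
  simp only [zero_mul, add_zero, Real.cos_zero, one_mul] at h0
  have hsplit : ∫ t in (0:ℝ)..(2 * M), tent ρ (t - ρ) * Edel δ (X t) =
      (∫ t in (0:ℝ)..(2 * M), Edel δ (X t)) +
      ∫ t in (0:ℝ)..(2 * M), (tent ρ (t - ρ) - 1) * Edel δ (X t) := by
    have i1 : IntervalIntegrable (fun t => Edel δ (X t)) volume 0 (2 * M) :=
      hEc.intervalIntegrable _ _
    have i2 : IntervalIntegrable (fun t => (tent ρ (t - ρ) - 1) * Edel δ (X t)) volume 0 (2 * M) :=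
      ((htc.sub continuous_const).mul hEc).intervalIntegrable _ _
    rw [← intervalIntegral.integral_add i1 i2]
    congr 1; ext t; ring
  rw [hsplit]
  refine (abs_add_le _ _).trans ?_
  have e : Cker ρ * δ * Real.sqrt (M / D) =
      B + (2 / (Real.pi ^ 2 * ρ ^ 2)) * B * ∑' n : ℕ, 1 / (n : ℝ) ^ 2 := by
    rw [hB]; unfold Cker; ring
  rw [e]
  exact add_le_add h0 hres

end Pool.Agent.Work.MP_33c50c_an
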