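import Mathlib
import Pool.Agent.Work.MP_33c50c_an.Lat3

namespace Pool.Agent.Work.MP_33c50c_an

open MeasureTheory intervalIntegral Set Finset

lemma le_of_sq_le {a b : ℝ} (h : a ^ 2 ≤ b ^ 2) (hb : 0 ≤ b) : a ≤ b :=
  (le_abs_self a).trans (abs_le_of_sq_le_sq h hb)

/-- the exact defect of the circle from its chord. -/
lemma qf_chord (M x y l : ℝ) (hx0 : 0 ≤ x) (hx : x ≤ 2 * M) (hy0 : 0 ≤ y) (hy : y ≤ 2 * M)
    (hl0 : 0 ≤ l) (hl1 : l ≤ 1) :
    qf M (l * x + (1 - l) * y) ^ 2 - (l * qf M x + (1 - l) * qf M y) ^ 2 =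
      l * (1 - l) * ((x - y) ^ 2 + (qf M x - qf M y) ^ 2) := by
  have hz0 : 0 ≤ l * x + (1 - l) * y := by nlinarith
  have hz : l * x + (1 - l) * y ≤ 2 * M := by nlinarith
  have h1 := qf_sq M _ hz0 hz
  have h2 := qf_sq M x hx0 hx
  have h3 := qf_sq M y hy0 hy
  have e : (l * qf M x + (1 - l) * qf M y) ^ 2 = l * qf M x ^ 2 + (1 - l) * qf M y ^ 2 -
      l * (1 - l) * (qf M x - qf M y) ^ 2 := by ring
  rw [h1, e, h2, h3]; ring

lemma qf_concave (M x y l : ℝ) (hx0 : 0 ≤ x) (hx : x ≤ 2 * M) (hy0 : 0 ≤ y) (hy : y ≤ 2 * M)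
    (hl0 : 0 ≤ l) (hl1 : l ≤ 1) :
    l * qf M x + (1 - l) * qf M y ≤ qf M (l * x + (1 - l) * y) := by
  have h := qf_chord M x y l hx0 hx hy0 hy hl0 hl1
  have h1 : 0 ≤ l * (1 - l) * ((x - y) ^ 2 + (qf M x - qf M y) ^ 2) := by
    have : 0 ≤ 1 - l := by linarith
    positivity
  have h2 := qf_nonneg M (l * x + (1 - l) * y)
  exact le_of_sq_le (by linarith) h2

lemma qf_strong (M x y l : ℝ) (hM : 1 / 2 ≤ M) (hx0 : 0 ≤ x) (hx : x ≤ 1) (hy0 : 0 ≤ y)
    (hy : y ≤ 1) (hl0 : 0 ≤ l) (hl1 : l ≤ 1) :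
    l * qf M x + (1 - l) * qf M y + Real.sqrt M / 6 * (l * (1 - l) * (x - y) ^ 2) ≤
      qf M (l * x + (1 - l) * y) := by
  have hM0 : 0 < M := by linarith
  have h := qf_chord M x y l hx0 (by linarith) hy0 (by linarith) hl0 hl1
  set A := l * qf M x + (1 - l) * qf M y with hA
  set z := l * x + (1 - l) * y with hz
  have hz0 : 0 ≤ z := by rw [hz]; nlinarith
  have hz1 : z ≤ 1 := by rw [hz]; nlinarith
  have hs := Real.sq_sqrt hM0.le
  have hs0 : 0 < Real.sqrt M := Real.sqrt_pos.mpr hM0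
  have hqb : ∀ t, 0 ≤ t → t ≤ 1 → qf M t ≤ 3 / 2 * Real.sqrt M := by
    intro t h0 h1
    have h2 := qf_sq M t h0 (by linarith)
    have h3 := qf_nonneg M t
    apply le_of_sq_le _ (by positivity)
    rw [h2, mul_pow, hs]; nlinarith
  have hqx := qf_nonneg M x
  have hqy := qf_nonneg M y
  have hqz := qf_nonneg M z
  have hxb := hqb x hx0 hx
  have hyb := hqb y hy0 hy
  have hzb := hqb z hz0 hz1
  have hA0 : 0 ≤ A := by rw [hA]; have : 0 ≤ 1 - l := by linarith
                         positivity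
  have hAb : A ≤ 3 / 2 * Real.sqrt M := by rw [hA]; nlinarith
  -- the lower bound for the squared distance
  have hqx2 := qf_sq M x hx0 (by linarith)
  have hqy2 := qf_sq M y hy0 (by linarith)
  have hfac : (qf M x - qf M y) * (qf M x + qf M y) = (x - y) * (2 * M - x - y) := by
    have : (qf M x - qf M y) * (qf M x + qf M y) = qf M x ^ 2 - qf M y ^ 2 := by ring
    rw [this, hqx2, hqy2]; ring
  have hsum8 : (qf M x + qf M y) ^ 2 ≤ 8 * M := by
    have h1 : qf M x ^ 2 ≤ 2 * M := by rw [hqx2]; nlinarith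
    have h2 : qf M y ^ 2 ≤ 2 * M := by rw [hqy2]; nlinarith
    nlinarith [sq_nonneg (qf M x - qf M y)]
  have hQ : (x - y) ^ 2 * (M / 2) ≤ (x - y) ^ 2 + (qf M x - qf M y) ^ 2 := by
    have h1 : (x - y) ^ 2 * (2 * M - x - y) ^ 2 ≤ (qf M x - qf M y) ^ 2 * (8 * M) := by
      calc (x - y) ^ 2 * (2 * M - x - y) ^ 2 = ((qf M x - qf M y) * (qf M x + qf M y)) ^ 2 := by
            rw [hfac]; ring
        _ = (qf M x - qf M y) ^ 2 * (qf M x + qf M y) ^ 2 := by ring
        _ ≤ (qf M x - qf M y) ^ 2 * (8 * M) := mul_le_mul_of_nonneg_left hsum8 (sq_nonneg _)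
    have h2 : 4 * M ^ 2 ≤ 8 * M + (2 * M - x - y) ^ 2 := by
      have : 0 ≤ M * (2 - x - y) := mul_nonneg hM0.le (by linarith)
      nlinarith [sq_nonneg (x + y)]
    have h3 := mul_le_mul_of_nonneg_left h2 (sq_nonneg (x - y))
    have h4 : (x - y) ^ 2 * (M / 2) * (8 * M) ≤
        ((x - y) ^ 2 + (qf M x - qf M y) ^ 2) * (8 * M) := by
      have e1 : (x - y) ^ 2 * (M / 2) * (8 * M) = (x - y) ^ 2 * (4 * M ^ 2) := by ring
      have e2 : ((x - y) ^ 2 + (qf M x - qf M y) ^ 2) * (8 * M) =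
          (x - y) ^ 2 * (8 * M) + (qf M x - qf M y) ^ 2 * (8 * M) := by ring
      rw [mul_add] at h3
      rw [e1, e2]; linarith
    exact le_of_mul_le_mul_right h4 (by positivity)
  have hll : 0 ≤ l * (1 - l) := mul_nonneg hl0 (by linarith)
  have h5 : l * (1 - l) * ((x - y) ^ 2 * (M / 2)) ≤ qf M z ^ 2 - A ^ 2 := by
    rw [h]; exact mul_le_mul_of_nonneg_left hQ hll
  have hAz : A ≤ qf M z := by
    apply le_of_sq_le _ hqz
    have : 0 ≤ l * (1 - l) * ((x - y) ^ 2 * (M / 2)) := by positivity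
    linarith
  have h6 : qf M z ^ 2 - A ^ 2 ≤ (qf M z - A) * (3 * Real.sqrt M) := by
    have : qf M z ^ 2 - A ^ 2 = (qf M z - A) * (qf M z + A) := by ring
    rw [this]; exact mul_le_mul_of_nonneg_left (by linarith) (by linarith)
  have h7 : Real.sqrt M / 6 * (l * (1 - l) * (x - y) ^ 2) * (3 * Real.sqrt M) =
      l * (1 - l) * ((x - y) ^ 2 * (M / 2)) := by
    calc Real.sqrt M / 6 * (l * (1 - l) * (x - y) ^ 2) * (3 * Real.sqrt M) =
        (Real.sqrt M ^ 2 / 2) * (l * (1 - l) * (x - y) ^ 2) := by ring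
      _ = l * (1 - l) * ((x - y) ^ 2 * (M / 2)) := by rw [hs]; ring
  have h8 : Real.sqrt M / 6 * (l * (1 - l) * (x - y) ^ 2) * (3 * Real.sqrt M) ≤
      (qf M z - A) * (3 * Real.sqrt M) := by rw [h7]; linarith
  have h9 := le_of_mul_le_mul_right h8 (by positivity)
  linarith

lemma qf_reflect (M t : ℝ) : qf M (2 * M - t) = qf M t := by
  unfold qf; congr 1; ring

lemma qf_zero (M : ℝ) : qf M 0 = 0 := by simp [qf]

lemma qf_eq_zero (M t : ℝ) (hM : 0 ≤ M) (ht : 2 * M ≤ t) : qf M t = 0 := by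
  unfold qf; apply Real.sqrt_eq_zero_of_nonpos; nlinarith

/-- the row sum. -/
noncomputable def gsum (M : ℝ) (R : ℕ) (a : ℝ) : ℝ := ∑ i ∈ Finset.range R, qf M (a + i)

lemma gsum_continuous (M : ℝ) (R : ℕ) : Continuous (gsum M R) := by
  unfold gsum
  have := qf_continuous M
  fun_prop

lemma gsum_trunc (M : ℝ) (R L : ℕ) (a : ℝ) (hM : 0 ≤ M) (hL : L ≤ R) (h : 2 * M ≤ a + L) :
    gsum M R a = ∑ i ∈ Finset.range L, qf M (a + i) := by
  unfold gsum
  symm
  apply Finset.sum_subset (Finset.range_mono hL)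
  intro i _ hi
  have : L ≤ i := by simpa using hi
  apply qf_eq_zero M _ hM
  have : (L:ℝ) ≤ i := by exact_mod_cast this
  linarith

section
variable (M : ℝ) (R : ℕ) (L : ℕ) (b : ℝ)

lemma gsum_one (hM : 0 ≤ M) (hR : L + 2 ≤ R) (hb : 2 * M = L + b) (hb1 : b ≤ 1) :
    gsum M R 1 = gsum M R 0 := by
  rw [gsum_trunc M R (L) 1 hM (by omega) (by linarith),
    gsum_trunc M R (L + 1) 0 hM (by omega) (by push_cast; linarith), Finset.sum_range_succ']
  simp only [zero_add, Nat.cast_zero, qf_zero, add_zero]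
  apply Finset.sum_congr rfl; intro i _; push_cast; rw [add_comm]

lemma gsum_b (hM : 0 ≤ M) (hR : L + 2 ≤ R) (hb : 2 * M = L + b) (hb0 : 0 ≤ b) (hb1 : b ≤ 1) :
    gsum M R b = gsum M R 0 := by
  rw [gsum_trunc M R (L + 1) b hM (by omega) (by push_cast; linarith),
    gsum_trunc M R (L + 1) 0 hM (by omega) (by push_cast; linarith)]
  rw [← Finset.sum_range_reflect]
  apply Finset.sum_congr rfl
  intro i hi
  have hi' : i ≤ L := by simpa [Nat.lt_succ_iff] using hi
  rw [← qf_reflect]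
  congr 1
  rw [show L + 1 - 1 - i = L - i by omega, Nat.cast_sub hi', hb]; ring

lemma gsum_lower1 (hM : 1 / 2 ≤ M) (hR : L + 2 ≤ R) (hb : 2 * M = L + b) (hb0 : 0 ≤ b)
    (hb1 : b ≤ 1) (a : ℝ) (ha0 : 0 ≤ a) (ha : a ≤ b) :
    gsum M R 0 + Real.sqrt M / 6 * (a * (b - a)) ≤ gsum M R a := by
  rcases eq_or_lt_of_le hb0 with hb0' | hb0'
  · have : a = 0 := by linarith
    subst this; simp
  have hM0 : 0 ≤ M := by linarith
  have hgb := gsum_b M R L b hM0 hR hb hb0 hb1
  set l := 1 - a / b with hl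
  have hl0 : 0 ≤ l := by rw [hl]; have : a / b ≤ 1 := (div_le_one hb0').mpr ha
                         linarith
  have hl1 : l ≤ 1 := by rw [hl]; have : 0 ≤ a / b := by positivity
                         linarith
  have hlb : (1 - l) * b = a := by rw [hl]; field_simp; ring
  have e0 := gsum_trunc M R (L + 1) 0 hM0 (by omega) (by push_cast; linarith)
  have eb := gsum_trunc M R (L + 1) b hM0 (by omega) (by push_cast; linarith)
  have ea := gsum_trunc M R (L + 1) a hM0 (by omega) (by push_cast; linarith)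
  have key : ∀ i ∈ Finset.range (L + 1), l * qf M (0 + i) + (1 - l) * qf M (b + i) +
      (if i = 0 then Real.sqrt M / 6 * (a * (b - a)) else 0) ≤ qf M (a + i) := by
    intro i hi
    have hi' : i ≤ L := by simpa [Nat.lt_succ_iff] using hi
    have hi'' : (i:ℝ) ≤ L := by exact_mod_cast hi'
    have hi0 : (0:ℝ) ≤ i := Nat.cast_nonneg i
    have ez : a + i = l * (0 + i) + (1 - l) * (b + i) := by
      have : l * (0 + i) + (1 - l) * (b + i) = i + (1 - l) * b := by ring
      rw [this, hlb]; ring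
    by_cases h0 : i = 0
    · subst h0
      simp only [if_true]
      have := qf_strong M 0 b l hM le_rfl zero_le_one hb0 hb1 hl0 hl1
      simp only [Nat.cast_zero, add_zero] at ez ⊢
      rw [← ez] at this
      have e2 : l * (1 - l) * (0 - b) ^ 2 = a * (b - a) := by
        calc l * (1 - l) * (0 - b) ^ 2 = ((1 - l) * b) * (b - (1 - l) * b) := by ring
          _ = a * (b - a) := by rw [hlb]
      rw [e2] at this
      exact this
    · simp only [h0, if_false, add_zero]
      rw [ez]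
      apply qf_concave M _ _ l (by positivity) (by linarith) (by positivity) (by linarith) hl0 hl1
  have hs := Finset.sum_le_sum key
  rw [Finset.sum_add_distrib, Finset.sum_add_distrib, ← Finset.mul_sum, ← Finset.mul_sum,
    ← e0, ← eb, ← ea, Finset.sum_ite_eq'] at hs
  simp only [Finset.mem_range, Nat.succ_pos, if_true] at hs
  rw [hgb] at hs
  linarith

lemma gsum_lower2 (hM : 1 / 2 ≤ M) (hR : L + 2 ≤ R) (hb : 2 * M = L + b) (hb0 : 0 ≤ b)
    (hb1 : b < 1) (a : ℝ) (ha0 : b ≤ a) (ha : a ≤ 1) :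
    gsum M R 0 + Real.sqrt M / 6 * ((a - b) * (1 - a)) ≤ gsum M R a := by
  have hM0 : 0 ≤ M := by linarith
  have hgb := gsum_b M R L b hM0 hR hb hb0 hb1.le
  have hg1 := gsum_one M R L b hM0 hR hb hb1.le
  have hL1 : 1 ≤ L := by
    by_contra h
    have : L = 0 := by omega
    subst this; simp at hb; linarith
  have h1b : 0 < 1 - b := by linarith
  set l := (1 - a) / (1 - b) with hl
  have hl0 : 0 ≤ l := by rw [hl]; exact div_nonneg (by linarith) h1b.le
  have hl1 : l ≤ 1 := by rw [hl]; exact (div_le_one h1b).mpr (by linarith)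
  have hlb : l * (1 - b) = 1 - a := by rw [hl]; field_simp
  have e1 := gsum_trunc M R L 1 hM0 (by omega) (by linarith)
  have eb := gsum_trunc M R L b hM0 (by omega) (by linarith)
  have ea := gsum_trunc M R L a hM0 (by omega) (by linarith)
  have key : ∀ i ∈ Finset.range L, l * qf M (b + i) + (1 - l) * qf M (1 + i) +
      (if i = 0 then Real.sqrt M / 6 * ((a - b) * (1 - a)) else 0) ≤ qf M (a + i) := by
    intro i hi
    have hi' : i + 1 ≤ L := Finset.mem_range.mp hi
    have hi'' : (i:ℝ) + 1 ≤ L := by exact_mod_cast hi'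
    have hi0 : (0:ℝ) ≤ i := Nat.cast_nonneg i
    have ez : a + i = l * (b + i) + (1 - l) * (1 + i) := by
      have : l * (b + i) + (1 - l) * (1 + i) = i + 1 - l * (1 - b) := by ring
      rw [this, hlb]; ring
    by_cases h0 : i = 0
    · subst h0
      simp only [if_true]
      have := qf_strong M b 1 l hM hb0 hb1.le zero_le_one le_rfl hl0 hl1
      simp only [Nat.cast_zero, add_zero] at ez ⊢
      rw [← ez] at this
      have e2 : l * (1 - l) * (b - 1) ^ 2 = (a - b) * (1 - a) := by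
        calc l * (1 - l) * (b - 1) ^ 2 = (l * (1 - b)) * ((1 - b) - l * (1 - b)) := by ring
          _ = (a - b) * (1 - a) := by rw [hlb]; ring
      rw [e2] at this
      exact this
    · simp only [h0, if_false, add_zero]
      rw [ez]
      apply qf_concave M _ _ l (by positivity) (by linarith) (by positivity) (by linarith) hl0 hl1
  have hs := Finset.sum_le_sum key
  rw [Finset.sum_add_distrib, Finset.sum_add_distrib, ← Finset.mul_sum, ← Finset.mul_sum,
    ← e1, ← eb, ← ea, Finset.sum_ite_eq'] at hs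
  have hmem : (0:ℕ) ∈ Finset.range L := Finset.mem_range.mpr (by omega)
  simp only [hmem, if_true] at hs
  rw [hgb, hg1] at hs
  linarith

end

/-- unfolding. -/
lemma unfold_integral (f : ℝ → ℝ) (R : ℕ) (hf : ∀ x y : ℝ, IntervalIntegrable f volume x y) :
    ∫ t in (0:ℝ)..R, f t = ∫ a in (0:ℝ)..1, ∑ i ∈ Finset.range R, f (a + i) := by
  rw [intervalIntegral.integral_finsetSum]
  · have h := intervalIntegral.sum_integral_adjacent_intervals (a := fun k : ℕ => (k:ℝ)) (n := R)
      (f := f) (μ := volume) (fun k _ => hf _ _)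
    simp only [Nat.cast_zero] at h
    rw [← h]
    apply Finset.sum_congr rfl
    intro i _
    rw [intervalIntegral.integral_comp_add_right]
    congr 1
    · ring
    · push_cast; ring
  · intro i _
    have := (hf (0 + i) (1 + i)).comp_add_right (i:ℝ)
    simpa using this

/-- area of the half disc. -/
lemma integral_qf (M : ℝ) (hM : 0 < M) : ∫ t in (0:ℝ)..(2 * M), qf M t = Real.pi * M ^ 2 / 2 := by
  have h1 : ∫ x in (-1:ℝ)..1, qf M (M * x + M) = M⁻¹ * ∫ t in (0:ℝ)..(2 * M), qf M t := by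
    rw [intervalIntegral.integral_comp_mul_add _ hM.ne']
    simp only [smul_eq_mul]
    congr 2
    · ring
    · ring
  have h2 : ∀ x : ℝ, qf M (M * x + M) = M * Real.sqrt (1 - x ^ 2) := by
    intro x
    unfold qf
    rw [show (M * x + M) * (2 * M - (M * x + M)) = M ^ 2 * (1 - x ^ 2) by ring,
      Real.sqrt_mul (by positivity), Real.sqrt_sq hM.le]
  simp_rw [h2] at h1
  rw [intervalIntegral.integral_const_mul, integral_sqrt_one_sub_sq] at h1
  generalize (∫ t in (0:ℝ)..(2 * M), qf M t) = J at h1 ⊢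
  have h3 : J = M * (M⁻¹ * J) := by field_simp
  rw [h3, ← h1]; ring

lemma integral_qf_R (M : ℝ) (R : ℕ) (hM : 0 < M) (hR : 2 * M ≤ R) :
    ∫ t in (0:ℝ)..R, qf M t = Real.pi * M ^ 2 / 2 := by
  have hc := qf_continuous M
  rw [← intervalIntegral.integral_add_adjacent_intervals (b := 2 * M)
    (hc.intervalIntegrable _ _) (hc.intervalIntegrable _ _), integral_qf M hM]
  have : ∫ t in (2 * M)..R, qf M t = 0 := by
    rw [intervalIntegral.integral_congr (g := fun _ => 0)]
    · simp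
    · intro t ht
      rw [Set.uIcc_of_le hR] at ht
      exact qf_eq_zero M t hM.le ht.1
  rw [this, add_zero]

lemma integral_gsum (M : ℝ) (R : ℕ) (hM : 0 < M) (hR : 2 * M ≤ R) :
    ∫ a in (0:ℝ)..1, gsum M R a = Real.pi * M ^ 2 / 2 := by
  rw [← integral_qf_R M R hM hR, unfold_integral _ R (fun x y => (qf_continuous M).intervalIntegrable _ _)]
  rfl

/-- the row sum with a row at the top is smaller than the mean by a definite amount. -/
lemma gsum_zero_le (M : ℝ) (R : ℕ) (hM : 1 / 2 ≤ M) (hR : 2 * M + 2 ≤ R) :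
    gsum M R 0 ≤ Real.pi * M ^ 2 / 2 - Real.sqrt M / 144 := by
  have hM0 : 0 < M := by linarith
  set L := ⌊2 * M⌋₊ with hL
  have hL1 : (L:ℝ) ≤ 2 * M := Nat.floor_le (by linarith)
  have hL2 : 2 * M < L + 1 := Nat.lt_floor_add_one _
  set b := 2 * M - L with hb
  have hb0 : 0 ≤ b := by linarith
  have hb1 : b < 1 := by linarith
  have hbe : 2 * M = L + b := by linarith
  have hRL : L + 2 ≤ R := by
    have : (L:ℝ) + 2 ≤ R := by linarith
    exact_mod_cast this
  have hint := integral_gsum M R hM0 (by linarith)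
  have hgc := gsum_continuous M R
  have hs0 : 0 ≤ Real.sqrt M := Real.sqrt_nonneg M
  rw [← intervalIntegral.integral_add_adjacent_intervals (b := b)
    (hgc.intervalIntegrable _ _) (hgc.intervalIntegrable _ _)] at hint
  have i1 : ∫ a in (0:ℝ)..b, (gsum M R 0 + Real.sqrt M / 6 * (a * (b - a))) ≤
      ∫ a in (0:ℝ)..b, gsum M R a := by
    apply intervalIntegral.integral_mono_on hb0 (Continuous.intervalIntegrable (by fun_prop) _ _)
      (hgc.intervalIntegrable _ _)
    intro a ha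
    exact gsum_lower1 M R L b hM hRL hbe hb0 hb1.le a ha.1 ha.2
  have i2 : ∫ a in b..1, (gsum M R 0 + Real.sqrt M / 6 * ((a - b) * (1 - a))) ≤
      ∫ a in b..1, gsum M R a := by
    apply intervalIntegral.integral_mono_on hb1.le (Continuous.intervalIntegrable (by fun_prop) _ _)
      (hgc.intervalIntegrable _ _)
    intro a ha
    exact gsum_lower2 M R L b hM hRL hbe hb0 hb1 a ha.1 ha.2
  have v1 : ∫ a in (0:ℝ)..b, (gsum M R 0 + Real.sqrt M / 6 * (a * (b - a))) =
      gsum M R 0 * b + Real.sqrt M / 6 * (b ^ 3 / 6) := by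
    rw [intervalIntegral.integral_eq_sub_of_hasDerivAt
      (f := fun a => gsum M R 0 * a + Real.sqrt M / 6 * (b * (a ^ 2 / 2) - a ^ 3 / 3))]
    · ring
    · intro a _
      have h1 := (hasDerivAt_id a).const_mul (gsum M R 0)
      have h2 := ((((hasDerivAt_pow 2 a).div_const 2).const_mul b).sub
        ((hasDerivAt_pow 3 a).div_const 3)).const_mul (Real.sqrt M / 6)
      refine (h1.add h2).congr_deriv ?_
      simp only [Nat.cast_ofNat, show 2 - 1 = 1 from rfl, show 3 - 1 = 2 from rfl, pow_one]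
      ring
    · exact Continuous.intervalIntegrable (by fun_prop) _ _
  have v2 : ∫ a in b..1, (gsum M R 0 + Real.sqrt M / 6 * ((a - b) * (1 - a))) =
      gsum M R 0 * (1 - b) + Real.sqrt M / 6 * ((1 - b) ^ 3 / 6) := by
    rw [intervalIntegral.integral_eq_sub_of_hasDerivAt
      (f := fun a => gsum M R 0 * a + Real.sqrt M / 6 * ((1 + b) * (a ^ 2 / 2) - a ^ 3 / 3 - b * a))]
    · ring
    · intro a _
      have h1 := (hasDerivAt_id a).const_mul (gsum M R 0)
      have h2 := (((((hasDerivAt_pow 2 a).div_const 2).const_mul (1 + b)).sub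
        ((hasDerivAt_pow 3 a).div_const 3)).sub ((hasDerivAt_id a).const_mul b)).const_mul
          (Real.sqrt M / 6)
      refine (h1.add h2).congr_deriv ?_
      simp only [Nat.cast_ofNat, show 2 - 1 = 1 from rfl, show 3 - 1 = 2 from rfl, pow_one]
      ring
    · exact Continuous.intervalIntegrable (by fun_prop) _ _
  have hcube : 1 / 4 ≤ b ^ 3 + (1 - b) ^ 3 := by nlinarith [sq_nonneg (b - 1 / 2)]
  have h3 : Real.sqrt M / 6 * (1 / 24) ≤
      Real.sqrt M / 6 * (b ^ 3 / 6) + Real.sqrt M / 6 * ((1 - b) ^ 3 / 6) := by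
    rw [← mul_add]; exact mul_le_mul_of_nonneg_left (by linarith) (by positivity)
  rw [v1] at i1
  rw [v2] at i2
  linarith

/-- upper bound near the cusp. -/
lemma gsum_near (M : ℝ) (R : ℕ) (hM : 1 / 2 ≤ M) (hR : 2 * M + 2 ≤ R) (a : ℝ) (ha0 : 0 ≤ a)
    (ha1 : a ≤ 1) : gsum M R a ≤ gsum M R 0 + 4 * Real.sqrt (M * a) := by
  have hM0 : 0 < M := by linarith
  set I := ⌊2 * M - a⌋₊ with hI
  have hI1 : (I:ℝ) ≤ 2 * M - a := Nat.floor_le (by linarith)
  have hI2 : 2 * M - a < I + 1 := Nat.lt_floor_add_one _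
  have hRI : I + 1 ≤ R := by
    have : (I:ℝ) + 1 ≤ R := by linarith
    exact_mod_cast this
  have ea := gsum_trunc M R (I + 1) a hM0.le hRI (by push_cast; linarith)
  have e0 : ∑ i ∈ Finset.range (I + 1), qf M (0 + i) ≤ gsum M R 0 := by
    unfold gsum
    exact Finset.sum_le_sum_of_subset_of_nonneg (Finset.range_mono hRI) (fun i _ _ => qf_nonneg M _)
  have h1a : 0 < 1 + a := by linarith
  have hstep : ∀ i ∈ Finset.range I, qf M (a + ((i + 1 : ℕ) : ℝ)) - qf M (0 + ((i + 1 : ℕ) : ℝ)) ≤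
      a * (qf M ((i + 1 : ℕ) : ℝ) - qf M (i : ℝ)) := by
    intro i hi
    have hi' : i + 1 ≤ I := Finset.mem_range.mp hi
    have hi'' : (i:ℝ) + 1 ≤ I := by exact_mod_cast hi'
    have hi0 : (0:ℝ) ≤ i := Nat.cast_nonneg i
    have h := qf_concave M (i:ℝ) (i + 1 + a) (a / (1 + a)) hi0 (by linarith) (by positivity)
      (by linarith) (by positivity) ((div_le_one h1a).mpr (by linarith))
    have ez : a / (1 + a) * i + (1 - a / (1 + a)) * (i + 1 + a) = i + 1 := by
      field_simp; ring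
    rw [ez] at h
    have h2 : a / (1 + a) * qf M i + (1 - a / (1 + a)) * qf M (i + 1 + a) =
        (a * qf M i + qf M (i + 1 + a)) / (1 + a) := by field_simp; ring
    rw [h2, div_le_iff₀ h1a] at h
    push_cast
    rw [zero_add, show a + ((i:ℝ) + 1) = i + 1 + a by ring]
    nlinarith
  have hsum := Finset.sum_le_sum hstep
  rw [Finset.sum_sub_distrib, ← Finset.mul_sum, Finset.sum_range_sub (fun i : ℕ => qf M (i:ℝ))] at hsum
  rw [Finset.sum_range_succ'] at ea e0
  simp only [Nat.cast_zero, add_zero, zero_add, qf_zero, sub_zero] at ea e0 hsum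
  have hqa : qf M a ≤ Real.sqrt 2 * Real.sqrt (M * a) := by
    unfold qf
    rw [← Real.sqrt_mul (by norm_num)]
    apply Real.sqrt_le_sqrt
    nlinarith
  have hqI : qf M (I:ℝ) ≤ 2 * Real.sqrt M := by
    unfold qf
    rw [show (2:ℝ) = Real.sqrt 4 by rw [show (4:ℝ) = 2 ^ 2 by norm_num, Real.sqrt_sq (by norm_num)],
      ← Real.sqrt_mul (by norm_num)]
    apply Real.sqrt_le_sqrt
    have h4 : (0:ℝ) ≤ I := Nat.cast_nonneg I
    rw [show Real.sqrt 4 = 2 by rw [show (4:ℝ) = 2 ^ 2 by norm_num, Real.sqrt_sq (by norm_num)]]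
    nlinarith
  have hsa : a * (2 * Real.sqrt M) ≤ 2 * Real.sqrt (M * a) := by
    rw [Real.sqrt_mul hM0.le]
    have h5 : a ≤ Real.sqrt a := by
      apply Real.le_sqrt_of_sq_le; nlinarith
    have h6 := Real.sqrt_nonneg M
    nlinarith
  have h7 : a * qf M (I:ℝ) ≤ a * (2 * Real.sqrt M) := mul_le_mul_of_nonneg_left hqI ha0
  have h8 : Real.sqrt 2 ≤ 2 := by
    rw [Real.sqrt_le_left (by norm_num)]; norm_num
  have h9 : Real.sqrt 2 * Real.sqrt (M * a) ≤ 2 * Real.sqrt (M * a) :=
    mul_le_mul_of_nonneg_right h8 (Real.sqrt_nonneg _)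
  rw [ea]
  simp only [zero_add] at *
  linarith

/-- the main term. -/
lemma integral_tent_qf (ρ M : ℝ) (R : ℕ) (hρ : 0 < ρ) (hρ1 : ρ ≤ 1 / 4) (hM : 1 / 2 ≤ M)
    (hR : 2 * M + 2 ≤ R) :
    ∫ t in (0:ℝ)..(2 * M), tent ρ (t - ρ) * qf M t ≤
      Real.pi * M ^ 2 / 2 - Real.sqrt M / 144 + 4 * Real.sqrt (2 * ρ * M) := by
  have hM0 : 0 < M := by linarith
  have hqc := qf_continuous M
  have htc : Continuous fun t => tent ρ (t - ρ) := (tent_continuous ρ).comp (by fun_prop)
  have hfc : Continuous fun t => tent ρ (t - ρ) * qf M t := htc.mul hqc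
  have hgc := gsum_continuous M R
  have h1 : ∫ t in (0:ℝ)..(2 * M), tent ρ (t - ρ) * qf M t =
      ∫ t in (0:ℝ)..R, tent ρ (t - ρ) * qf M t := by
    rw [← intervalIntegral.integral_add_adjacent_intervals (a := 0) (b := 2 * M) (c := (R:ℝ))
      (hfc.intervalIntegrable _ _) (hfc.intervalIntegrable _ _)]
    have : ∫ t in (2 * M)..R, tent ρ (t - ρ) * qf M t = 0 := by
      rw [intervalIntegral.integral_congr (g := fun _ => 0)]
      · simp
      · intro t ht
        rw [Set.uIcc_of_le (by linarith)] at ht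
        simp only [qf_eq_zero M t hM0.le ht.1, mul_zero]
    rw [this, add_zero]
  rw [h1, unfold_integral _ R (fun x y => hfc.intervalIntegrable _ _)]
  have hper : ∀ (a : ℝ) (i : ℕ), tent ρ (a + i - ρ) = tent ρ (a - ρ) := by
    intro a i
    induction i with
    | zero => simp
    | succ n ih =>
      rw [← ih, ← tent_add_one ρ (a + n - ρ)]; congr 1; push_cast; ring
  have h2 : ∀ a : ℝ, ∑ i ∈ Finset.range R, tent ρ (a + i - ρ) * qf M (a + i) =
      tent ρ (a - ρ) * gsum M R a := by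
    intro a; unfold gsum; rw [Finset.mul_sum]
    apply Finset.sum_congr rfl; intro i _; rw [hper]
  simp_rw [h2]
  set B := gsum M R 0 + 4 * Real.sqrt (2 * ρ * M) with hB
  have h3 : ∫ a in (0:ℝ)..1, tent ρ (a - ρ) * gsum M R a ≤ ∫ a in (0:ℝ)..1, tent ρ (a - ρ) * B := by
    have j1 : IntervalIntegrable (fun a => tent ρ (a - ρ) * gsum M R a) volume 0 1 :=
      (htc.mul hgc).intervalIntegrable _ _
    have j2 : IntervalIntegrable (fun a => tent ρ (a - ρ) * B) volume 0 1 :=
      (htc.mul continuous_const).intervalIntegrable _ _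
    apply intervalIntegral.integral_mono_on zero_le_one j1 j2
    intro a ha
    by_cases hcase : a ≤ 2 * ρ
    · apply mul_le_mul_of_nonneg_left _ (tent_nonneg ρ _ hρ)
      have := gsum_near M R hM hR a ha.1 ha.2
      have h4 : Real.sqrt (M * a) ≤ Real.sqrt (2 * ρ * M) := by
        apply Real.sqrt_le_sqrt; nlinarith
      rw [hB]; linarith
    · have hcase' : 2 * ρ < a := not_le.mp hcase
      have hfl : ⌊a - ρ⌋ = 0 := by
        rw [Int.floor_eq_iff]; simp; constructor <;> linarith [ha.2]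
      have hz : tent ρ (a - ρ) = 0 := by
        apply tent_eq_zero ρ _ hρ <;> rw [hfl] <;> simp <;> linarith [ha.2]
      rw [hz]; simp
  have h5 : ∫ a in (0:ℝ)..1, tent ρ (a - ρ) * B = B := by
    rw [intervalIntegral.integral_mul_const, integral_tent_shift ρ ρ hρ, one_mul]
  have h6 := gsum_zero_le M R hM hR
  rw [h5] at h3
  linarith

end Pool.Agent.Work.MP_33c50c_an
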