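import Mathlib
import Pool.Agent.Work.MP_33c50c_an.Lat4

namespace Pool.Agent.Work.MP_33c50c_an

open MeasureTheory intervalIntegral

/-- the integers of one row. -/
noncomputable def rowset (M D γ t : ℝ) : Finset ℤ :=
  if 0 < t ∧ t < 2 * M then
    Finset.Icc (-⌈D * qf M t + γ * (M - t)⌉ + 1) (⌈D * qf M t - γ * (M - t)⌉ - 1)
  else ∅

lemma mem_rowset (M D γ t : ℝ) (hM : 0 < M) (hD : 0 < D) (n : ℤ)
    (h : ((n:ℝ) + γ * (M - t)) ^ 2 + (D * (M - t)) ^ 2 < (D * M) ^ 2) : n ∈ rowset M D γ t := by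
  have h1 : (D * (M - t)) ^ 2 < (D * M) ^ 2 := by nlinarith [sq_nonneg ((n:ℝ) + γ * (M - t))]
  have h2 : 0 < D ^ 2 * (t * (2 * M - t)) := by nlinarith
  have h3 : 0 < t * (2 * M - t) := by
    by_contra hc
    have : D ^ 2 * (t * (2 * M - t)) ≤ 0 := mul_nonpos_of_nonneg_of_nonpos (by positivity) (not_lt.mp hc)
    linarith
  have h4 : 0 < t ∧ t < 2 * M := by
    rcases (mul_pos_iff.mp h3) with h | h
    · exact ⟨h.1, by linarith [h.2]⟩
    · exfalso; linarith [h.1, h.2]
  unfold rowset
  rw [if_pos h4, Finset.mem_Icc]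
  have hq := qf_sq M t h4.1.le h4.2.le
  have hq0 := qf_nonneg M t
  have h5 : ((n:ℝ) + γ * (M - t)) ^ 2 < (D * qf M t) ^ 2 := by
    rw [mul_pow, hq]; nlinarith
  have h6 := abs_lt_of_sq_lt_sq h5 (by positivity)
  rw [abs_lt] at h6
  constructor
  · have : -n < ⌈D * qf M t + γ * (M - t)⌉ := by
      rw [Int.lt_ceil]; push_cast; linarith [h6.1]
    omega
  · have : n < ⌈D * qf M t - γ * (M - t)⌉ := by
      rw [Int.lt_ceil]; linarith [h6.2]
    omega

/-- the smooth majorant of the row counts. -/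
noncomputable def hmaj (M D γ δ t : ℝ) : ℝ :=
  2 * D * qf M t + δ + (Edel δ (D * qf M t + γ * t + -(γ * M)) +
    Edel δ (D * qf M t + (-γ) * t + γ * M)) / (2 * δ)

lemma hmaj_continuous (M D γ δ : ℝ) : Continuous (hmaj M D γ δ) := by
  have h1 := qf_continuous M
  have h2 := Edel_continuous δ
  unfold hmaj
  fun_prop

lemma card_rowset_le (M D γ δ t : ℝ) (hD : 0 < D) (hδ : 0 < δ) :
    ((rowset M D γ t).card : ℝ) ≤ Set.indicator (Set.Ioo 0 (2 * M)) (hmaj M D γ δ) t := by
  unfold rowset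
  by_cases h : 0 < t ∧ t < 2 * M
  · rw [if_pos h, Set.indicator_of_mem (show t ∈ Set.Ioo 0 (2 * M) from h), Int.card_Icc]
    set s := D * qf M t with hs
    set θ := γ * (M - t) with hθ
    have hs0 : 0 < s := mul_pos hD (qf_pos M t h.1 h.2)
    have c1 := Int.le_ceil (s + θ)
    have c2 := Int.le_ceil (s - θ)
    have h3 : 0 < ⌈s - θ⌉ + ⌈s + θ⌉ := by
      have : (0:ℝ) < ((⌈s - θ⌉ + ⌈s + θ⌉ : ℤ) : ℝ) := by push_cast; linarith
      exact_mod_cast this
    have h4 : ((⌈s - θ⌉ - 1 + 1 - (-⌈s + θ⌉ + 1)).toNat : ℝ) = ((⌈s - θ⌉ + ⌈s + θ⌉ - 1 : ℤ) : ℝ) := by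
      have : ((⌈s - θ⌉ - 1 + 1 - (-⌈s + θ⌉ + 1)).toNat : ℤ) = ⌈s - θ⌉ + ⌈s + θ⌉ - 1 := by omega
      exact_mod_cast this
    rw [h4]
    have s1 := sawtooth_le (s - θ) δ hδ
    have s2 := sawtooth_le (s + θ) δ hδ
    unfold hmaj
    rw [← hs]
    have e1 : s + γ * t + -(γ * M) = s - θ := by rw [hθ]; ring
    have e2 : s + (-γ) * t + γ * M = s + θ := by rw [hθ]; ring
    rw [e1, e2]
    have e3 : (Edel δ (s - θ) + Edel δ (s + θ)) / (2 * δ) =
        ((Phi (s - θ + δ) - Phi (s - θ)) / δ + (Phi (s + θ + δ) - Phi (s + θ)) / δ) / 2 := by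
      unfold Edel; field_simp
    rw [e3]
    push_cast
    have e4 : 2 * D * qf M t = 2 * s := by rw [hs]; ring
    rw [e4]
    linarith
  · rw [if_neg h, Set.indicator_of_notMem (show t ∉ Set.Ioo 0 (2 * M) from h)]
    simp

lemma integral_tent_hmaj (ρ M D γ δ : ℝ) (R : ℕ) (hρ : 0 < ρ) (hρ1 : ρ ≤ 1 / 4) (hM : 1 / 2 ≤ M)
    (hR : 2 * M + 2 ≤ R) (hD : 0 < D) (hδ : 0 < δ) :
    ∫ t in (0:ℝ)..(2 * M), tent ρ (t - ρ) * hmaj M D γ δ t ≤
      2 * D * (Real.pi * M ^ 2 / 2 - Real.sqrt M / 144 + 4 * Real.sqrt (2 * ρ * M)) +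
      δ * (2 * M * (1 + 1 / (4 * ρ ^ 2))) + Cker ρ * Real.sqrt (M / D) := by
  have hM0 : 0 < M := by linarith
  have hqc := qf_continuous M
  have hEc := Edel_continuous δ
  have htc : Continuous fun t => tent ρ (t - ρ) := (tent_continuous ρ).comp (by fun_prop)
  have i1 : IntervalIntegrable (fun t => tent ρ (t - ρ) * qf M t) volume 0 (2 * M) :=
    (htc.mul hqc).intervalIntegrable _ _
  have i2 : IntervalIntegrable (fun t => tent ρ (t - ρ)) volume 0 (2 * M) :=
    htc.intervalIntegrable _ _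
  have c3 : Continuous fun t => Edel δ (D * qf M t + γ * t + -(γ * M)) := by fun_prop
  have c4 : Continuous fun t => Edel δ (D * qf M t + (-γ) * t + γ * M) := by fun_prop
  have i3 : IntervalIntegrable (fun t => tent ρ (t - ρ) *
      Edel δ (D * qf M t + γ * t + -(γ * M))) volume 0 (2 * M) :=
    (htc.mul c3).intervalIntegrable _ _
  have i4 : IntervalIntegrable (fun t => tent ρ (t - ρ) *
      Edel δ (D * qf M t + (-γ) * t + γ * M)) volume 0 (2 * M) :=
    (htc.mul c4).intervalIntegrable _ _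
  have e : ∀ t, tent ρ (t - ρ) * hmaj M D γ δ t =
      (2 * D * (tent ρ (t - ρ) * qf M t) + δ * tent ρ (t - ρ)) +
      (1 / (2 * δ)) * (tent ρ (t - ρ) * Edel δ (D * qf M t + γ * t + -(γ * M)) +
        tent ρ (t - ρ) * Edel δ (D * qf M t + (-γ) * t + γ * M)) := by
    intro t; unfold hmaj; ring
  simp_rw [e]
  rw [intervalIntegral.integral_add ((i1.const_mul _).add (i2.const_mul _))
    ((i3.add i4).const_mul _), intervalIntegral.integral_add (i1.const_mul _) (i2.const_mul _),
    intervalIntegral.integral_const_mul, intervalIntegral.integral_const_mul,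
    intervalIntegral.integral_const_mul, intervalIntegral.integral_add i3 i4]
  have b1 := integral_tent_qf ρ M R hρ hρ1 hM hR
  have b2 : ∫ t in (0:ℝ)..(2 * M), tent ρ (t - ρ) ≤ 2 * M * (1 + 1 / (4 * ρ ^ 2)) := by
    have : ∫ t in (0:ℝ)..(2 * M), tent ρ (t - ρ) ≤ ∫ _t in (0:ℝ)..(2 * M), (1 + 1 / (4 * ρ ^ 2)) := by
      apply intervalIntegral.integral_mono_on (by linarith) i2 intervalIntegrable_const
      intro t _; exact tent_le ρ _ hρ
    rw [intervalIntegral.integral_const] at this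
    simpa using this
  have b3 := (abs_le.mp (osc_tent ρ M D γ (-(γ * M)) δ hρ hM0 hD hδ)).2
  have b4 := (abs_le.mp (osc_tent ρ M D (-γ) (γ * M) δ hρ hM0 hD hδ)).2
  have b5 := mul_le_mul_of_nonneg_left b1 (by positivity : 0 ≤ 2 * D)
  have b6 := mul_le_mul_of_nonneg_left b2 hδ.le
  have b7 : (1 / (2 * δ)) * ((∫ t in (0:ℝ)..(2 * M), tent ρ (t - ρ) *
      Edel δ (D * qf M t + γ * t + -(γ * M))) + ∫ t in (0:ℝ)..(2 * M), tent ρ (t - ρ) *
      Edel δ (D * qf M t + (-γ) * t + γ * M)) ≤ Cker ρ * Real.sqrt (M / D) := by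
    have h8 := mul_le_mul_of_nonneg_left (add_le_add b3 b4) (by positivity : 0 ≤ 1 / (2 * δ))
    refine h8.trans (le_of_eq ?_)
    field_simp; ring
  linarith

/-- **Lattice lemma**, sheared rows. -/
theorem lattice_core : ∃ D₀ : ℝ, 1 ≤ D₀ ∧ ∀ D, D₀ ≤ D → ∀ γ μ : ℝ, 0 < μ →
    ∃ κ : ℝ, ∃ S : Finset (ℤ × ℤ),
      (∀ n m : ℤ, ((n:ℝ) + γ * (m + κ)) ^ 2 + (D * (m + κ)) ^ 2 < μ ^ 2 → (n, m) ∈ S) ∧
      (S.card : ℝ) ≤ Real.pi * μ ^ 2 / D := by
  set ρ : ℝ := 1 / 2654208 with hρdef
  have hρ : 0 < ρ := by rw [hρdef]; norm_num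
  have hρ1 : ρ ≤ 1 / 4 := by rw [hρdef]; norm_num
  set C := Cker ρ with hC
  have hC0 : 0 ≤ C := Cker_nonneg ρ
  refine ⟨144 * C + 1, by linarith, ?_⟩
  intro D hDD γ μ hμ
  have hD1 : 1 ≤ D := by linarith
  have hD : 0 < D := by linarith
  set M := μ / D with hMdef
  have hM0 : 0 < M := by positivity
  have hμM : μ = D * M := by rw [hMdef]; field_simp
  rcases lt_or_ge M (1 / 2) with hM | hM
  · refine ⟨1 / 2, ∅, ?_, ?_⟩
    · intro n m h
      exfalso
      have h1 : (D * ((m:ℝ) + 1 / 2)) ^ 2 < (D * M) ^ 2 := by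
        rw [← hμM]; nlinarith [sq_nonneg ((n:ℝ) + γ * (m + 1 / 2))]
      have h2 : (1 / 2 : ℝ) ^ 2 ≤ ((m:ℝ) + 1 / 2) ^ 2 := by
        have : (0:ℝ) ≤ (m:ℝ) * (m + 1) := by
          have : (0:ℤ) ≤ m * (m + 1) := by
            rcases le_or_gt 0 m with h | h
            · positivity
            · nlinarith
          exact_mod_cast this
        nlinarith
      have h3 : D ^ 2 * (1 / 2) ^ 2 ≤ D ^ 2 * ((m:ℝ) + 1 / 2) ^ 2 :=
        mul_le_mul_of_nonneg_left h2 (by positivity)
      have h4 : D ^ 2 * M ^ 2 ≤ D ^ 2 * (1 / 2) ^ 2 := by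
        apply mul_le_mul_of_nonneg_left _ (by positivity)
        exact pow_le_pow_left₀ hM0.le hM.le 2
      rw [mul_pow, mul_pow] at h1
      linarith
    · simp; positivity
  · by_contra hcon
    push Not at hcon
    set P := Real.pi * μ ^ 2 / D with hP
    have hP0 : 0 ≤ P := by positivity
    have hPM : P = 2 * D * (Real.pi * M ^ 2 / 2) := by rw [hP, hμM]; field_simp
    set R := ⌈2 * M + 2⌉₊ with hR
    have hR2 : 2 * M + 2 ≤ R := Nat.le_ceil _
    -- the counting inequality for every phase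
    have hcount : ∀ δ : ℝ, 0 < δ → ∀ a ∈ Set.Icc (0:ℝ) 1,
        P ≤ ∑ i ∈ Finset.range R, Set.indicator (Set.Ioo 0 (2 * M)) (hmaj M D γ δ) (a + i) := by
      intro δ hδ a ha
      have h := hcon (M - a) ((Finset.range R).biUnion
        (fun i => (rowset M D γ (a + i)).image (fun n => (n, -(i:ℤ))))) ?_
      · have hc1 := Finset.card_biUnion_le (s := Finset.range R)
          (t := fun i => (rowset M D γ (a + i)).image (fun n => (n, -(i:ℤ))))
        have hc2 : ∑ i ∈ Finset.range R, ((rowset M D γ (a + i)).image (fun n => (n, -(i:ℤ)))).card ≤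
            ∑ i ∈ Finset.range R, (rowset M D γ (a + i)).card :=
          Finset.sum_le_sum (fun i _ => Finset.card_image_le)
        have hc3 : ((((Finset.range R).biUnion
            (fun i => (rowset M D γ (a + i)).image (fun n => (n, -(i:ℤ))))).card : ℕ) : ℝ) ≤
            ∑ i ∈ Finset.range R, ((rowset M D γ (a + i)).card : ℝ) := by
          exact_mod_cast hc1.trans hc2
        have hc4 : ∑ i ∈ Finset.range R, ((rowset M D γ (a + i)).card : ℝ) ≤
            ∑ i ∈ Finset.range R, Set.indicator (Set.Ioo 0 (2 * M)) (hmaj M D γ δ) (a + i) :=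
          Finset.sum_le_sum (fun i _ => card_rowset_le M D γ δ _ hD hδ)
        linarith
      · intro n m hnm
        rw [hμM] at hnm
        have h1 : (D * ((m:ℝ) + (M - a))) ^ 2 < (D * M) ^ 2 := by
          nlinarith [sq_nonneg ((n:ℝ) + γ * (m + (M - a)))]
        have h2 := abs_lt_of_sq_lt_sq h1 (by positivity)
        rw [abs_mul, abs_of_pos hD] at h2
        have h3 := lt_of_mul_lt_mul_left h2 hD.le
        rw [abs_lt] at h3
        have hm0 : m ≤ 0 := by
          have : (m:ℝ) < 1 := by linarith [h3.2, ha.2]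
          have : m < 1 := by exact_mod_cast this
          omega
        obtain ⟨i, hi⟩ : ∃ i : ℕ, m = -(i:ℤ) := ⟨m.natAbs, by omega⟩
        have hmi : (m:ℝ) = -(i:ℝ) := by rw [hi]; push_cast; ring
        have hiR : i < R := by
          have : (i:ℝ) < R := by linarith [h3.1, ha.1]
          exact_mod_cast this
        simp only [Finset.mem_biUnion, Finset.mem_range, Finset.mem_image, Prod.mk.injEq]
        refine ⟨i, hiR, n, ?_, rfl, hi.symm⟩
        apply mem_rowset M D γ _ hM0 hD
        have e : M - (a + i) = m + (M - a) := by rw [hmi]; ring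
        rw [e]; exact hnm
    -- averaging
    have hkey : ∀ δ : ℝ, 0 < δ → D * Real.sqrt M / 144 ≤
        δ * (2 * M * (1 + 1 / (4 * ρ ^ 2))) + C * Real.sqrt (M / D) := by
      intro δ hδ
      have htc : Continuous fun t => tent ρ (t - ρ) := (tent_continuous ρ).comp (by fun_prop)
      have hfc : Continuous fun t => tent ρ (t - ρ) * hmaj M D γ δ t :=
        htc.mul (hmaj_continuous M D γ δ)
      set f : ℝ → ℝ := Set.indicator (Set.Ioo 0 (2 * M)) (fun t => tent ρ (t - ρ) * hmaj M D γ δ t)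
        with hf
      have hfi : ∀ x y : ℝ, IntervalIntegrable f volume x y := by
        intro x y
        rw [intervalIntegrable_iff]
        exact (intervalIntegrable_iff.mp (hfc.intervalIntegrable x y)).indicator measurableSet_Ioo
      have hun := unfold_integral f R hfi
      have hper : ∀ (a : ℝ) (i : ℕ), tent ρ (a + i - ρ) = tent ρ (a - ρ) := by
        intro a i
        induction i with
        | zero => simp
        | succ n ih =>
          rw [← ih, ← tent_add_one ρ (a + n - ρ)]; congr 1; push_cast; ring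
      have hfa : ∀ a : ℝ, ∑ i ∈ Finset.range R, f (a + i) = tent ρ (a - ρ) *
          ∑ i ∈ Finset.range R, Set.indicator (Set.Ioo 0 (2 * M)) (hmaj M D γ δ) (a + i) := by
        intro a
        rw [Finset.mul_sum]
        apply Finset.sum_congr rfl
        intro i _
        rw [hf]
        by_cases h : a + (i:ℝ) ∈ Set.Ioo 0 (2 * M)
        · rw [Set.indicator_of_mem h, Set.indicator_of_mem h, hper]
        · rw [Set.indicator_of_notMem h, Set.indicator_of_notMem h, mul_zero]
      have hPle : P ≤ ∫ a in (0:ℝ)..1, ∑ i ∈ Finset.range R, f (a + i) := by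
        have h1 : P = ∫ a in (0:ℝ)..1, tent ρ (a - ρ) * P := by
          rw [intervalIntegral.integral_mul_const, integral_tent_shift ρ ρ hρ, one_mul]
        rw [h1]
        have j1 : IntervalIntegrable (fun a => tent ρ (a - ρ) * P) volume 0 1 :=
          (htc.mul continuous_const).intervalIntegrable _ _
        have j2 : IntervalIntegrable (fun a => ∑ i ∈ Finset.range R, f (a + i)) volume 0 1 := by
          have e0 : (fun a => ∑ i ∈ Finset.range R, f (a + i)) =
              ∑ i ∈ Finset.range R, fun a => f (a + i) := by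
            ext a; rw [Finset.sum_apply]
          rw [e0]
          apply IntervalIntegrable.sum
          intro i _
          have := (hfi (0 + i) (1 + i)).comp_add_right (i:ℝ)
          simpa using this
        apply intervalIntegral.integral_mono_on zero_le_one j1 j2
        intro a ha
        rw [hfa]
        exact mul_le_mul_of_nonneg_left (hcount δ hδ a ha) (tent_nonneg ρ _ hρ)
      rw [← hun] at hPle
      have hsplit : ∫ t in (0:ℝ)..R, f t = ∫ t in (0:ℝ)..(2 * M), tent ρ (t - ρ) * hmaj M D γ δ t := by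
        rw [← intervalIntegral.integral_add_adjacent_intervals (b := 2 * M) (hfi _ _) (hfi _ _)]
        have z : ∫ t in (2 * M)..R, f t = 0 := by
          rw [intervalIntegral.integral_congr (g := fun _ => 0)]
          · simp
          · intro t ht
            rw [Set.uIcc_of_le (by linarith)] at ht
            apply Set.indicator_of_notMem
            intro h; exact absurd h.2 (not_lt.mpr ht.1)
        rw [z, add_zero, intervalIntegral.integral_of_le (by positivity),
          intervalIntegral.integral_of_le (by positivity), integral_Ioc_eq_integral_Ioo,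
          integral_Ioc_eq_integral_Ioo]
        apply setIntegral_congr_fun measurableSet_Ioo
        intro t ht
        exact Set.indicator_of_mem ht _
      rw [hsplit] at hPle
      have hb := integral_tent_hmaj ρ M D γ δ R hρ hρ1 hM hR2 hD hδ
      have hsq : Real.sqrt (2 * ρ * M) = Real.sqrt M / 1152 := by
        rw [hρdef, show 2 * (1 / 2654208 : ℝ) * M = M * (1 / 1152) ^ 2 by ring,
          Real.sqrt_mul hM0.le, Real.sqrt_sq (by norm_num)]; ring
      rw [hsq] at hb
      have : P ≤ 2 * D * (Real.pi * M ^ 2 / 2 - Real.sqrt M / 144 + 4 * (Real.sqrt M / 1152)) +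
        δ * (2 * M * (1 + 1 / (4 * ρ ^ 2))) + C * Real.sqrt (M / D) := hPle.trans hb
      have e : 2 * D * (Real.pi * M ^ 2 / 2 - Real.sqrt M / 144 + 4 * (Real.sqrt M / 1152)) =
          P - D * Real.sqrt M / 144 := by rw [hPM]; ring
      rw [e] at this
      linarith
    -- let δ → 0
    have hlim : D * Real.sqrt M / 144 ≤ C * Real.sqrt (M / D) := by
      apply le_of_forall_pos_le_add
      intro ε hε
      have hT : 0 < 2 * M * (1 + 1 / (4 * ρ ^ 2)) := by positivity
      have := hkey (ε / (2 * M * (1 + 1 / (4 * ρ ^ 2)))) (by positivity)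
      rw [div_mul_cancel₀ _ hT.ne'] at this
      linarith
    have hsM : 0 < Real.sqrt M := Real.sqrt_pos.mpr hM0
    have hsD : 1 ≤ Real.sqrt D := by rw [Real.one_le_sqrt]; exact hD1
    rw [Real.sqrt_div hM0.le] at hlim
    have h1 : C * (Real.sqrt M / Real.sqrt D) ≤ C * Real.sqrt M := by
      apply mul_le_mul_of_nonneg_left _ hC0
      exact div_le_self hsM.le hsD
    have h2 : D * Real.sqrt M ≤ 144 * C * Real.sqrt M := by linarith
    have h3 := le_of_mul_le_mul_right h2 hsM
    linarith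

end Pool.Agent.Work.MP_33c50c_an
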