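import Mathlib
import Pool.Agent.Work.MP_33c50c_an.Lat5

namespace Pool.Agent.Work.MP_33c50c_an

/-- small shear. -/
theorem lattice_small_shear (D₀ : ℝ) (hD₀ : 1 ≤ D₀)
    (hcore : ∀ D, D₀ ≤ D → ∀ γ μ : ℝ, 0 < μ →
      ∃ κ : ℝ, ∃ S : Finset (ℤ × ℤ),
        (∀ n m : ℤ, ((n:ℝ) + γ * (m + κ)) ^ 2 + (D * (m + κ)) ^ 2 < μ ^ 2 → (n, m) ∈ S) ∧
        (S.card : ℝ) ≤ Real.pi * μ ^ 2 / D)
    (D β : ℝ) (hD : 2 * D₀ ≤ D) (hβ : D * β ^ 2 ≤ 1 / (2 * D₀)) (μ : ℝ) (hμ : 0 < μ) :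
    ∃ κ : ℝ, ∃ S : Finset (ℤ × ℤ),
      (∀ n m : ℤ, (n:ℝ) ^ 2 + (D * (m + κ - n * β)) ^ 2 < μ ^ 2 → (n, m) ∈ S) ∧
      (S.card : ℝ) ≤ Real.pi * μ ^ 2 / D := by
  have hDpos : 0 < D := by linarith
  have hD0pos : 0 < D₀ := by linarith
  set E := 1 + D ^ 2 * β ^ 2 with hE
  have hEpos : 0 < E := by positivity
  set e := Real.sqrt E with he
  have hepos : 0 < e := Real.sqrt_pos.mpr hEpos
  have hesq : e ^ 2 = E := Real.sq_sqrt hEpos.le
  have h1 : D₀ ≤ D / E := by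
    rw [le_div_iff₀ hEpos, hE]
    have h2 : D₀ * (D * β ^ 2) ≤ D₀ * (1 / (2 * D₀)) := mul_le_mul_of_nonneg_left hβ hD0pos.le
    have h3 : D₀ * (1 / (2 * D₀)) = 1 / 2 := by field_simp
    have h4 : D₀ * (D * β ^ 2) * D ≤ 1 / 2 * D := by
      apply mul_le_mul_of_nonneg_right _ hDpos.le; linarith
    nlinarith
  obtain ⟨κ, S, hS, hcard⟩ := hcore (D / E) h1 (-(D ^ 2 * β / E)) (μ / e) (by positivity)
  refine ⟨κ, S, ?_, ?_⟩
  · intro n m h
    apply hS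
    have key : E * (((n:ℝ) + -(D ^ 2 * β / E) * (m + κ)) ^ 2 + (D / E * (m + κ)) ^ 2) =
        (n:ℝ) ^ 2 + (D * (m + κ - n * β)) ^ 2 := by
      have hE0 := hEpos.ne'
      have : E * (E * (((n:ℝ) + -(D ^ 2 * β / E) * (m + κ)) ^ 2 + (D / E * (m + κ)) ^ 2)) =
          (E * n - D ^ 2 * β * (m + κ)) ^ 2 + D ^ 2 * (m + κ) ^ 2 := by
        field_simp; ring
      have h2 : E * ((n:ℝ) ^ 2 + (D * (m + κ - n * β)) ^ 2) =
          (E * n - D ^ 2 * β * (m + κ)) ^ 2 + D ^ 2 * (m + κ) ^ 2 := by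
        rw [hE]; ring
      exact mul_left_cancel₀ hE0 (this.trans h2.symm)
    rw [div_pow, hesq, lt_div_iff₀ hEpos]
    calc (((n:ℝ) + -(D ^ 2 * β / E) * (m + κ)) ^ 2 + (D / E * (m + κ)) ^ 2) * E =
        E * (((n:ℝ) + -(D ^ 2 * β / E) * (m + κ)) ^ 2 + (D / E * (m + κ)) ^ 2) := by ring
      _ = _ := key
      _ < μ ^ 2 := h
  · refine hcard.trans (le_of_eq ?_)
    rw [div_pow, hesq]; field_simp

/-- **Lattice lemma**, every shear. -/
theorem lattice_lemma : ∃ D₁ : ℝ, 1 ≤ D₁ ∧ ∀ D, D₁ ≤ D → ∀ β μ : ℝ, 0 < μ →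
    ∃ κ : ℝ, ∃ S : Finset (ℤ × ℤ),
      (∀ n m : ℤ, (n:ℝ) ^ 2 + (D * (m + κ - n * β)) ^ 2 < μ ^ 2 → (n, m) ∈ S) ∧
      (S.card : ℝ) ≤ Real.pi * μ ^ 2 / D := by
  obtain ⟨D₀, hD₀, hcore⟩ := lattice_core
  have hD0pos : 0 < D₀ := by linarith
  refine ⟨8 * D₀ ^ 3, by nlinarith [pow_le_pow_left₀ zero_le_one hD₀ 3], ?_⟩
  intro D hD β μ hμ
  have hc3 : 1 ≤ D₀ ^ 3 := one_le_pow₀ hD₀
  have hDpos : 0 < D := by linarith
  -- the size of the denominators
  set x := Real.sqrt (2 * D₀ * D) with hx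
  have hxsq : x ^ 2 = 2 * D₀ * D := Real.sq_sqrt (by positivity)
  have hx0 : 0 ≤ x := Real.sqrt_nonneg _
  have hx1 : 1 ≤ x := by
    rw [hx, Real.one_le_sqrt]; nlinarith
  set Q := ⌊x⌋₊ with hQ
  have hQ1 : (Q:ℝ) ≤ x := Nat.floor_le hx0
  have hQ2 : x < Q + 1 := Nat.lt_floor_add_one _
  have hQpos : 0 < Q := Nat.floor_pos.mpr hx1
  obtain ⟨p, k, hk0, hkQ, hpk⟩ := Real.exists_int_int_abs_mul_sub_le β hQpos
  have hk0' : (0:ℝ) < k := by exact_mod_cast hk0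
  have hkQ' : (k:ℝ) ≤ x := le_trans (by exact_mod_cast hkQ) hQ1
  set β' := (k:ℝ) * β - p with hβ'
  have hb1 : |β'| ≤ 1 / x := by
    have e : (k:ℝ) * β - p = β' := rfl
    have : |β'| ≤ 1 / ((Q:ℝ) + 1) := by
      rw [hβ']; exact hpk
    refine this.trans ?_
    apply one_div_le_one_div_of_le (by linarith) hQ2.le
  have hb2 : β' ^ 2 ≤ 1 / (2 * D₀ * D) := by
    rw [← hxsq, ← sq_abs β']
    have := pow_le_pow_left₀ (abs_nonneg _) hb1 2
    rwa [div_pow, one_pow] at this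
  set D' := D / k with hD'
  have hD'pos : 0 < D' := by positivity
  have hD'1 : 2 * D₀ ≤ D' := by
    rw [hD', le_div_iff₀ hk0']
    have h1 : 2 * D₀ * (k:ℝ) ≤ 2 * D₀ * x := mul_le_mul_of_nonneg_left hkQ' (by positivity)
    have h2 : 2 * D₀ * x ≤ D := by
      apply le_of_sq_le _ hDpos.le
      rw [mul_pow, hxsq]
      have : (2 * D₀) ^ 2 * (2 * D₀ * D) = (8 * D₀ ^ 3) * D := by ring
      rw [this, sq D]; exact mul_le_mul_of_nonneg_right hD hDpos.le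
    linarith
  have hD'2 : D' * β' ^ 2 ≤ 1 / (2 * D₀) := by
    have hk1 : (1:ℝ) ≤ k := by exact_mod_cast hk0
    have h1 : D' ≤ D := by rw [hD']; exact div_le_self hDpos.le hk1
    calc D' * β' ^ 2 ≤ D * (1 / (2 * D₀ * D)) :=
          mul_le_mul h1 hb2 (sq_nonneg _) hDpos.le
      _ = 1 / (2 * D₀) := by field_simp
  obtain ⟨κ, S, hS, hcard⟩ := lattice_small_shear D₀ hD₀ hcore D' β' hD'1 hD'2 μ hμ
  -- average over the `k` shifts
  set kn := k.toNat with hkn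
  have hknk : (kn : ℤ) = k := Int.toNat_of_nonneg hk0.le
  have hknk' : (kn : ℝ) = k := by exact_mod_cast hknk
  have hkn0 : 0 < kn := by omega
  -- the pieces
  set T : ℕ → Finset (ℤ × ℤ) := fun a =>
    (S.filter (fun q => (q.2 + q.1 * p) % k = a)).image
      (fun q => (q.1, (q.2 + q.1 * p) / k)) with hT
  have hTcard : ∀ a, (T a).card ≤ (S.filter (fun q => (q.2 + q.1 * p) % k = (a:ℤ))).card :=
    fun a => Finset.card_image_le
  have hsum : ∑ a ∈ Finset.range kn, (S.filter (fun q => (q.2 + q.1 * p) % k = (a:ℤ))).card ≤ S.card := by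
    rw [← Finset.card_biUnion]
    · apply Finset.card_le_card
      intro q hq
      simp only [Finset.mem_biUnion, Finset.mem_filter] at hq
      obtain ⟨_, _, h, _⟩ := hq
      exact h
    · intro a _ a' _ haa'
      rw [Function.onFun, Finset.disjoint_left]
      intro q h1 h2
      simp only [Finset.mem_filter] at h1 h2
      apply haa'
      have := h1.2.symm.trans h2.2
      exact_mod_cast this
  have hex : ∃ a ∈ Finset.range kn, ((T a).card : ℝ) ≤ Real.pi * μ ^ 2 / D := by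
    by_contra hcon
    push Not at hcon
    have h1 : ∑ a ∈ Finset.range kn, (Real.pi * μ ^ 2 / D) < ∑ a ∈ Finset.range kn, ((T a).card : ℝ) :=
      Finset.sum_lt_sum_of_nonempty (by simpa using hkn0.ne') hcon
    rw [Finset.sum_const, Finset.card_range, nsmul_eq_mul] at h1
    have h2 : ∑ a ∈ Finset.range kn, ((T a).card : ℝ) ≤ S.card := by
      have := (Finset.sum_le_sum (fun a (_ : a ∈ Finset.range kn) => hTcard a)).trans hsum
      exact_mod_cast this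
    have h3 : (kn:ℝ) * (Real.pi * μ ^ 2 / D) = Real.pi * μ ^ 2 / D' := by
      rw [hD', hknk']; field_simp
    linarith
  obtain ⟨a, _, hle⟩ := hex
  have ha0 := Finset.mem_range.mp (by assumption : a ∈ Finset.range kn)
  refine ⟨(κ + a) / k, T a, ?_, hle⟩
  intro n m hnm
  simp only [hT, Finset.mem_image, Finset.mem_filter, Prod.mk.injEq, Prod.exists]
  refine ⟨n, k * m + a - n * p, ⟨?_, ?_⟩, rfl, ?_⟩
  · apply hS
    have e : D' * (((k * m + a - n * p : ℤ) : ℝ) + κ - n * β') =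
        D * (m + (κ + a) / k - n * β) := by
      rw [hD', hβ']; push_cast; field_simp; ring
    rw [e]; exact hnm
  · have : k * m + a - n * p + n * p = a + k * m := by ring
    rw [this, Int.add_mul_emod_self_left, Int.emod_eq_of_lt (by positivity) (by omega)]
  · have : k * m + a - n * p + n * p = a + k * m := by ring
    rw [this, Int.add_mul_ediv_left _ _ hk0.ne', Int.ediv_eq_zero_of_lt (by positivity) (by omega)]
    ring

end Pool.Agent.Work.MP_33c50c_an
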