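import Mathlib
import Pool.Agent.Work.MP_33c50c_an.Cyl2
import Pool.Agent.Work.MP_33c50c_an.Lat6

namespace Pool.Agent.Work.MP_33c50c_an

open MeasureTheory Set
open scoped ENNReal ContDiff

lemma mass_pos {Ω : Set Cyl} {u : Cyl → ℝ} (hu : IsTest Ω u) (hne : u ≠ 0) : 0 < mass u := by
  obtain ⟨x, hx⟩ := Function.ne_iff.mp hne
  have hc := cont_f u (test_lft hu)
  apply Continuous.integral_pos_of_hasCompactSupport_nonneg_nonzero (x := x) (hc.pow 2)
  · apply HasCompactSupport.of_support_subset_isCompact hu.2.1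
    intro p hp
    apply subset_tsupport
    intro h
    apply hp
    show u p ^ 2 = 0
    rw [h]; simp
  · intro p; exact sq_nonneg (u p)
  · exact pow_ne_zero 2 hx

lemma mass_nonneg (u : Cyl → ℝ) : 0 ≤ mass u := integral_nonneg (fun p => sq_nonneg _)

lemma energy_nonneg (u : Cyl → ℝ) : 0 ≤ energy u :=
  integral_nonneg (fun p => add_nonneg (sq_nonneg _) (sq_nonneg _))

/-- the counting inequality for periodic tilings. -/
theorem counting (H : ℝ) (hH : 0 < H) (β₀ : ℝ) (Ω : Set Cyl) (N : ℕ) (g : Fin N → Motion)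
    (hdis : ∀ i i' : Fin N, ∀ j j' : ℤ, (i, j) ≠ (i', j') →
      Disjoint (shift (β₀ : AddCircle (2 * Real.pi)) H j '' ((g i).map '' Ω))
        (shift (β₀ : AddCircle (2 * Real.pi)) H j' '' ((g i').map '' Ω)))
    (L : Submodule ℝ (Cyl → ℝ)) (hL : ∀ u ∈ L, IsTest Ω u) (k : ℕ) (hk : Module.finrank ℝ L = k)
    (hk1 : 1 ≤ k) (lam : ℝ) (hR : ∀ u ∈ L, energy u ≤ lam * mass u) (κ : ℝ)
    (S : Finset (ℤ × ℤ))
    (hS : ∀ n m : ℤ, (n:ℝ) ^ 2 + (2 * Real.pi / H * (m + κ - n * (β₀ / (2 * Real.pi)))) ^ 2 ≤ lam →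
      (n, m) ∈ S) : N * k ≤ S.card := by
  by_contra hcard
  rw [not_le] at hcard
  have hfin : FiniteDimensional ℝ L := Module.finite_of_finrank_pos (by omega)
  have hshift0 : ∀ p, shift (β₀ : AddCircle (2 * Real.pi)) H 0 p = p := by
    intro p; simp [shift]
  have hshift0' : ∀ s : Set Cyl, shift (β₀ : AddCircle (2 * Real.pi)) H 0 '' s = s := by
    intro s
    have : shift (β₀ : AddCircle (2 * Real.pi)) H 0 = id := funext hshift0
    rw [this, image_id]
  have hdis0 : ∀ i i' : Fin N, i ≠ i' → Disjoint ((g i).map '' Ω) ((g i').map '' Ω) := by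
    intro i i' hii'
    have := hdis i i' 0 0 (by simp [hii'])
    rwa [hshift0', hshift0'] at this
  set ζ : ℤ × ℤ → ℝ := fun p => 2 * Real.pi / H * (p.2 + κ - p.1 * (β₀ / (2 * Real.pi))) with hζ
  -- dimension count
  have hd1 : Module.finrank ℝ (Fin N → L × L) = N * (k + k) := by
    rw [Module.finrank_pi_fintype]
    simp [hk]
  have hd2 : Module.finrank ℝ (S → ℂ) = S.card * 2 := by
    rw [Module.finrank_pi_fintype]
    simp
  have hker := LinearMap.ker_ne_bot_of_finrank_lt (f := Lam g L hL S ζ) (by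
    rw [hd1, hd2]; nlinarith)
  obtain ⟨w, hw, hw0⟩ := (Submodule.ne_bot_iff _).mp hker
  have hLam : ∀ s : S, ∫ p, chr s.1.1 (ζ s.1) p * Uf g L w p = 0 := fun s => by
    have h1 : Lam g L hL S ζ w = 0 := hw
    exact congrFun h1 s
  -- the support
  obtain ⟨K, hK, hsub⟩ := Uf_supp g L hL w
  obtain ⟨B, hB⟩ : ∃ B : ℝ, ∀ p ∈ K, |p.2| ≤ B := by
    obtain ⟨B, hB⟩ := (hK.image continuous_snd).isBounded.exists_norm_le
    exact ⟨B, fun p hp => hB p.2 ⟨p, hp, rfl⟩⟩
  set J := ⌊|B| / H⌋₊ + 1 with hJ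
  have hJB : |B| < J * H := by
    have := Nat.lt_floor_add_one (|B| / H)
    rw [div_lt_iff₀ hH] at this
    rw [hJ]; push_cast; exact this
  have hJH0 : 0 ≤ (J:ℝ) * H := (abs_nonneg B).trans hJB.le
  have hout : ∀ p : Cyl, (J:ℝ) * H ≤ |p.2| → p ∉ K := by
    intro p hp hpK
    have := hB p hpK
    have := le_abs_self B
    linarith
  have hU0 : ∀ p : Cyl, p ∉ K → Uf g L w p = 0 := by
    intro p hp
    unfold Uf
    apply Finset.sum_eq_zero
    intro i _
    exact image_eq_zero_of_notMem_tsupport (fun h' => hp (hsub i h'))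
  have hUts : tsupport (Uf g L w) ⊆ K := by
    apply closure_minimal _ hK.isClosed
    intro p hp
    by_contra h
    exact hp (hU0 p h)
  have hUx0 : ∀ p : Cyl, p ∉ K → dX (Uf g L w) p = 0 := by
    intro p hp; by_contra h; exact hp (hUts (dX_ne _ p h))
  have hUy0 : ∀ p : Cyl, p ∉ K → dY (Uf g L w) p = 0 := by
    intro p hp; by_contra h; exact hp (hUts (dY_ne _ p h))
  have hlft := Uf_lft g L hL w
  have hcs := Uf_compact g L hL w
  have hcU := cont_f _ hlft
  have hcX := cont_dX _ hlft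
  have hcY := cont_dY _ hlft
  -- masses and energies
  have hm1 : ∫ p, ‖Uf g L w p‖ ^ 2 = ∫ y in (-(J * H))..(J * H), ∫ x in (0:ℝ)..(2 * Real.pi),
      ‖Uf g L w (pt x y)‖ ^ 2 := by
    apply integral_cyl (fun p => ‖Uf g L w p‖ ^ 2) (hcU.norm.pow 2) _ (J * H) hJH0
    · intro p hp; rw [hU0 p (hout p hp)]; simp
    · apply HasCompactSupport.of_support_subset_isCompact hK
      intro p hp; by_contra h; apply hp; show ‖Uf g L w p‖ ^ 2 = 0; rw [hU0 p h]; simp
  have hcsX : HasCompactSupport fun p => ‖dX (Uf g L w) p‖ ^ 2 := by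
    apply HasCompactSupport.of_support_subset_isCompact hK
    intro p hp; by_contra h; apply hp; show ‖dX (Uf g L w) p‖ ^ 2 = 0; rw [hUx0 p h]; simp
  have hcsY : HasCompactSupport fun p => ‖dY (Uf g L w) p‖ ^ 2 := by
    apply HasCompactSupport.of_support_subset_isCompact hK
    intro p hp; by_contra h; apply hp; show ‖dY (Uf g L w) p‖ ^ 2 = 0; rw [hUy0 p h]; simp
  have hm2 : ∫ p, ‖dX (Uf g L w) p‖ ^ 2 = ∫ y in (-(J * H))..(J * H),
      ∫ x in (0:ℝ)..(2 * Real.pi), ‖dX (Uf g L w) (pt x y)‖ ^ 2 := by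
    apply integral_cyl (fun p => ‖dX (Uf g L w) p‖ ^ 2) (hcX.norm.pow 2) hcsX (J * H) hJH0
    intro p hp; rw [hUx0 p (hout p hp)]; simp
  have hm3 : ∫ p, ‖dY (Uf g L w) p‖ ^ 2 = ∫ y in (-(J * H))..(J * H),
      ∫ x in (0:ℝ)..(2 * Real.pi), ‖dY (Uf g L w) (pt x y)‖ ^ 2 := by
    apply integral_cyl (fun p => ‖dY (Uf g L w) p‖ ^ 2) (hcY.norm.pow 2) hcsY (J * H) hJH0
    intro p hp; rw [hUy0 p (hout p hp)]; simp
  have hen : ∫ p, (‖dX (Uf g L w) p‖ ^ 2 + ‖dY (Uf g L w) p‖ ^ 2) =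
      (∫ p, ‖dX (Uf g L w) p‖ ^ 2) + ∫ p, ‖dY (Uf g L w) p‖ ^ 2 :=
    integral_add (integrable_sq_norm _ hcX (compact_dX _ hcs))
      (integrable_sq_norm _ hcY (compact_dY _ hcs))
  have hmass := Uf_mass g L hL hdis0 w
  have henergy := Uf_energy g L hL hdis0 w
  have hpos : 0 < ∑ i, (mass ((w i).1 : Cyl → ℝ) + mass ((w i).2 : Cyl → ℝ)) := by
    obtain ⟨i, hi⟩ := Function.ne_iff.mp hw0
    apply Finset.sum_pos' (fun i _ => add_nonneg (mass_nonneg _) (mass_nonneg _))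
    refine ⟨i, Finset.mem_univ i, ?_⟩
    by_cases h1 : (w i).1 = 0
    · have h2 : (w i).2 ≠ 0 := by
        intro h2; apply hi
        exact Prod.ext h1 h2
      have h3 : ((w i).2 : Cyl → ℝ) ≠ 0 := fun h => h2 (Subtype.ext h)
      exact add_pos_of_nonneg_of_pos (mass_nonneg _) (mass_pos (hL _ (w i).2.2) h3)
    · have h3 : ((w i).1 : Cyl → ℝ) ≠ 0 := fun h => h1 (Subtype.ext h)
      exact add_pos_of_pos_of_nonneg (mass_pos (hL _ (w i).1.2) h3) (mass_nonneg _)
  have hle : ∑ i, (energy ((w i).1 : Cyl → ℝ) + energy ((w i).2 : Cyl → ℝ)) ≤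
      lam * ∑ i, (mass ((w i).1 : Cyl → ℝ) + mass ((w i).2 : Cyl → ℝ)) := by
    rw [Finset.mul_sum]
    apply Finset.sum_le_sum
    intro i _
    rw [mul_add]
    exact add_le_add (hR _ (w i).1.2) (hR _ (w i).2.2)
  -- disjointness of translates
  have hptshift : ∀ (x y : ℝ) (j : ℤ), pt (x + j * β₀) (y + j * H) =
      shift (β₀ : AddCircle (2 * Real.pi)) H j (pt x y) := by
    intro x y j
    unfold pt shift
    apply Prod.ext
    · show ((x + j * β₀ : ℝ) : AddCircle (2 * Real.pi)) = (x : AddCircle (2 * Real.pi)) +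
        j • (β₀ : AddCircle (2 * Real.pi))
      rw [AddCircle.coe_add, ← zsmul_eq_mul, AddCircle.coe_zsmul]
    · rfl
  have hgen : ∀ (f : Cyl → ℂ), (∀ p, f p ≠ 0 → ∃ i, p ∈ (g i).map '' Ω) →
      ∀ x y : ℝ, ∀ j : ℤ, j ≠ 0 → f (pt x y) = 0 ∨ f (pt (x + j * β₀) (y + j * H)) = 0 := by
    intro f hf x y j hj
    by_contra hcon
    rw [not_or] at hcon
    obtain ⟨i, hi⟩ := hf _ hcon.1
    obtain ⟨i', hi'⟩ := hf _ hcon.2
    rw [hptshift] at hi'
    have h1 : shift (β₀ : AddCircle (2 * Real.pi)) H j (pt x y) ∈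
        shift (β₀ : AddCircle (2 * Real.pi)) H j '' ((g i).map '' Ω) := ⟨_, hi, rfl⟩
    have h2 : shift (β₀ : AddCircle (2 * Real.pi)) H j (pt x y) ∈
        shift (β₀ : AddCircle (2 * Real.pi)) H 0 '' ((g i').map '' Ω) := by
      rw [hshift0']; exact hi'
    exact disjoint_left.mp (hdis i i' j 0 (by simp [hj])) h1 h2
  have hsU : ∀ p, Uf g L w p ≠ 0 → ∃ i, p ∈ (g i).map '' Ω := by
    intro p hp
    by_contra hcon
    push Not at hcon
    apply hp
    unfold Uf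
    apply Finset.sum_eq_zero
    intro i _
    by_contra h
    exact hcon i (piece_ne (g i) _ _ (hL _ (w i).1.2) (hL _ (w i).2.2) p h)
  have hsX : ∀ p, dX (Uf g L w) p ≠ 0 → ∃ i, p ∈ (g i).map '' Ω := by
    intro p hp
    by_contra hcon
    push Not at hcon
    apply hp
    rw [Uf_dX g L hL]
    apply Finset.sum_eq_zero
    intro i _
    by_contra h
    exact hcon i (piece_dX_ne (g i) _ _ (hL _ (w i).1.2) (hL _ (w i).2.2) p h)
  have hsY : ∀ p, dY (Uf g L w) p ≠ 0 → ∃ i, p ∈ (g i).map '' Ω := by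
    intro p hp
    by_contra hcon
    push Not at hcon
    apply hp
    rw [Uf_dY g L hL]
    apply Finset.sum_eq_zero
    intro i _
    by_contra h
    exact hcon i (piece_dY_ne (g i) _ _ (hL _ (w i).1.2) (hL _ (w i).2.2) p h)
  -- the low coefficients vanish
  have hcoef : ∀ n m : ℤ, (n:ℝ) ^ 2 +
      (2 * Real.pi / H * (m + κ - n * (β₀ / (2 * Real.pi)))) ^ 2 ≤ lam →
      coef (J * H) (fun x y => Uf g L w (pt x y)) n
        (2 * Real.pi / H * (m + κ - n * (β₀ / (2 * Real.pi)))) = 0 := by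
    intro n m h
    have hz := hLam ⟨(n, m), hS n m h⟩
    have hint := integral_cyl (fun p => chr n (ζ (n, m)) p * Uf g L w p)
      ((chr_continuous _ _).mul hcU) hcs.mul_left (J * H) hJH0
      (by intro p hp; rw [hU0 p (hout p hp), mul_zero])
    have hz' : ∫ p, chr n (ζ (n, m)) p * Uf g L w p = 0 := hz
    rw [hz'] at hint
    unfold coef
    rw [hint]
    congr 1; ext y; congr 1; ext x
    rw [chr_pt]
  have habs1 : |(J:ℝ) * H| = J * H := abs_of_nonneg hJH0
  have hfinal := energy_gt H hH J (fun x y => Uf g L w (pt x y)) (fun x y => dX (Uf g L w) (pt x y))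
    (fun x y => dY (Uf g L w) (pt x y)) (hcU.comp pt_continuous) (hcX.comp pt_continuous)
    (hcY.comp pt_continuous) (fun x y => hasDeriv_x _ hlft x y) (fun x y => hasDeriv_y _ hlft x y)
    (fun x y => by rw [pt_per]) (fun x y => by rw [pt_per]) (fun x y => by rw [pt_per])
    (fun x => hU0 _ (hout _ (by show (J:ℝ) * H ≤ |(J:ℝ) * H|; rw [habs1])))
    (fun x => hU0 _ (hout _ (by show (J:ℝ) * H ≤ |-((J:ℝ) * H)|; rw [abs_neg, habs1])))
    β₀ (hgen _ hsU) (hgen _ hsX) (hgen _ hsY) κ lam hcoef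
    (by rw [← hm1, hmass]; exact hpos)
  rw [← hm1, ← hm2, ← hm3, hmass, ← hen, henergy] at hfinal
  linarith

end Pool.Agent.Work.MP_33c50c_an
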