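import Mathlib
import Pool.Agent.Work.MP_33c50c_an.Cyl3

namespace Pool.Agent.Work.MP_33c50c_an

open MeasureTheory Set
open scoped ENNReal ContDiff

lemma energy_zero : energy (0 : Cyl → ℝ) = 0 := by
  unfold energy dX dY; simp

lemma mass_zero : mass (0 : Cyl → ℝ) = 0 := by
  unfold mass; simp

theorem main : Statement := by
  obtain ⟨D₁, hD₁, hlat⟩ := lattice_lemma
  have hpi := Real.pi_pos
  have hD1pos : 0 < D₁ := by linarith
  refine ⟨2 * Real.pi / D₁, by positivity, ?_⟩
  intro H hH hHH β Ω hΩ N g hT k hk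
  obtain ⟨hdis, harea⟩ := hT
  obtain ⟨β₀, rfl⟩ := QuotientAddGroup.mk_surjective β
  have hN : 0 < N := by
    rcases Nat.eq_zero_or_pos N with h | h
    · exfalso
      rw [h] at harea
      simp only [Nat.cast_zero, zero_mul] at harea
      have : 0 < ENNReal.ofReal (2 * Real.pi * H) := ENNReal.ofReal_pos.mpr (by positivity)
      rw [← harea] at this
      exact lt_irrefl _ this
    · exact h
  have hN' : (0:ℝ) < N := by exact_mod_cast hN
  have hk' : (0:ℝ) < k := by exact_mod_cast hk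
  have hV : volume Ω = ENNReal.ofReal (2 * Real.pi * H / N) := by
    rw [ENNReal.ofReal_div_of_pos hN', ENNReal.ofReal_natCast, ← harea]
    rw [ENNReal.eq_div_iff (by exact_mod_cast hN.ne') (ENNReal.natCast_ne_top N)]
  have hc : ENNReal.ofReal (4 * Real.pi * k) / volume Ω = ENNReal.ofReal (2 * k * N / H) := by
    rw [hV, ← ENNReal.ofReal_div_of_pos (by positivity)]
    congr 1; field_simp; ring
  rw [hc]
  by_contra hcon
  rw [not_le] at hcon
  unfold eigenvalue at hcon
  rw [iInf_lt_iff] at hcon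
  obtain ⟨L, hcon⟩ := hcon
  rw [iInf_lt_iff] at hcon
  obtain ⟨⟨hL, hLk⟩, hcon⟩ := hcon
  set s := ⨆ (u : Cyl → ℝ) (_ : u ∈ L ∧ u ≠ 0), ENNReal.ofReal (energy u / mass u) with hs
  have hstop : s ≠ ⊤ := ne_top_of_lt hcon
  set lam := s.toReal with hlam
  have hlam0 : 0 ≤ lam := ENNReal.toReal_nonneg
  have hcpos : (0:ℝ) < 2 * k * N / H := by positivity
  have hlamc : lam < 2 * k * N / H := by
    rw [← ENNReal.ofReal_toReal hstop] at hcon
    exact (ENNReal.ofReal_lt_ofReal_iff hcpos).mp hcon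
  have hR : ∀ u ∈ L, energy u ≤ lam * mass u := by
    intro u hu
    by_cases h0 : u = 0
    · rw [h0, energy_zero, mass_zero, mul_zero]
    · have hm := mass_pos (hL u hu) h0
      have h1 : ENNReal.ofReal (energy u / mass u) ≤ s :=
        le_iSup₂ (f := fun (u : Cyl → ℝ) (_ : u ∈ L ∧ u ≠ 0) => ENNReal.ofReal (energy u / mass u))
          u ⟨hu, h0⟩
      have h2 : energy u / mass u ≤ lam := by
        rw [hlam]
        exact (ENNReal.ofReal_le_iff_le_toReal hstop).mp h1
      rwa [div_le_iff₀ hm] at h2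
  set c := 2 * k * N / H with hcdef
  set μ := Real.sqrt ((lam + c) / 2) with hμ
  have hμpos : 0 < μ := Real.sqrt_pos.mpr (by linarith)
  have hμsq : μ ^ 2 = (lam + c) / 2 := Real.sq_sqrt (by linarith)
  have hDD : D₁ ≤ 2 * Real.pi / H := by
    rw [le_div_iff₀ hH]
    rw [le_div_iff₀ hD1pos] at hHH
    linarith
  obtain ⟨κ, S, hS, hScard⟩ := hlat (2 * Real.pi / H) hDD (β₀ / (2 * Real.pi)) μ hμpos
  have hcount := counting H hH β₀ Ω N g hdis L hL k hLk hk lam hR κ S (by
    intro n m h
    apply hS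
    rw [hμsq]
    linarith)
  have h1 : (N:ℝ) * k ≤ S.card := by exact_mod_cast hcount
  have h2 : Real.pi * μ ^ 2 / (2 * Real.pi / H) = (lam + c) / 2 * H / 2 := by
    rw [hμsq]; field_simp
  have h3 : (lam + c) / 2 * H / 2 < c * H / 2 := by
    have : (lam + c) / 2 < c := by linarith
    have := mul_lt_mul_of_pos_right this hH
    linarith
  have h4 : c * H / 2 = N * k := by rw [hcdef]; field_simp
  rw [h2] at hScard
  linarith

end Pool.Agent.Work.MP_33c50c_an
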